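import Mathlib.Algebra.Algebra.Rat
import Mathlib.Data.Complex.Basic
import Mathlib.RepresentationTheory.Character

set_option autoImplicit false

namespace Pool.Agent.MP_adf6dd_al

/-- The irreducible complex characters of `G`: the characters of the simple objects of the
category of finite-dimensional complex representations. -/
def Irr (G : Type) [Group G] : Set (G → ℂ) :=
  {χ | ∃ V : FDRep ℂ G, CategoryTheory.Simple V ∧ V.character = χ}

/-- The field of values of a function on `G`. -/
noncomputable def fieldOf {G : Type} (χ : G → ℂ) : IntermediateField ℚ ℂ :=
  IntermediateField.adjoin ℚ (Set.range χ)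

/-- The largest number of irreducible characters that share one field of values. -/
noncomputable def fieldMult (G : Type) [Group G] : ℕ :=
  ⨆ F : IntermediateField ℚ ℂ, {χ | χ ∈ Irr G ∧ fieldOf χ = F}.ncard

end Pool.Agent.MP_adf6dd_al
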