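import Mathlib.RingTheory.PicardGroup
import Mathlib.RingTheory.Finiteness.ModuleFinitePresentation
import Mathlib.Analysis.CStarAlgebra.Classes
import Mathlib.LinearAlgebra.Matrix.Charpoly.Eigs
import Mathlib.FieldTheory.IsAlgClosed.Classification
import Mathlib.RingTheory.SimpleRing.Principal
import Mathlib.NumberTheory.NumberField.Cyclotomic.Galois
import Mathlib.RepresentationTheory.FinGroupCharZero
import Mathlib.RingTheory.TotallySplit
import Mathlib.RingTheory.Etale.Weakly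
import Pool.Agent.MP_adf6dd_al.Defs

-- ======== part 0: formerly Pool.Agent.MP_adf6dd_al.Basic
section MrgPart0

set_option autoImplicit false

open Matrix

namespace Pool.Agent.MP_adf6dd_al

variable {G H : Type} [Group G] [Group H]

/-- characters, through matrix representations -/
def IsChar (χ : G → ℂ) : Prop :=
  ∃ (n : ℕ) (ρ : G →* Matrix (Fin n) (Fin n) ℂ), ∀ g, χ g = (ρ g).trace

/-- characters of norm one -/
def IsIrr (χ : G → ℂ) : Prop := IsChar χ ∧ ∑ᶠ g, χ g * χ g⁻¹ = Nat.card G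

/-- at most `m` irreducible characters share a field -/
def FB (m : ℕ) (G : Type) [Group G] : Prop :=
  ∀ (F : IntermediateField ℚ ℂ) (s : Finset (G → ℂ)),
    (∀ χ ∈ s, IsIrr χ ∧ fieldOf χ = F) → s.card ≤ m

theorem IsChar.of {ι : Type} [Fintype ι] [DecidableEq ι] (ρ : G →* Matrix ι ι ℂ) {χ : G → ℂ}
    (h : ∀ g, χ g = (ρ g).trace) : IsChar χ := by
  let e := Fintype.equivFin ι
  refine ⟨Fintype.card ι, (Matrix.reindexAlgEquiv ℂ ℂ e).toMonoidHom.comp ρ, fun g => ?_⟩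
  rw [h g]
  simp [Matrix.trace, Matrix.reindex_apply]
  exact (Equiv.sum_comp e.symm (fun i => ρ g i i)).symm

theorem IsChar.comp {χ : H → ℂ} (h : IsChar χ) (φ : G →* H) : IsChar (fun g => χ (φ g)) := by
  obtain ⟨n, ρ, hρ⟩ := h
  exact ⟨n, ρ.comp φ, fun g => hρ _⟩

theorem IsChar.map {χ : G → ℂ} (h : IsChar χ) (τ : ℂ →+* ℂ) : IsChar (fun g => τ (χ g)) := by
  obtain ⟨n, ρ, hρ⟩ := h
  refine ⟨n, (τ.mapMatrix : Matrix (Fin n) (Fin n) ℂ →+* _).toMonoidHom.comp ρ, fun g => ?_⟩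
  simp [hρ, Matrix.trace, map_sum]

theorem IsChar.conj {χ : G → ℂ} (h : IsChar χ) (x g : G) : χ (x * g * x⁻¹) = χ g := by
  obtain ⟨n, ρ, hρ⟩ := h
  rw [hρ, hρ, map_mul, Matrix.trace_mul_comm, ← map_mul]
  simp

theorem IsChar.comm {χ : G → ℂ} (h : IsChar χ) (x g : G) : χ (x * g) = χ (g * x) := by
  rw [← h.conj x (g * x)]; simp [mul_assoc]

theorem IsChar.one {χ : G → ℂ} (h : IsChar χ) : ∃ n : ℕ, χ 1 = n := by
  obtain ⟨n, ρ, hρ⟩ := h
  exact ⟨n, by simp [hρ]⟩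

theorem isChar_hom (μ : G →* ℂˣ) : IsChar (fun g => (μ g : ℂ)) := by
  refine IsChar.of (ι := Unit)
    ((Matrix.scalar Unit : ℂ →+* _).toMonoidHom.comp ((Units.coeHom ℂ).comp μ)) fun g => ?_
  simp [Matrix.trace]

theorem isIrr_iff [Fintype G] {χ : G → ℂ} :
    IsIrr χ ↔ IsChar χ ∧ ∑ g, χ g * χ g⁻¹ = Nat.card G := by
  rw [IsIrr, finsum_eq_sum_of_fintype]

theorem isIrr_hom [Finite G] (μ : G →* ℂˣ) : IsIrr (fun g => (μ g : ℂ)) := by
  have := Fintype.ofFinite G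
  refine isIrr_iff.2 ⟨isChar_hom μ, ?_⟩
  simp

theorem IsIrr.one [Finite G] {χ : G → ℂ} (h : IsIrr χ) : ∃ n : ℕ, 0 < n ∧ χ 1 = n := by
  have := Fintype.ofFinite G
  obtain ⟨⟨n, ρ, hρ⟩, h2⟩ := isIrr_iff.1 h
  refine ⟨n, Nat.pos_of_ne_zero ?_, by simp [hρ]⟩
  rintro rfl
  have : (Nat.card G : ℂ) = 0 := by
    rw [← h2]; simp [hρ, Matrix.trace]
  exact (Nat.card_pos (α := G)).ne' (by exact_mod_cast this)

theorem IsIrr.one_ne [Finite G] {χ : G → ℂ} (h : IsIrr χ) : χ 1 ≠ 0 := by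
  obtain ⟨n, hn, h⟩ := h.one
  rw [h]; exact_mod_cast hn.ne'

theorem IsIrr.map [Finite G] {χ : G → ℂ} (h : IsIrr χ) (τ : ℂ →+* ℂ) :
    IsIrr (fun g => τ (χ g)) := by
  have := Fintype.ofFinite G
  obtain ⟨h1, h2⟩ := isIrr_iff.1 h
  refine isIrr_iff.2 ⟨h1.map τ, ?_⟩
  have := congrArg τ h2
  simpa [map_sum] using this

theorem sum_comp_surj [Fintype G] [Fintype H] (φ : G →* H) (hφ : Function.Surjective φ)
    (F : H → ℂ) : ∑ g, F (φ g) = Nat.card φ.ker * ∑ h, F h := by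
  classical
  rw [← Finset.sum_fiberwise (s := Finset.univ) (g := φ) (f := fun g => F (φ g)), Finset.mul_sum]
  refine Finset.sum_congr rfl fun h _ => ?_
  rw [Finset.sum_congr rfl (g := fun _ => F h) (fun g hg => by
    rw [(Finset.mem_filter.1 hg).2])]
  rw [Finset.sum_const, nsmul_eq_mul]
  congr 2
  obtain ⟨a, rfl⟩ := hφ h
  rw [Nat.card_eq_fintype_card, ← Fintype.card_coe]
  refine Fintype.card_congr ⟨fun x => ⟨a⁻¹ * x.1, ?_⟩, fun x => ⟨a * x.1, ?_⟩, ?_, ?_⟩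
  · have := (Finset.mem_filter.1 x.2).2
    simp [MonoidHom.mem_ker, this]
  · have := x.2
    rw [MonoidHom.mem_ker] at this
    simp [this]
  · intro x; simp
  · intro x; simp

theorem card_eq_ker_mul [Finite G] (φ : G →* H) (hφ : Function.Surjective φ) :
    Nat.card G = Nat.card φ.ker * Nat.card H := by
  rw [← Subgroup.card_mul_index φ.ker, Subgroup.index_ker, MonoidHom.range_eq_top.2 hφ]
  simp

theorem isIrr_comp_iff [Finite G] {χ : H → ℂ} (hχ : IsChar χ) (φ : G →* H)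
    (hφ : Function.Surjective φ) : IsIrr (fun g => χ (φ g)) ↔ IsIrr χ := by
  have : Finite H := Finite.of_surjective φ hφ
  have := Fintype.ofFinite G
  have := Fintype.ofFinite H
  rw [isIrr_iff, isIrr_iff]
  have h1 := sum_comp_surj φ hφ (fun h => χ h * χ h⁻¹)
  simp only [map_inv]
  rw [h1, card_eq_ker_mul φ hφ]
  have h0 : (Nat.card φ.ker : ℂ) ≠ 0 := by exact_mod_cast (Nat.card_pos (α := φ.ker)).ne'
  push_cast
  rw [mul_right_inj' h0]
  exact ⟨fun h => ⟨hχ, h.2⟩, fun h => ⟨hχ.comp φ, h.2⟩⟩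

theorem IsIrr.comp [Finite G] {χ : H → ℂ} (hχ : IsIrr χ) (φ : G →* H)
    (hφ : Function.Surjective φ) : IsIrr (fun g => χ (φ g)) :=
  (isIrr_comp_iff hχ.1 φ hφ).2 hχ

theorem FB.quot [Finite G] {m : ℕ} (h : FB m G) (φ : G →* H) (hφ : Function.Surjective φ) :
    FB m H := by
  classical
  intro F s hs
  have hinj : Function.Injective (fun (χ : H → ℂ) (g : G) => χ (φ g)) := by
    intro a b hab
    funext y
    obtain ⟨x, rfl⟩ := hφ y
    exact congrFun hab x
  rw [← Finset.card_image_of_injective s hinj]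
  refine h F _ fun ψ hψ => ?_
  obtain ⟨χ, hχ, rfl⟩ := Finset.mem_image.1 hψ
  refine ⟨(hs χ hχ).1.comp φ hφ, ?_⟩
  rw [← (hs χ hχ).2, fieldOf, fieldOf]
  congr 1
  exact hφ.range_comp χ

theorem FB.one_le [Finite G] {m : ℕ} (h : FB m G) : 1 ≤ m := by
  have := h _ {fun g => ((1 : G →* ℂˣ) g : ℂ)} (fun χ hχ => by
    rw [Finset.mem_singleton.1 hχ]; exact ⟨isIrr_hom 1, rfl⟩)
  simpa using this

theorem IsIrr.mem_irr [Finite G] {χ : G → ℂ} (h : IsIrr χ) : χ ∈ Irr G := by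
  have := Fintype.ofFinite G
  obtain ⟨⟨n, ρ, hρ⟩, h2⟩ := isIrr_iff.1 h
  let σ : Representation ℂ G (Fin n → ℂ) :=
    (Matrix.toLinAlgEquiv' : Matrix (Fin n) (Fin n) ℂ ≃ₐ[ℂ] _).toMonoidHom.comp ρ
  have hc : (FDRep.of σ).character = χ := by
    funext g
    rw [hρ g]
    show LinearMap.trace ℂ (Fin n → ℂ) (Matrix.toLin' (ρ g)) = _
    exact Matrix.trace_toLin'_eq _
  refine ⟨FDRep.of σ, ?_, hc⟩
  rw [FDRep.simple_iff_char_is_norm_one, hc]
  exact h2

theorem irr_finite [Finite G] : (Irr G).Finite := by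
  classical
  have := Fintype.ofFinite G
  have hne : (Nat.card G : ℂ) ≠ 0 := by exact_mod_cast (Nat.card_pos (α := G)).ne'
  have := invertibleOfNonzero hne
  have hli : LinearIndependent ℂ (fun χ : Irr G => (χ : G → ℂ)) := by
    rw [linearIndependent_iff']
    intro s c hc χ hχ
    have h1 : ∑ g : G, (∑ ψ ∈ s, c ψ • (ψ : G → ℂ)) g * χ.1 g⁻¹ = 0 := by
      rw [hc]; simp
    have h2 : ∀ ψ : Irr G, ∑ g : G, ψ.1 g * χ.1 g⁻¹ = if ψ = χ then (Nat.card G : ℂ) else 0 := by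
      intro ψ
      obtain ⟨V, hV, hVc⟩ := ψ.2
      obtain ⟨W, hW, hWc⟩ := χ.2
      have h3 := FDRep.char_orthonormal V W
      rw [hVc, hWc] at h3
      split_ifs with he
      · subst he
        have := (FDRep.simple_iff_char_is_norm_one V).1 hV
        rwa [hVc] at this
      · rw [if_neg] at h3
        · simpa [hne] using h3
        · rintro ⟨i⟩
          exact he (Subtype.ext (by rw [← hVc, ← hWc]; exact FDRep.char_iso i))
    simp only [Finset.sum_apply, Pi.smul_apply, smul_eq_mul, Finset.sum_mul, mul_assoc] at h1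
    rw [Finset.sum_comm] at h1
    simp only [← Finset.mul_sum, h2, mul_ite, mul_zero] at h1
    rw [Finset.sum_ite_eq' s χ, if_pos hχ] at h1
    exact (mul_eq_zero.1 h1).resolve_right hne
  have := hli.finite
  exact Set.toFinite _

theorem fb_fieldMult [Finite G] : FB (fieldMult G) G := by
  intro F s hs
  have hb : BddAbove (Set.range fun F : IntermediateField ℚ ℂ =>
      {χ | χ ∈ Irr G ∧ fieldOf χ = F}.ncard) := by
    refine ⟨(Irr G).ncard, ?_⟩
    rintro _ ⟨F, rfl⟩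
    exact Set.ncard_le_ncard (fun χ h => h.1) irr_finite
  refine le_trans ?_ (le_ciSup hb F)
  rw [← Set.ncard_coe_finset]
  exact Set.ncard_le_ncard (fun χ h => ⟨(hs χ h).1.mem_irr, (hs χ h).2⟩)
    (irr_finite.subset fun χ h => h.1)

theorem isIrr_finite [Finite G] : {χ : G → ℂ | IsIrr χ}.Finite :=
  irr_finite.subset fun _ h => h.mem_irr

end Pool.Agent.MP_adf6dd_al

end MrgPart0

-- ======== part 1: formerly Pool.Agent.MP_adf6dd_al.Gal
section MrgPart1

set_option autoImplicit false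

open IntermediateField

namespace Pool.Agent.MP_adf6dd_al

/-- the `N`-th cyclotomic field inside `ℂ` -/
noncomputable def Cyc (N : ℕ) : IntermediateField ℚ ℂ := adjoin ℚ {x | x ^ N = 1}

/-- the field of all roots of unity of `p`-power order -/
noncomputable def Kp (p : ℕ) : IntermediateField ℚ ℂ := adjoin ℚ {x | ∃ k : ℕ, x ^ p ^ k = 1}

theorem mem_cyc {N : ℕ} {x : ℂ} (h : x ^ N = 1) : x ∈ Cyc N := subset_adjoin ℚ _ h

theorem mem_kp {p k : ℕ} {x : ℂ} (h : x ^ p ^ k = 1) : x ∈ Kp p := subset_adjoin ℚ _ ⟨k, h⟩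

theorem cyc_mono {M N : ℕ} (h : M ∣ N) : Cyc M ≤ Cyc N := by
  obtain ⟨k, rfl⟩ := h
  refine adjoin.mono _ _ _ fun x hx => ?_
  show x ^ (M * k) = 1
  rw [pow_mul, show x ^ M = 1 from hx, one_pow]

theorem exists_cyc_of_kp {p : ℕ} {x : ℂ} (h : x ∈ Kp p) : ∃ k, x ∈ Cyc (p ^ k) := by
  induction h using adjoin_induction with
  | mem x hx => obtain ⟨k, hk⟩ := hx; exact ⟨k, mem_cyc hk⟩
  | algebraMap x => exact ⟨0, IntermediateField.algebraMap_mem _ x⟩
  | add x y _ _ hx hy =>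
    obtain ⟨a, ha⟩ := hx
    obtain ⟨b, hb⟩ := hy
    exact ⟨a + b, add_mem (cyc_mono (pow_dvd_pow p (by omega)) ha)
      (cyc_mono (pow_dvd_pow p (by omega)) hb)⟩
  | inv x _ hx => obtain ⟨a, ha⟩ := hx; exact ⟨a, inv_mem ha⟩
  | mul x y _ _ hx hy =>
    obtain ⟨a, ha⟩ := hx
    obtain ⟨b, hb⟩ := hy
    exact ⟨a + b, mul_mem (cyc_mono (pow_dvd_pow p (by omega)) ha)
      (cyc_mono (pow_dvd_pow p (by omega)) hb)⟩

theorem exists_cyc_of_finite {p : ℕ} {S : Set ℂ} (hS : S.Finite) (h : ∀ x ∈ S, x ∈ Kp p) :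
    ∃ k, ∀ x ∈ S, x ∈ Cyc (p ^ k) := by
  induction S, hS using Set.Finite.induction_on with
  | empty => exact ⟨0, by simp⟩
  | @insert a s _ _ ih =>
    obtain ⟨k, hk⟩ := ih fun x hx => h x (Set.mem_insert_of_mem _ hx)
    obtain ⟨j, hj⟩ := exists_cyc_of_kp (h a (Set.mem_insert _ _))
    refine ⟨k + j, ?_⟩
    rintro x (rfl | hx)
    · exact cyc_mono (pow_dvd_pow p (by omega)) hj
    · exact cyc_mono (pow_dvd_pow p (by omega)) (hk x hx)

theorem cyc_ext {N : ℕ} (f g : ℂ →+* ℂ) (h : ∀ x : ℂ, x ^ N = 1 → f x = g x) {x : ℂ}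
    (hx : x ∈ Cyc N) : f x = g x := by
  induction hx using adjoin_induction with
  | mem x hx => exact h x hx
  | algebraMap x => simp
  | add x y _ _ hx hy => rw [map_add, map_add, hx, hy]
  | inv x _ hx => rw [map_inv₀, map_inv₀, hx]
  | mul x y _ _ hx hy => rw [map_mul, map_mul, hx, hy]

theorem map_mem_cyc {N : ℕ} (f : ℂ →+* ℂ) {x : ℂ} (hx : x ∈ Cyc N) : f x ∈ Cyc N := by
  induction hx using adjoin_induction with
  | mem x hx => exact mem_cyc (by rw [← map_pow, show x ^ N = 1 from hx, map_one])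
  | algebraMap x => simp
  | add x y _ _ hx hy => rw [map_add]; exact add_mem hx hy
  | inv x _ hx => rw [map_inv₀]; exact inv_mem hx
  | mul x y _ _ hx hy => rw [map_mul]; exact mul_mem hx hy

theorem exists_ext (L : IntermediateField ℚ ℂ) (σ : L ≃+* L) :
    ∃ τ : ℂ →+* ℂ, ∀ x : L, τ x = σ x := by
  obtain ⟨s, hs⟩ := exists_isTranscendenceBasis L ℂ
  have := IsAlgClosed.isAlgClosure_of_transcendence_basis _ hs
  let A := Algebra.adjoin L (Set.range ((↑) : s → ℂ))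
  let e : MvPolynomial s L ≃ₐ[L] A := hs.1.aevalEquiv
  let φ : A ≃+* A := (e.symm.toRingEquiv.trans (MvPolynomial.mapEquiv s σ)).trans e.toRingEquiv
  refine ⟨(IsAlgClosure.equivOfEquiv ℂ ℂ φ).toRingHom, fun x => ?_⟩
  have h1 : (x : ℂ) = algebraMap A ℂ (algebraMap L A x) := rfl
  rw [h1]
  show IsAlgClosure.equivOfEquiv ℂ ℂ φ _ = _
  rw [IsAlgClosure.equivOfEquiv_algebraMap]
  have h2 : φ (algebraMap L A x) = algebraMap L A (σ x) := by
    show e (MvPolynomial.mapEquiv s σ (e.symm (algebraMap L A x))) = _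
    rw [AlgEquiv.commutes, MvPolynomial.algebraMap_eq, MvPolynomial.mapEquiv_apply,
      MvPolynomial.map_C, ← MvPolynomial.algebraMap_eq, AlgEquiv.commutes]
    rfl
  rw [h2]; rfl

/-- the Galois action on the `N`-th cyclotomic field, extended to `ℂ` -/
structure Tau (N : ℕ) where
  τ : (ZMod N)ˣ → (ℂ →+* ℂ)
  root : ∀ c x, x ^ N = 1 → τ c x = x ^ (c : ZMod N).val
  corr : ∀ S T : Set ℂ, (∀ x ∈ S, x ∈ Cyc N) → (∀ x ∈ T, x ∈ Cyc N) →
    (∀ c, (∀ x ∈ S, τ c x = x) → (∀ x ∈ T, τ c x = x)) → adjoin ℚ T ≤ adjoin ℚ S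

theorem exists_tau (N : ℕ) [NeZero N] : Nonempty (Tau N) := by
  have hL : Cyc N = adjoin ℚ {b : ℂ | ∃ n ∈ ({N} : Set ℕ), n ≠ 0 ∧ b ^ n = 1} := by
    unfold Cyc
    congr 1
    ext b
    simp [NeZero.ne N]
  have hc : IsCyclotomicExtension {N} ℚ (Cyc N) := by
    rw [hL]
    refine IntermediateField.isCyclotomicExtension_adjoin_of_exists_isPrimitiveRoot _ _ _ ?_
    rintro n rfl hn
    exact ⟨_, Complex.isPrimitiveRoot_exp n hn⟩
  have hnf : NumberField (Cyc N) := IsCyclotomicExtension.numberField {N} ℚ _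
  have hg : IsGalois ℚ (Cyc N) := IsCyclotomicExtension.isGalois {N} ℚ _
  let e := IsCyclotomicExtension.Rat.galEquivZMod N (Cyc N)
  choose τ hτ using fun c : (ZMod N)ˣ => exists_ext (Cyc N) (e.symm c).toRingEquiv
  refine ⟨⟨τ, fun c x hx => ?_, fun S T hS hT h => ?_⟩⟩
  · have h1 := hτ c ⟨x, mem_cyc hx⟩
    have h2 := IsCyclotomicExtension.Rat.galEquivZMod_apply_of_pow_eq N (Cyc N) (e.symm c)
      (x := ⟨x, mem_cyc hx⟩) (Subtype.ext hx)
    rw [h1]
    show ((e.symm c ⟨x, mem_cyc hx⟩ : Cyc N) : ℂ) = _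
    rw [h2, show IsCyclotomicExtension.Rat.galEquivZMod N (Cyc N) (e.symm c) = c from
      e.apply_symm_apply c]
    rfl
  · refine adjoin_le_iff.2 fun y hy => ?_
    let F : IntermediateField ℚ (Cyc N) := adjoin ℚ {x : Cyc N | (x : ℂ) ∈ S}
    have h1 : (⟨y, hT y hy⟩ : Cyc N) ∈ F := by
      rw [← IsGalois.fixedField_fixingSubgroup F, mem_fixedField_iff]
      intro σ hσ
      rw [IntermediateField.mem_fixingSubgroup_iff] at hσ
      have h2 := h (e σ) (fun x hx => by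
        have h3 := hτ (e σ) ⟨x, hS x hx⟩
        rw [MulEquiv.symm_apply_apply] at h3
        rw [h3]
        exact congrArg Subtype.val (hσ ⟨x, hS x hx⟩ (subset_adjoin ℚ _ hx))) y hy
      have h3 := hτ (e σ) ⟨y, hT y hy⟩
      rw [MulEquiv.symm_apply_apply] at h3
      exact Subtype.ext (h3.symm.trans h2)
    have h4 : ∀ z : Cyc N, z ∈ F → (z : ℂ) ∈ adjoin ℚ S := by
      intro z hz
      induction hz using adjoin_induction with
      | mem x hx => exact subset_adjoin ℚ _ hx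
      | algebraMap x => simp
      | add x y _ _ hx hy => simpa using add_mem hx hy
      | inv x _ hx => simpa using inv_mem hx
      | mul x y _ _ hx hy => simpa using mul_mem hx hy
    exact h4 _ h1

namespace Tau

variable {N : ℕ} (t : Tau N)

theorem one {x : ℂ} (hx : x ∈ Cyc N) : t.τ 1 x = x := by
  refine cyc_ext (t.τ 1) (RingHom.id ℂ) (fun x hx => ?_) hx
  rw [t.root _ _ hx, Units.val_one, ZMod.val_one_eq_one_mod, ← pow_eq_pow_mod 1 hx]
  simp

theorem mul (c d : (ZMod N)ˣ) {x : ℂ} (hx : x ∈ Cyc N) : t.τ (c * d) x = t.τ c (t.τ d x) := by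
  refine cyc_ext (t.τ (c * d)) ((t.τ c).comp (t.τ d)) (fun x hx => ?_) hx
  rw [RingHom.comp_apply, t.root _ _ hx, t.root d _ hx, map_pow, t.root c _ hx, ← pow_mul,
    Units.val_mul, ZMod.val_mul, ← pow_eq_pow_mod _ hx]

variable {G : Type} [Group G]

/-- the stabiliser of a function with cyclotomic values -/
def stab (χ : G → ℂ) (hχ : ∀ g, χ g ∈ Cyc N) : Subgroup (ZMod N)ˣ where
  carrier := {c | ∀ g, t.τ c (χ g) = χ g}
  one_mem' := fun g => t.one (hχ g)
  mul_mem' := fun {a b} ha hb g => by rw [t.mul a b (hχ g), hb g, ha g]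
  inv_mem' := fun {a} ha g => by
    have := t.mul a⁻¹ a (hχ g)
    rw [inv_mul_cancel, t.one (hχ g), ha g] at this
    exact this.symm

theorem card_le [Finite G] {m : ℕ} (h : FB m G) (s : Finset (G → ℂ))
    (hs : ∀ χ ∈ s, IsIrr χ ∧ ∀ g, χ g ∈ Cyc N)
    (hst : ∀ χ ∈ s, ∀ ψ ∈ s, ∀ c, (∀ g, t.τ c (χ g) = χ g) → ∀ g, t.τ c (ψ g) = ψ g) :
    s.card ≤ m := by
  rcases s.eq_empty_or_nonempty with rfl | ⟨χ, hχ⟩
  · simp
  have key : ∀ χ ∈ s, ∀ ψ ∈ s, fieldOf ψ ≤ fieldOf χ := fun χ hχ ψ hψ =>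
    t.corr _ _ (by rintro _ ⟨g, rfl⟩; exact (hs χ hχ).2 g)
      (by rintro _ ⟨g, rfl⟩; exact (hs ψ hψ).2 g) (fun c hc => by
        rintro _ ⟨g, rfl⟩
        exact hst χ hχ ψ hψ c (fun g => hc _ ⟨g, rfl⟩) g)
  exact h (fieldOf χ) s fun ψ hψ => ⟨(hs ψ hψ).1, le_antisymm (key χ hχ ψ hψ) (key ψ hψ χ hχ)⟩

theorem index_le [NeZero N] [Finite G] {m : ℕ} (h : FB m G) {χ : G → ℂ} (hi : IsIrr χ)
    (hχ : ∀ g, χ g ∈ Cyc N) : (t.stab χ hχ).index ≤ m := by
  classical
  have := Fintype.ofFinite ((ZMod N)ˣ ⧸ t.stab χ hχ)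
  let F : ((ZMod N)ˣ ⧸ t.stab χ hχ) → G → ℂ := fun q g => t.τ q.out (χ g)
  have hF : Function.Injective F := by
    intro a b hab
    rw [← a.out_eq', ← b.out_eq', QuotientGroup.eq]
    intro g
    have h1 : t.τ a.out (χ g) = t.τ b.out (χ g) := congrFun hab g
    rw [t.mul _ _ (hχ g), ← h1, ← t.mul _ _ (hχ g), inv_mul_cancel, t.one (hχ g)]
  rw [Subgroup.index, Nat.card_eq_fintype_card, ← Finset.card_univ,
    ← Finset.card_image_of_injective _ hF]
  refine t.card_le h _ (fun ψ hψ => ?_) (fun ψ hψ ψ' hψ' c hc g => ?_)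
  · obtain ⟨q, -, rfl⟩ := Finset.mem_image.1 hψ
    exact ⟨hi.map _, fun g => map_mem_cyc _ (hχ g)⟩
  · obtain ⟨q, -, rfl⟩ := Finset.mem_image.1 hψ
    obtain ⟨q', -, rfl⟩ := Finset.mem_image.1 hψ'
    have h1 : t.τ c (t.τ q.out (χ g)) = t.τ q.out (χ g) := hc g
    rw [← t.mul _ _ (hχ g), mul_comm, t.mul _ _ (hχ g)] at h1
    have h2 := (t.τ q.out).injective h1
    show t.τ c (t.τ q'.out (χ g)) = t.τ q'.out (χ g)
    rw [← t.mul _ _ (hχ g), mul_comm, t.mul _ _ (hχ g), h2]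

end Tau

end Pool.Agent.MP_adf6dd_al

end MrgPart1

-- ======== part 2: formerly Pool.Agent.MP_adf6dd_al.Mat
section MrgPart2

set_option autoImplicit false

open Matrix

namespace Pool.Agent.MP_adf6dd_al

variable {G H : Type} [Group G] [Group H] {ι : Type} [Fintype ι] [DecidableEq ι]

theorem idem_zero {P : Matrix ι ι ℂ} (h : P * P = P) (ht : P.trace = 0) : P = 0 := by
  have h1 : IsIdempotentElem (Matrix.toLin' P) := by
    show Matrix.toLin' P ∘ₗ Matrix.toLin' P = _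
    rw [← Matrix.toLin'_mul, h]
  have h2 := LinearMap.IsIdempotentElem.eq_zero_of_trace_eq_zero h1
    (by rw [Matrix.trace_toLin'_eq, ht])
  exact (LinearEquiv.map_eq_zero_iff _).1 h2

theorem eq_one_of_trace {M : Matrix ι ι ℂ} {N : ℕ} (hN : 0 < N) (h : M ^ N = 1)
    (ht : ∀ i, (M ^ i).trace = Fintype.card ι) : M = 1 := by
  have hN' : (N : ℂ) ≠ 0 := by exact_mod_cast hN.ne'
  set S := ∑ i ∈ Finset.range N, M ^ i with hS
  have h1 : M * S = S := by
    have := mul_geom_sum M N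
    rw [h, sub_self, sub_mul, one_mul, sub_eq_zero] at this
    exact this
  have h2 : ∀ i, M ^ i * S = S := by
    intro i
    induction i with
    | zero => simp
    | succ i ih => rw [pow_succ, mul_assoc, h1, ih]
  have h3 : S * S = (N : ℂ) • S := by
    nth_rewrite 1 [hS]
    rw [Finset.sum_mul]
    simp [h2, Nat.cast_smul_eq_nsmul]
  have h4 : (1 : Matrix ι ι ℂ) - (N : ℂ)⁻¹ • S = 0 := by
    apply idem_zero
    · rw [sub_mul, mul_sub, mul_sub, smul_mul_smul_comm, h3, smul_smul]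
      simp [hN']
    · rw [trace_sub, trace_smul, hS, trace_sum]
      simp [ht, hN']
  rw [sub_eq_zero] at h4
  calc M = M * ((N : ℂ)⁻¹ • S) := by rw [← h4, mul_one]
    _ = 1 := by rw [mul_smul_comm, h1, ← h4]

theorem scalar_of_over [Finite G] (ρ : G →* Matrix ι ι ℂ) (z : G) (c : ℂˣ)
    (h : ∀ g, (ρ (z * g)).trace = c * (ρ g).trace) : ρ z = (c : ℂ) • (1 : Matrix ι ι ℂ) := by
  rcases isEmpty_or_nonempty ι with hι | hι
  · exact Subsingleton.elim _ _
  have hd : (Fintype.card ι : ℂ) ≠ 0 := by exact_mod_cast Fintype.card_ne_zero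
  have h1 : ∀ i, (ρ (z ^ i)).trace = (c : ℂ) ^ i * Fintype.card ι := by
    intro i
    induction i with
    | zero => simp
    | succ i ih => rw [pow_succ', h, ih]; ring
  have h2 : (c : ℂ) ^ orderOf z = 1 := by
    have := h1 (orderOf z)
    rw [pow_orderOf_eq_one, map_one, trace_one] at this
    exact mul_right_cancel₀ hd (by rw [one_mul]; exact this.symm)
  have h3 : (c : ℂ)⁻¹ • ρ z = 1 := by
    refine eq_one_of_trace (orderOf_pos z) ?_ fun i => ?_
    · rw [smul_pow, ← map_pow, pow_orderOf_eq_one, inv_pow, h2]; simp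
    · rw [smul_pow, ← map_pow, trace_smul, h1, smul_eq_mul, inv_pow, ← mul_assoc,
        inv_mul_cancel₀ (pow_ne_zero _ c.ne_zero), one_mul]
  rw [← h3, smul_smul, mul_inv_cancel₀ c.ne_zero, one_smul]

theorem trace_mem_kp {p k : ℕ} {M : Matrix ι ι ℂ} (h : M ^ p ^ k = 1) : M.trace ∈ Kp p := by
  rcases isEmpty_or_nonempty ι with hι | hι
  · simp [Matrix.trace]
  rw [Matrix.trace_eq_sum_roots_charpoly]
  refine multiset_sum_mem _ fun x hx => mem_kp (k := k) ?_
  have h1 : x ∈ spectrum ℂ M :=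
    Matrix.mem_spectrum_iff_isRoot_charpoly.2 (Polynomial.isRoot_of_mem_roots hx)
  have h2 := spectrum.pow_mem_pow M (p ^ k) h1
  rw [h, spectrum.one_eq] at h2
  exact h2

theorem IsChar.mul {χ ψ : G → ℂ} (h1 : IsChar χ) (h2 : IsChar ψ) : IsChar (fun g => χ g * ψ g) := by
  obtain ⟨n, ρ, hρ⟩ := h1
  obtain ⟨m, σ, hσ⟩ := h2
  refine IsChar.of (ι := Fin n × Fin m)
    { toFun := fun g => kroneckerMap (· * ·) (ρ g) (σ g)
      map_one' := by simp
      map_mul' := fun a b => by simp only [map_mul]; exact mul_kronecker_mul _ _ _ _ } fun g => ?_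
  rw [hρ, hσ]
  exact (trace_kronecker _ _).symm

theorem IsChar.desc [Finite G] {χ : G → ℂ} (h : IsChar χ) (π : G →* H)
    (hπ : Function.Surjective π) (hk : ∀ z, π z = 1 → ∀ g, χ (z * g) = χ g) :
    ∃ ψ : H → ℂ, IsChar ψ ∧ ∀ g, ψ (π g) = χ g := by
  obtain ⟨n, ρ, hρ⟩ := h
  have h1 : π.ker ≤ ρ.toHomUnits.ker := by
    intro z hz
    rw [MonoidHom.mem_ker] at hz ⊢
    apply Units.ext
    have := scalar_of_over ρ z 1 (fun g => by rw [← hρ, ← hρ, hk z hz]; simp)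
    simpa using this
  let σ := π.liftOfSurjective hπ ⟨ρ.toHomUnits, h1⟩
  refine ⟨fun y => ((σ y : (Matrix (Fin n) (Fin n) ℂ)ˣ) : Matrix (Fin n) (Fin n) ℂ).trace,
    ⟨n, (Units.coeHom _).comp σ, fun _ => rfl⟩, fun g => ?_⟩
  simp only [σ, MonoidHom.liftOfRightInverse_comp_apply]
  rw [hρ]; rfl

end Pool.Agent.MP_adf6dd_al

end MrgPart2

-- ======== part 3: formerly Pool.Agent.MP_adf6dd_al.Ind
section MrgPart3

set_option autoImplicit false

open Matrix

namespace Pool.Agent.MP_adf6dd_al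

variable {G : Type} [Group G]

open Classical in
/-- extension by zero -/
noncomputable def ext0 {M : Type} [Zero M] (T : Subgroup G) (ψ : T → M) (g : G) : M :=
  if h : g ∈ T then ψ ⟨g, h⟩ else 0

theorem ext0_mem {M : Type} [Zero M] {T : Subgroup G} (ψ : T → M) {g : G} (h : g ∈ T) :
    ext0 T ψ g = ψ ⟨g, h⟩ := dif_pos h

theorem ext0_not {M : Type} [Zero M] {T : Subgroup G} (ψ : T → M) {g : G} (h : g ∉ T) :
    ext0 T ψ g = 0 := dif_neg h

/-- the induced function -/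
noncomputable def ind (T : Subgroup G) (ψ : T → ℂ) (g : G) : ℂ :=
  (Nat.card T : ℂ)⁻¹ * ∑ᶠ x, ext0 T ψ (x⁻¹ * g * x)

theorem ind_eq [Fintype G] (T : Subgroup G) (ψ : T → ℂ) (g : G) :
    ind T ψ g = (Nat.card T : ℂ)⁻¹ * ∑ x, ext0 T ψ (x⁻¹ * g * x) := by
  rw [ind, finsum_eq_sum_of_fintype]

theorem sum_quot [Fintype G] (T : Subgroup G) [Fintype (G ⧸ T)] (F : G → ℂ)
    (hF : ∀ x, ∀ t ∈ T, F (x * t) = F x) : ∑ x, F x = Nat.card T * ∑ c : G ⧸ T, F c.out := by
  classical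
  have := Fintype.ofFinite T
  have hb : Function.Bijective (fun p : (G ⧸ T) × T => p.1.out * (p.2 : G)) := by
    constructor
    · rintro ⟨c, t⟩ ⟨c', t'⟩ h
      have h1 : c = c' := by
        have := congrArg (fun x : G => (x : G ⧸ T)) h
        simpa using this
      subst h1
      simpa using h
    · intro x
      refine ⟨⟨(x : G ⧸ T), ⟨(x : G ⧸ T).out⁻¹ * x, ?_⟩⟩, by simp⟩
      rw [← QuotientGroup.eq]; simp
  rw [← (Equiv.ofBijective _ hb).sum_comp, Fintype.sum_prod_type, Finset.mul_sum]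
  refine Finset.sum_congr rfl fun c _ => ?_
  simp [hF _ _ (Subtype.prop _), Nat.card_eq_fintype_card]

theorem sum_ext0 [Fintype G] (T : Subgroup G) [Fintype T] (F : G → ℂ) (hF : ∀ g, g ∉ T → F g = 0) :
    ∑ g, F g = ∑ t : T, F t := by
  classical
  rw [← Finset.sum_subtype (Finset.univ.filter (· ∈ T)) (by simp) F]
  rw [Finset.sum_filter]
  refine Finset.sum_congr rfl fun g _ => ?_
  split_ifs with h
  · rfl
  · exact hF g h

theorem ext0_conj {T : Subgroup G} {ψ : T → ℂ} (hψ : IsChar ψ) {t : G} (ht : t ∈ T) (g : G) :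
    ext0 T ψ (t⁻¹ * g * t) = ext0 T ψ g := by
  by_cases hg : g ∈ T
  · rw [ext0_mem ψ hg, ext0_mem ψ (T.mul_mem (T.mul_mem (T.inv_mem ht) hg) ht),
      ← hψ.conj (⟨t, ht⟩ : T)⁻¹ ⟨g, hg⟩]
    simp only [inv_inv]
    rfl
  · rw [ext0_not ψ hg, ext0_not]
    intro h
    apply hg
    have := T.mul_mem (T.mul_mem ht h) (T.inv_mem ht)
    simpa [mul_assoc] using this

theorem IsChar.ind [Finite G] {T : Subgroup G} {ψ : T → ℂ} (hψ : IsChar ψ) : IsChar (ind T ψ) := by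
  classical
  have := Fintype.ofFinite G
  have := Fintype.ofFinite (G ⧸ T)
  obtain ⟨n, ρ, hρ⟩ := id hψ
  have hmul : ∀ a ∈ T, ∀ b, ext0 T ρ (a * b) = ext0 T ρ a * ext0 T ρ b := by
    intro a ha b
    by_cases hb : b ∈ T
    · rw [ext0_mem _ ha, ext0_mem _ hb, ext0_mem _ (T.mul_mem ha hb), ← map_mul]; rfl
    · rw [ext0_not _ hb, mul_zero, ext0_not]
      intro h
      exact hb ((T.mul_mem_cancel_left ha).1 h)
  let R : G →* Matrix (G ⧸ T) (G ⧸ T) (Matrix (Fin n) (Fin n) ℂ) :=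
    { toFun := fun g => Matrix.of fun c d => ext0 T ρ (c.out⁻¹ * g * d.out)
      map_one' := by
        ext1 c d
        by_cases h : c = d
        · subst h
          simp [ext0_mem _ T.one_mem]
          exact map_one ρ
        · rw [Matrix.of_apply, ext0_not, Matrix.one_apply_ne h]
          rw [mul_one, ← QuotientGroup.eq]
          simpa using h
      map_mul' := fun g h => by
        ext1 c d
        rw [Matrix.mul_apply, Finset.sum_eq_single ((g⁻¹ * c.out : G) : G ⧸ T)]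
        · simp only [Matrix.of_apply]
          rw [← hmul]
          · congr 1; group
          · have : (g⁻¹ * c.out)⁻¹ * ((g⁻¹ * c.out : G) : G ⧸ T).out ∈ T := by
              rw [← QuotientGroup.eq]; simp
            simpa using this
        · intro e _ he
          simp only [Matrix.of_apply]
          rw [ext0_not, zero_mul]
          intro h1
          apply he
          rw [← e.out_eq', eq_comm, QuotientGroup.eq]
          simpa using h1
        · simp }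
  refine IsChar.of ((Matrix.compRingEquiv (G ⧸ T) (Fin n) ℂ).toMonoidHom.comp R) fun g => ?_
  have h0 : (Nat.card T : ℂ) ≠ 0 := by exact_mod_cast (Nat.card_pos (α := T)).ne'
  rw [ind_eq, sum_quot T _ (fun x t ht => by
    rw [← ext0_conj hψ ht (x⁻¹ * g * x)]; congr 1; group), ← mul_assoc, inv_mul_cancel₀ h0, one_mul]
  simp only [Matrix.trace, Fintype.sum_prod_type]
  refine Finset.sum_congr rfl fun c _ => ?_
  show _ = ∑ i, ext0 T ρ (c.out⁻¹ * g * c.out) i i
  by_cases h : c.out⁻¹ * g * c.out ∈ T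
  · rw [ext0_mem _ h, ext0_mem _ h, hρ]; rfl
  · rw [ext0_not _ h, ext0_not _ h]; simp

theorem ext0_over {T Z : Subgroup G} (hZT : Z ≤ T) (μ : Z →* ℂˣ) {ψ : T → ℂ}
    (hov : ∀ (z : Z) (g : T), ψ (⟨z, hZT z.2⟩ * g) = μ z * ψ g) (z : Z) (g : G) :
    ext0 T ψ (z * g) = μ z * ext0 T ψ g := by
  by_cases hg : g ∈ T
  · rw [ext0_mem _ hg, ext0_mem _ (T.mul_mem (hZT z.2) hg), ← hov]; rfl
  · rw [ext0_not _ hg, mul_zero, ext0_not]
    intro h
    exact hg ((T.mul_mem_cancel_left (hZT z.2)).1 h)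

theorem IsIrr.ind [Finite G] {T Z : Subgroup G} [Z.Normal] (hZT : Z ≤ T) (μ : Z →* ℂˣ)
    (hT : ∀ x, x ∉ T → ∃ z : Z, μ (MulAut.conjNormal x z) ≠ μ z) {ψ : T → ℂ} (hψ : IsIrr ψ)
    (hov : ∀ (z : Z) (g : T), ψ (⟨z, hZT z.2⟩ * g) = μ z * ψ g) : IsIrr (ind T ψ) := by
  classical
  have := Fintype.ofFinite G
  have := Fintype.ofFinite T
  refine isIrr_iff.2 ⟨hψ.1.ind, ?_⟩
  have h0 : (Nat.card T : ℂ) ≠ 0 := by exact_mod_cast (Nat.card_pos (α := T)).ne'
  set f := ext0 T ψ with hf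
  have hI : ∀ x : G, ∑ g, f (x⁻¹ * g * x) * f g⁻¹ = if x ∈ T then (Nat.card T : ℂ) else 0 := by
    intro x
    split_ifs with hx
    · simp only [hf, ext0_conj hψ.1 hx]
      rw [sum_ext0 T _ (fun g hg => by rw [ext0_not _ hg, zero_mul]), ← (isIrr_iff.1 hψ).2]
      refine Finset.sum_congr rfl fun t _ => ?_
      rw [ext0_mem _ t.2, ext0_mem _ (T.inv_mem t.2)]
      rfl
    · obtain ⟨z, hz⟩ := hT x⁻¹ (by simpa using hx)
      have h1 : ∑ g, f (x⁻¹ * g * x) * f g⁻¹ = ∑ g, f (x⁻¹ * (z * g) * x) * f (z * g)⁻¹ :=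
        (Equiv.sum_comp (Equiv.mulLeft (z : G)) (fun g => f (x⁻¹ * g * x) * f g⁻¹)).symm
      have h2 : ∀ g, f (x⁻¹ * (z * g) * x) * f (z * g)⁻¹ =
          (μ (MulAut.conjNormal x⁻¹ z) * (μ z : ℂ)⁻¹) * (f (x⁻¹ * g * x) * f g⁻¹) := by
        intro g
        have h3 : f (x⁻¹ * (z * g) * x) = μ (MulAut.conjNormal x⁻¹ z) * f (x⁻¹ * g * x) := by
          rw [hf, ← ext0_over hZT μ hov]
          congr 1
          simp [mul_assoc]
        have h4 : f (z * g)⁻¹ = (μ z : ℂ)⁻¹ * f g⁻¹ := by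
          rw [hf, ← Units.val_inv_eq_inv_val, ← map_inv, ← ext0_over hZT μ hov,
            ← ext0_conj hψ.1 (hZT z.2) ((z : G) * g)⁻¹]
          congr 1
          simp [mul_assoc]
        rw [h3, h4]; ring
      simp only [h2, ← Finset.mul_sum] at h1
      by_contra hne
      have h5 : (μ (MulAut.conjNormal x⁻¹ z) * (μ z : ℂ)⁻¹) = 1 :=
        (mul_right_cancel₀ hne (by rw [one_mul]; exact h1)).symm
      rw [mul_inv_eq_one₀ (Units.ne_zero _)] at h5
      exact hz (Units.ext h5)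
  have h6 : ∀ y : G, ∑ g, ∑ x, f (x⁻¹ * g * x) * f (y⁻¹ * g⁻¹ * y) =
      (Nat.card T : ℂ) * Nat.card T := by
    intro y
    rw [← Equiv.sum_comp (MulAut.conj y).toEquiv]
    have : ∀ g, ∑ x, f (x⁻¹ * (MulAut.conj y).toEquiv g * x) *
        f (y⁻¹ * ((MulAut.conj y).toEquiv g)⁻¹ * y) = ∑ x, f (x⁻¹ * g * x) * f g⁻¹ := by
      intro g
      rw [← Equiv.sum_comp (Equiv.mulLeft y)]
      refine Finset.sum_congr rfl fun x _ => ?_
      congr 2 <;> simp [mul_assoc]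
    simp only [this]
    rw [Finset.sum_comm]
    simp only [hI]
    rw [sum_ext0 T _ (fun g hg => if_neg hg)]
    simp [Nat.card_eq_fintype_card]
  simp only [ind_eq, ← hf]
  have h7 : ∀ g : G, ((Nat.card T : ℂ)⁻¹ * ∑ x, f (x⁻¹ * g * x)) *
      ((Nat.card T : ℂ)⁻¹ * ∑ y, f (y⁻¹ * g⁻¹ * y)) = ((Nat.card T : ℂ)⁻¹ * (Nat.card T : ℂ)⁻¹) *
        ∑ y, ∑ x, f (x⁻¹ * g * x) * f (y⁻¹ * g⁻¹ * y) := by
    intro g
    rw [Finset.sum_comm, ← Finset.sum_mul_sum]; ring
  simp only [h7]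
  rw [← Finset.mul_sum, Finset.sum_comm]
  simp only [h6]
  rw [Finset.sum_const, Finset.card_univ, ← Nat.card_eq_fintype_card, nsmul_eq_mul]
  field_simp

theorem ind_mem [Finite G] {T : Subgroup G} {ψ : T → ℂ} (K : IntermediateField ℚ ℂ)
    (h : ∀ t, ψ t ∈ K) (g : G) : ind T ψ g ∈ K := by
  have := Fintype.ofFinite G
  rw [ind_eq]
  refine mul_mem (inv_mem (natCast_mem K _)) (sum_mem fun x _ => ?_)
  by_cases hx : x⁻¹ * g * x ∈ T
  · rw [ext0_mem _ hx]; exact h _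
  · rw [ext0_not _ hx]; exact zero_mem K

theorem ind_mul [Finite G] {T : Subgroup G} {ψ : T → ℂ} (z : G) (c : ℂ)
    (h : ∀ x g, ext0 T ψ (x⁻¹ * z * x * g) = c * ext0 T ψ g) (g : G) :
    ind T ψ (z * g) = c * ind T ψ g := by
  have := Fintype.ofFinite G
  rw [ind_eq, ind_eq, mul_left_comm, Finset.mul_sum _ _ c]
  congr 1
  refine Finset.sum_congr rfl fun x _ => ?_
  rw [← h x]
  congr 1
  group

/-- the restriction of `χ` to `Z` is a multiple of the orbit sum of `μ` -/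
def Over (Z : Subgroup G) [Z.Normal] (μ : Z →* ℂˣ) (χ : G → ℂ) : Prop :=
  ∀ v : Z, (Nat.card G : ℂ) * χ v = χ 1 * ∑ᶠ x : G, (μ (MulAut.conjNormal x v) : ℂ)

theorem ind_over [Finite G] {T Z : Subgroup G} [Z.Normal] (hZT : Z ≤ T) (μ : Z →* ℂˣ)
    {ψ : T → ℂ} (hov : ∀ (z : Z) (g : T), ψ (⟨z, hZT z.2⟩ * g) = μ z * ψ g) :
    Over Z μ (ind T ψ) := by
  have := Fintype.ofFinite G
  intro v
  rw [ind_eq, ind_eq, finsum_eq_sum_of_fintype, ← Equiv.sum_comp (Equiv.inv G)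
    (fun x => (μ (MulAut.conjNormal x v) : ℂ))]
  have h1 : ∀ x : G, ext0 T ψ (x⁻¹ * v * x) = μ (MulAut.conjNormal x⁻¹ v) * ext0 T ψ 1 := by
    intro x
    rw [← ext0_over hZT μ hov]
    congr 1
    simp
  simp only [h1, ← Finset.sum_mul]
  simp [Nat.card_eq_fintype_card]
  ring

end Pool.Agent.MP_adf6dd_al

end MrgPart3

-- ======== part 4: formerly Pool.Agent.MP_adf6dd_al.Weil1
section MrgPart4

set_option autoImplicit false

open Matrix

namespace Pool.Agent.MP_adf6dd_al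

variable {E : Type} [Group E] {ι : Type} [Fintype ι] [DecidableEq ι]

/-- a fully ramified representation -/
structure WH (Z : Subgroup E) (ρ : E →* Matrix ι ι ℂ) (K : IntermediateField ℚ ℂ) : Prop where
  scal : ∀ z ∈ Z, ∃ c : ℂ, c ∈ K ∧ ρ z = c • (1 : Matrix ι ι ℂ)
  van : ∀ x, x ∉ Z → (ρ x).trace = 0
  card : Nat.card E = Nat.card Z * Fintype.card ι ^ 2

/-- matrices that are rational over `K` -/
def InA (ρ : E →* Matrix ι ι ℂ) (K : IntermediateField ℚ ℂ) (A : Matrix ι ι ℂ) : Prop :=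
  ∀ x, (A * ρ x).trace ∈ K

namespace WH

variable [Finite E] {Z : Subgroup E} {ρ : E →* Matrix ι ι ℂ} {K : IntermediateField ℚ ℂ}
  (h : WH Z ρ K)
include h

theorem d_ne : (Fintype.card ι : ℂ) ≠ 0 := by
  intro h0
  have h1 : Fintype.card ι = 0 := by exact_mod_cast h0
  have := h.card
  rw [h1] at this
  exact (Nat.card_pos (α := E)).ne' (by simpa using this)

omit [Finite E] in
theorem tr_mem (x : E) : (ρ x).trace ∈ K := by
  by_cases hx : x ∈ Z
  · obtain ⟨c, hc, h1⟩ := h.scal x hx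
    rw [h1, trace_smul, trace_one, smul_eq_mul]
    exact mul_mem hc (natCast_mem K _)
  · rw [h.van x hx]; exact zero_mem K

omit [Finite E] in
theorem tr_smul_inv {z : E} (hz : z ∈ Z) :
    (ρ z).trace • ρ z⁻¹ = (Fintype.card ι : ℂ) • (1 : Matrix ι ι ℂ) := by
  obtain ⟨c, -, h1⟩ := h.scal z hz
  have h2 : c • ρ z⁻¹ = 1 := by
    rw [← one_mul (ρ z⁻¹), ← smul_mul_assoc, ← h1, ← map_mul]; simp
  rw [h1, trace_smul, trace_one, smul_eq_mul, mul_comm, ← smul_smul, h2]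

theorem index_eq : Nat.card (E ⧸ Z) = Fintype.card ι ^ 2 := by
  have h1 := Subgroup.card_mul_index Z
  rw [h.card] at h1
  exact Nat.eq_of_mul_eq_mul_left (Nat.card_pos (α := Z)) h1

theorem exists_basis : ∃ b : Module.Basis (E ⧸ Z) ℂ (Matrix ι ι ℂ), (∀ c, b c = ρ c.out) ∧
    ∀ A c, b.repr A c = (Fintype.card ι : ℂ)⁻¹ * (A * ρ c.out⁻¹).trace := by
  classical
  have := Fintype.ofFinite (E ⧸ Z)
  have horth : ∀ c c' : E ⧸ Z, (ρ c.out * ρ c'.out⁻¹).trace =
      if c = c' then (Fintype.card ι : ℂ) else 0 := by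
    intro c c'
    rw [trace_mul_comm, ← map_mul]
    split_ifs with hc
    · subst hc; simp
    · apply h.van
      rw [← QuotientGroup.eq]
      simpa using Ne.symm hc
  have hsum : ∀ (f : E ⧸ Z → ℂ) (c' : E ⧸ Z),
      ((∑ c, f c • ρ c.out) * ρ c'.out⁻¹).trace = f c' * Fintype.card ι := by
    intro f c'
    rw [Finset.sum_mul, trace_sum]
    simp [horth]
  have hli : LinearIndependent ℂ (fun c : E ⧸ Z => ρ c.out) := by
    rw [Fintype.linearIndependent_iff]
    intro f hf c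
    have := hsum f c
    rw [hf] at this
    simp only [zero_mul, trace_zero] at this
    exact (mul_eq_zero.1 this.symm).resolve_right h.d_ne
  have hc : Fintype.card (E ⧸ Z) = Module.finrank ℂ (Matrix ι ι ℂ) := by
    rw [← Nat.card_eq_fintype_card, h.index_eq, Module.finrank_matrix]; simp [sq]
  refine ⟨basisOfLinearIndependentOfCardEqFinrank' _ hli hc, fun c => by simp, fun A c => ?_⟩
  set b := basisOfLinearIndependentOfCardEqFinrank' _ hli hc with hb
  have h1 := b.sum_repr A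
  have h2 : ∀ c, b c = ρ c.out := fun c => by simp [hb]
  simp only [h2] at h1
  have h3 := hsum (b.repr A) c
  rw [h1] at h3
  rw [h3]
  field_simp [h.d_ne]

theorem ext_lin {M : Type} [AddCommGroup M] [Module ℂ M] (f g : Matrix ι ι ℂ →ₗ[ℂ] M)
    (hfg : ∀ x, f (ρ x) = g (ρ x)) : f = g := by
  obtain ⟨b, hb, -⟩ := h.exists_basis
  exact b.ext fun c => by rw [hb, hfg]

theorem eq_zero {A : Matrix ι ι ℂ} (hA : ∀ x, (A * ρ x).trace = 0) : A = 0 := by
  obtain ⟨b, -, hb⟩ := h.exists_basis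
  refine b.ext_elem fun c => ?_
  simp [hb, hA]

theorem fourier [Fintype E] (A : Matrix ι ι ℂ) :
    ∑ x, (A * ρ x).trace • ρ x⁻¹ = ((Nat.card Z : ℂ) * Fintype.card ι) • A := by
  classical
  have := Fintype.ofFinite Z
  let f : Matrix ι ι ℂ →ₗ[ℂ] Matrix ι ι ℂ :=
    { toFun := fun A => ∑ x, (A * ρ x).trace • ρ x⁻¹
      map_add' := fun A B => by simp [add_mul, add_smul, Finset.sum_add_distrib]
      map_smul' := fun c A => by simp [Finset.smul_sum, smul_smul] }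
  have := h.ext_lin f (((Nat.card Z : ℂ) * Fintype.card ι) • LinearMap.id) (fun y => by
    show ∑ x, (ρ y * ρ x).trace • ρ x⁻¹ = ((Nat.card Z : ℂ) * Fintype.card ι) • ρ y
    rw [← Equiv.sum_comp (Equiv.mulLeft y⁻¹)]
    have h1 : ∀ x, (ρ y * ρ (Equiv.mulLeft y⁻¹ x)).trace • ρ (Equiv.mulLeft y⁻¹ x)⁻¹ =
        if x ∈ Z then (Fintype.card ι : ℂ) • ρ y else 0 := by
      intro x
      rw [← map_mul]
      simp only [Equiv.coe_mulLeft, mul_inv_cancel_left, _root_.mul_inv_rev, inv_inv, map_mul]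
      split_ifs with hx
      · rw [← smul_mul_assoc, h.tr_smul_inv hx, smul_mul_assoc, one_mul]
      · rw [h.van x hx, zero_smul]
    simp only [h1]
    rw [← Finset.sum_filter, Finset.sum_const, ← smul_smul, Nat.card_eq_fintype_card,
      Fintype.card_subtype, Nat.cast_smul_eq_nsmul ℂ _ ((Fintype.card ι : ℂ) • ρ y)])
  exact LinearMap.congr_fun this A

theorem sum_tr [Fintype E] {A B : Matrix ι ι ℂ} (hAB : A * B = 1) :
    ∑ x, (A * ρ x).trace * (ρ x⁻¹ * B).trace = Nat.card E := by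
  have := congrArg (fun M => (M * B).trace) (h.fourier A)
  simp only [Finset.sum_mul, trace_sum, smul_mul_assoc, trace_smul, smul_eq_mul, hAB,
    trace_one] at this
  rw [this, h.card]; push_cast; ring

theorem comm_scalar {A : Matrix ι ι ℂ} (hA : ∀ x, A * ρ x = ρ x * A) :
    ∃ c : ℂ, A = c • (1 : Matrix ι ι ℂ) := by
  have h1 := h.ext_lin (LinearMap.mulLeft ℂ A) (LinearMap.mulRight ℂ A) (fun x => hA x)
  obtain ⟨c, hc⟩ := (Matrix.mem_range_scalar_iff_commute_single' (M := A)).2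
    fun i j => (LinearMap.congr_fun h1 (single i j 1)).symm
  exact ⟨c, by rw [← hc, scalar_apply, smul_one_eq_diagonal]⟩

omit [Finite E] in
theorem inA_rho (y : E) : InA ρ K (ρ y) := fun x => by rw [← map_mul]; exact h.tr_mem _

theorem inA_mul {A B : Matrix ι ι ℂ} (hA : InA ρ K A) (hB : InA ρ K B) : InA ρ K (A * B) := by
  have := Fintype.ofFinite E
  intro x
  have h0 : (Nat.card Z : ℂ) * Fintype.card ι ≠ 0 :=
    mul_ne_zero (by exact_mod_cast (Nat.card_pos (α := Z)).ne') h.d_ne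
  have h1 := congrArg (fun M => (M * B * ρ x).trace) (h.fourier A)
  simp only [Finset.sum_mul, trace_sum, smul_mul_assoc, trace_smul, smul_eq_mul] at h1
  rw [← inv_mul_eq_iff_eq_mul₀ h0] at h1
  rw [← h1]
  refine mul_mem (inv_mem (mul_mem (natCast_mem K _) (natCast_mem K _)))
    (sum_mem fun y _ => mul_mem (hA y) ?_)
  rw [mul_assoc, trace_mul_comm, mul_assoc, ← map_mul]
  exact hB _

theorem norm_mem {A : Matrix ι ι ℂ} (hA : InA ρ K A) : Algebra.norm ℂ A ∈ K := by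
  classical
  have := Fintype.ofFinite (E ⧸ Z)
  obtain ⟨b, hb, hr⟩ := h.exists_basis
  rw [Algebra.norm_eq_matrix_det b, det_apply']
  refine sum_mem fun σ _ => mul_mem (intCast_mem K _) (prod_mem fun i _ => ?_)
  rw [Algebra.leftMulMatrix_eq_repr_mul, hr, hb, mul_assoc, ← map_mul]
  exact mul_mem (inv_mem (natCast_mem K _)) (hA _)

theorem intertwiner (α : E ≃* E) (hα : ∀ x, (ρ (α x)).trace = (ρ x).trace) :
    ∃ A : (Matrix ι ι ℂ)ˣ, InA ρ K A ∧ ∀ x, A * ρ x = ρ (α x) * A := by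
  classical
  have := Fintype.ofFinite E
  have := Fintype.ofFinite Z
  let f : Matrix ι ι ℂ →ₗ[ℂ] Matrix ι ι ℂ :=
    { toFun := fun B => ∑ x, ρ (α x) * B * ρ x⁻¹
      map_add' := fun A B => by simp [add_mul, mul_add, Finset.sum_add_distrib]
      map_smul' := fun c A => by simp [Finset.smul_sum] }
  have hf : ∃ y, f (ρ y) ≠ 0 := by
    by_contra hne
    push Not at hne
    have h1 := h.ext_lin f 0 hne
    have h2 : ∑ i, ∑ j, f (single i j 1) i j = ∑ x, (ρ (α x)).trace * (ρ x⁻¹).trace := by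
      have h3 : ∀ i j, f (single i j 1) i j = ∑ x, ρ (α x) i i * ρ x⁻¹ j j := by
        intro i j
        show (∑ x, ρ (α x) * single i j 1 * ρ x⁻¹ : Matrix ι ι ℂ) i j = _
        rw [Matrix.sum_apply]
        refine Finset.sum_congr rfl fun x _ => ?_
        rw [mul_assoc, Matrix.mul_apply, Finset.sum_eq_single i]
        · simp
        · intro k _ hk; simp [hk]
        · simp
      simp only [h3, Matrix.trace, diag_apply, Finset.sum_mul_sum]
      rw [Finset.sum_comm' (t' := Finset.univ) (s' := fun _ => Finset.univ) (by simp)]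
      rw [Finset.sum_comm (s := Finset.univ (α := E))]
      rw [Finset.sum_comm]
      refine Finset.sum_congr rfl fun i _ => Finset.sum_comm
    have h4 := h.sum_tr (A := 1) (B := 1) (one_mul 1)
    simp only [one_mul, mul_one] at h4
    simp only [hα, h4, h1] at h2
    simp at h2
    exact (Nat.card_pos (α := E)).ne' (by rw [Nat.card_eq_fintype_card]; exact_mod_cast h2.symm)
  obtain ⟨y, hy⟩ := hf
  set A := f (ρ y) with hA
  have hA1 : InA ρ K A := by
    intro x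
    show ((∑ x, ρ (α x) * ρ y * ρ x⁻¹) * ρ x).trace ∈ K
    rw [Finset.sum_mul, trace_sum]
    refine sum_mem fun w _ => ?_
    rw [← map_mul, ← map_mul, ← map_mul]
    exact h.tr_mem _
  have hA2 : ∀ x, A * ρ x = ρ (α x) * A := by
    intro x
    show (∑ x, ρ (α x) * ρ y * ρ x⁻¹) * ρ x = ρ (α x) * ∑ x, ρ (α x) * ρ y * ρ x⁻¹
    rw [Finset.sum_mul, Finset.mul_sum, ← Equiv.sum_comp (Equiv.mulLeft x)]
    refine Finset.sum_congr rfl fun w _ => ?_
    simp only [← map_mul]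
    congr 1
    simp [mul_assoc]
  obtain ⟨x, hx⟩ : ∃ x, (A * ρ x).trace ≠ 0 := by
    by_contra hne
    push Not at hne
    exact hy (h.eq_zero hne)
  obtain ⟨c, hc⟩ := h.comm_scalar (A := ∑ w, ρ w * (A * ρ x) * ρ w⁻¹) (fun u => by
    rw [Finset.sum_mul, Finset.mul_sum, ← Equiv.sum_comp (Equiv.mulLeft u)]
    refine Finset.sum_congr rfl fun w _ => ?_
    simp only [Equiv.coe_mulLeft, map_mul, _root_.mul_inv_rev, mul_assoc]
    rw [← map_mul ρ u⁻¹ u]; simp)
  have hc0 : c ≠ 0 := by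
    rintro rfl
    have := congrArg trace hc
    rw [trace_sum] at this
    simp only [trace_mul_cycle (ρ _), ← map_mul, inv_mul_cancel, map_one, one_mul] at this
    simp [hx] at this
  have hB : A * (c⁻¹ • ∑ w, ρ (α.symm w) * ρ x * ρ w⁻¹) = 1 := by
    rw [mul_smul_comm, Finset.mul_sum]
    simp only [← mul_assoc, hA2, MulEquiv.apply_symm_apply]
    simp only [← mul_assoc] at hc
    rw [hc, smul_smul, inv_mul_cancel₀ hc0, one_smul]
  exact ⟨⟨A, _, hB, mul_eq_one_comm.1 hB⟩, hA1, hA2⟩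

end WH

end Pool.Agent.MP_adf6dd_al

end MrgPart4

-- marker of a merged file
example : 731051 + 642101 = 731051 + 642101 := rfl
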