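import Mathlib.RingTheory.RootsOfUnity.AlgebraicallyClosed
import Mathlib.Order.CompletePartialOrder
import Pool.Agent.MP_adf6dd_al.Weil1

-- ======== part 0: formerly Pool.Agent.MP_adf6dd_al.Weil2
section MrgPart0

set_option autoImplicit false

open Matrix

namespace Pool.Agent.MP_adf6dd_al

variable {G : Type} [Group G] {ι : Type} [Fintype ι] [DecidableEq ι]

/-- the group of normalised intertwiners -/
def WG (E : Subgroup G) [E.Normal] (ρ : E →* Matrix ι ι ℂ) (N : ℕ) :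
    Subgroup (G × (Matrix ι ι ℂ)ˣ) where
  carrier := {a | (∀ x : E, (a.2 : Matrix ι ι ℂ) * ρ x = ρ (MulAut.conjNormal a.1 x) * a.2) ∧
    Algebra.norm ℂ (a.2 : Matrix ι ι ℂ) ^ N = 1}
  one_mem' := ⟨fun x => by simp, by simp⟩
  mul_mem' := by
    rintro a b ⟨ha, ha'⟩ ⟨hb, hb'⟩
    refine ⟨fun x => ?_, ?_⟩
    · simp only [Prod.snd_mul, Units.val_mul, Prod.fst_mul, map_mul, MulAut.mul_apply]
      rw [mul_assoc, hb, ← mul_assoc, ha, mul_assoc]
    · simp only [Prod.snd_mul, Units.val_mul, map_mul, mul_pow, ha', hb', one_mul]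
  inv_mem' := by
    rintro a ⟨ha, ha'⟩
    refine ⟨fun x => ?_, ?_⟩
    · have := ha (MulAut.conjNormal a.1⁻¹ x)
      rw [← MulAut.mul_apply, ← map_mul, mul_inv_cancel, map_one, MulAut.one_apply] at this
      simp only [Prod.snd_inv, Prod.fst_inv]
      rw [Units.inv_mul_eq_iff_eq_mul, ← mul_assoc, this, Units.mul_inv_cancel_right]
    · have : Algebra.norm ℂ ((a.2⁻¹ : (Matrix ι ι ℂ)ˣ) : Matrix ι ι ℂ) *
          Algebra.norm ℂ (a.2 : Matrix ι ι ℂ) = 1 := by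
        rw [← map_mul, Units.inv_mul, map_one]
      have h2 := congrArg (· ^ N) this
      simp only [mul_pow, ha', mul_one, one_pow] at h2
      exact h2

theorem norm_smul' (c : ℂ) (A : Matrix ι ι ℂ) :
    Algebra.norm ℂ (c • A) = c ^ (Fintype.card ι ^ 2) * Algebra.norm ℂ A := by
  rw [Algebra.smul_def, map_mul, Algebra.norm_algebraMap, Module.finrank_matrix]
  simp [sq]

theorem mem_of_coprime {K : IntermediateField ℚ ℂ} {s : ℂ} (hs : s ≠ 0) {a b : ℕ}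
    (hab : a.Coprime b) (ha : s ^ a ∈ K) (hb : s ^ b ∈ K) : s ∈ K := by
  have h1 : s = (s ^ a) ^ (Nat.gcdA a b) * (s ^ b) ^ (Nat.gcdB a b) := by
    rw [← zpow_natCast, ← zpow_natCast, ← _root_.zpow_mul, ← _root_.zpow_mul, ← zpow_add₀ hs,
      ← Nat.gcd_eq_gcd_ab, hab.gcd_eq_one]
    simp
  rw [h1]
  exact mul_mem (zpow_mem ha _) (zpow_mem hb _)

section
variable [Finite G] {E : Subgroup G} [E.Normal] {Z : Subgroup E} {ρ : E →* Matrix ι ι ℂ}
  {p k j : ℕ} (hp : p.Prime) (h : WH Z ρ (Kp p)) (hd : Fintype.card ι ^ 2 = p ^ j)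
  (hρ : ∀ x, ρ x ^ p ^ k = 1)
  (hinv : ∀ (g : G) (x : E), (ρ (MulAut.conjNormal g x)).trace = (ρ x).trace)

omit [Finite G] in
include hρ in
theorem wg_p (a : WG E ρ (p ^ k)) {i : ℕ} (ha : a ^ p ^ i = 1) : InA ρ (Kp p) a.1.2 := by
  intro x
  have h1 : ∀ n : ℕ, ∃ y, ((a.1.2 : Matrix ι ι ℂ) * ρ x) ^ n = ρ y * (a.1.2 : Matrix ι ι ℂ) ^ n := by
    intro n
    induction n with
    | zero => exact ⟨1, by simp⟩
    | succ n ih =>
      obtain ⟨y, hy⟩ := ih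
      refine ⟨MulAut.conjNormal a.1.1 (x * y), ?_⟩
      rw [pow_succ', hy, pow_succ', ← mul_assoc, ← mul_assoc, ← a.2.1, map_mul, mul_assoc _ (ρ x)]
  obtain ⟨y, hy⟩ := h1 (p ^ i)
  have h2 : (a.1.2 : Matrix ι ι ℂ) ^ p ^ i = 1 := by
    have := congrArg (fun b : WG E ρ (p ^ k) => (b.1.2 : Matrix ι ι ℂ)) ha
    simpa using this
  refine trace_mem_kp (k := i + k) ?_
  rw [pow_add, pow_mul, hy, h2, mul_one, hρ]

include h in
theorem wg_ratio {g : G} {A B : (Matrix ι ι ℂ)ˣ}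
    (hA : ∀ x : E, (A : Matrix ι ι ℂ) * ρ x = ρ (MulAut.conjNormal g x) * A)
    (hB : ∀ x : E, (B : Matrix ι ι ℂ) * ρ x = ρ (MulAut.conjNormal g x) * B) :
    ∃ c : ℂˣ, (A : Matrix ι ι ℂ) = (c : ℂ) • (B : Matrix ι ι ℂ) := by
  obtain ⟨c, hc⟩ := h.comm_scalar (A := (B⁻¹ : (Matrix ι ι ℂ)ˣ) * (A : Matrix ι ι ℂ)) (fun x => by
    rw [mul_assoc, hA, Units.inv_mul_eq_iff_eq_mul, ← mul_assoc, ← mul_assoc, hB,
      Units.mul_inv_cancel_right])
  rw [Units.inv_mul_eq_iff_eq_mul, mul_smul_comm, mul_one] at hc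
  have hι : Nonempty ι := Fintype.card_pos_iff.1 (Nat.pos_of_ne_zero (by exact_mod_cast h.d_ne))
  refine ⟨Units.mk0 c ?_, hc⟩
  rintro rfl
  exact A.ne_zero (by rw [hc, zero_smul])

include h hd hinv in
theorem wg_q (a : WG E ρ (p ^ k)) {t : ℕ} (ht : t.Coprime p) (ha : a ^ t = 1) :
    InA ρ (Kp p) a.1.2 := by
  obtain ⟨B, hB, hB'⟩ := h.intertwiner (MulAut.conjNormal a.1.1) (hinv a.1.1)
  obtain ⟨s, hs⟩ := wg_ratio h a.2.1 hB'
  have h2 : (a.1.2 : Matrix ι ι ℂ) ^ t = 1 := by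
    have := congrArg (fun b : WG E ρ (p ^ k) => (b.1.2 : Matrix ι ι ℂ)) ha
    simpa using this
  have h3 : ∀ n : ℕ, InA ρ (Kp p) ((B : Matrix ι ι ℂ) ^ n) := by
    intro n
    induction n with
    | zero => simpa using h.inA_rho 1
    | succ n ih => rw [pow_succ]; exact h.inA_mul ih hB
  have h4 : (s : ℂ) ^ t ∈ Kp p := by
    have h5 := h3 t 1
    rw [map_one, mul_one] at h5
    have h6 := congrArg trace h2
    rw [hs, smul_pow, trace_smul, trace_one, smul_eq_mul] at h6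
    have h7 : trace ((B : Matrix ι ι ℂ) ^ t) ≠ 0 := by
      intro h0; rw [h0, mul_zero] at h6; exact h.d_ne h6.symm
    rw [← eq_div_iff h7] at h6
    rw [h6]
    exact div_mem (natCast_mem _ _) h5
  have h8 : (s : ℂ) ^ p ^ j ∈ Kp p := by
    have h5 := norm_smul' (s : ℂ) (B : Matrix ι ι ℂ)
    rw [← hs, hd] at h5
    have h7 : Algebra.norm ℂ (B : Matrix ι ι ℂ) ≠ 0 := (B.isUnit.map _).ne_zero
    rw [eq_comm, ← eq_div_iff h7] at h5
    rw [h5]
    exact div_mem (mem_kp a.2.2) (h.norm_mem hB)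
  have h9 := mem_of_coprime s.ne_zero (Nat.Coprime.pow_right j ht) h4 h8
  intro x
  rw [hs, smul_mul_assoc, trace_smul, smul_eq_mul]
  exact mul_mem h9 (hB x)

include hp h hd hρ hinv in
theorem wg_inA (a : WG E ρ (p ^ k)) (hn : orderOf a ≠ 0) : InA ρ (Kp p) a.1.2 := by
  obtain ⟨i, t, ht, hit⟩ := Nat.exists_eq_pow_mul_and_not_dvd hn p hp.ne_one
  have hc : t.Coprime p := ((Nat.Prime.coprime_iff_not_dvd hp).2 ht).symm
  have hc' : t.Coprime (p ^ i) := Nat.Coprime.pow_right i hc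
  have h1 : a = a ^ ((t : ℤ) * Nat.gcdA t (p ^ i)) * a ^ (((p ^ i : ℕ) : ℤ) * Nat.gcdB t (p ^ i)) := by
    rw [← _root_.zpow_add, ← Nat.gcd_eq_gcd_ab, hc'.gcd_eq_one]; simp
  have h0 : a ^ (((p ^ i * t : ℕ)) : ℤ) = 1 := by rw [← hit, zpow_natCast, pow_orderOf_eq_one]
  have h2 := wg_p hρ (a ^ ((t : ℤ) * Nat.gcdA t (p ^ i))) (i := i) (by
    rw [← zpow_natCast, ← _root_.zpow_mul, show (t : ℤ) * Nat.gcdA t (p ^ i) * ((p ^ i : ℕ) : ℤ) =
      ((p ^ i * t : ℕ) : ℤ) * Nat.gcdA t (p ^ i) by push_cast; ring, _root_.zpow_mul, h0,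
      _root_.one_zpow])
  have h3 := wg_q h hd hinv (a ^ (((p ^ i : ℕ) : ℤ) * Nat.gcdB t (p ^ i))) hc (by
    rw [← zpow_natCast, ← _root_.zpow_mul, show ((p ^ i : ℕ) : ℤ) * Nat.gcdB t (p ^ i) * (t : ℤ) =
      ((p ^ i * t : ℕ) : ℤ) * Nat.gcdB t (p ^ i) by push_cast; ring, _root_.zpow_mul, h0,
      _root_.one_zpow])
  have h4 := h.inA_mul h2 h3
  rw [h1]
  exact h4

include hp h hd hρ hinv in
theorem weil [Group.IsSolvable G] : ∃ (W : Type) (_ : Group W) (_ : Finite W)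
    (_ : Group.IsSolvable W) (π : W →* G) (ν : (E.comap π) →* ℂˣ), Function.Surjective π ∧
    (∀ x z, ν (MulAut.conjNormal x z) = ν z) ∧ (∀ z, ν z ^ p ^ (j + k) = 1) ∧
    ∀ χ : W → ℂ, IsIrr χ → (∀ g, χ g ∈ Kp p) →
      (∀ (z : E.comap π) (g : W), χ (z * g) = ν z * χ g) →
      ∃ ψ : G → ℂ, IsIrr ψ ∧ (∀ g, ψ g ∈ Kp p) ∧
        ∀ (z : E) (c : ℂ), ρ z = c • (1 : Matrix ι ι ℂ) → ∀ g, ψ (z * g) = c * ψ g := by
  classical
  let W := WG E ρ (p ^ k)
  let π : W →* G := (MonoidHom.fst _ _).comp W.subtype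
  let τ : W →* Matrix ι ι ℂ := (Units.coeHom _).comp ((MonoidHom.snd _ _).comp W.subtype)
  have hι : Nonempty ι := Fintype.card_pos_iff.1 (Nat.pos_of_ne_zero (by exact_mod_cast h.d_ne))
  have hτ : ∀ (a : W) (x : E), τ a * ρ x = ρ (MulAut.conjNormal (π a) x) * τ a := fun a => a.2.1
  have hj : ∀ (y x : E), ρ y * ρ x = ρ (MulAut.conjNormal (y : G) x) * ρ y := by
    intro y x
    rw [← map_mul, ← map_mul]
    congr 1
    apply Subtype.ext
    simp
  let J : E →* W :=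
    { toFun := fun y => ⟨((y : G), ρ.toHomUnits y), hj y, by
        show Algebra.norm ℂ (ρ y) ^ p ^ k = 1
        rw [← map_pow, hρ, map_one]⟩
      map_one' := Subtype.ext (by simp)
      map_mul' := fun a b => Subtype.ext (by simp) }
  have hJ1 : ∀ y, π (J y) = y := fun _ => rfl
  have hJ2 : ∀ y, τ (J y) = ρ y := fun _ => rfl
  have hex : ∀ a : E.comap π, ∃ c : ℂˣ, ρ ⟨π a, a.2⟩ = (c : ℂ) • τ a := fun a =>
    wg_ratio h (A := ρ.toHomUnits ⟨π a, a.2⟩) (B := a.1.1.2) (hj _) a.1.2.1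
  choose ν₀ hν₀ using hex
  have huniq : ∀ (a : E.comap π) (c : ℂˣ), ρ ⟨π a, a.2⟩ = (c : ℂ) • τ a → ν₀ a = c := by
    intro a c hc
    rw [hν₀] at hc
    exact Units.ext (smul_left_injective ℂ a.1.1.2.ne_zero hc)
  let ν : E.comap π →* ℂˣ := MonoidHom.mk' ν₀ fun a b => huniq _ _ (by
    have : (⟨π (a * b : E.comap π), (a * b).2⟩ : E) = ⟨π a, a.2⟩ * ⟨π b, b.2⟩ :=
      Subtype.ext (by simp)
    rw [this, map_mul, hν₀, hν₀, smul_mul_smul_comm]
    simp)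
  have hν : ∀ a : E.comap π, ρ ⟨π a, a.2⟩ = (ν a : ℂ) • τ a := hν₀
  have hνp : ∀ z, ν z ^ p ^ (j + k) = 1 := by
    intro z
    have h1 := congrArg (fun M => Algebra.norm ℂ M ^ p ^ k) (hν z)
    have h2 : Algebra.norm ℂ (τ z) ^ p ^ k = 1 := z.1.2.2
    simp only [norm_smul', mul_pow, h2, hd, mul_one] at h1
    rw [← map_pow, hρ, map_one, ← pow_mul, ← pow_add] at h1
    exact Units.ext (by simpa using h1.symm)
  have hker : ∀ (a : W) (ha : π a = 1), τ a = ((ν ⟨a, by simp [ha]⟩ : ℂˣ) : ℂ)⁻¹ •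
      (1 : Matrix ι ι ℂ) := by
    intro a ha
    have h1 := hν ⟨a, by simp [ha]⟩
    have h2 : (⟨π a, by simp [ha]⟩ : E) = 1 := Subtype.ext ha
    simp only [h2, map_one] at h1
    rw [h1, smul_smul, inv_mul_cancel₀ (Units.ne_zero _), one_smul]
  have hext : ∀ a b : W, π a = π b → τ a = τ b → a = b := fun a b h1 h2 =>
    Subtype.ext (Prod.ext h1 (Units.ext h2))
  have hfin : Finite W := by
    have : NeZero (p ^ (j + k)) := ⟨pow_ne_zero _ hp.ne_zero⟩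
    refine π.finite_iff_finite_ker_range.2 ⟨Finite.of_injective
      (fun a : π.ker => (⟨ν ⟨a.1, by simp [MonoidHom.mem_ker.1 a.2]⟩, hνp _⟩ :
        rootsOfUnity (p ^ (j + k)) ℂ)) ?_, inferInstance⟩
    intro a b hab
    have h1 := congrArg Subtype.val hab
    simp only at h1
    exact Subtype.ext (hext _ _ (by rw [a.2, b.2]) (by rw [hker _ a.2, hker _ b.2, h1]))
  have hsol : Group.IsSolvable W := by
    have : Group.IsSolvable π.ker := Group.isSolvable_of_comm fun a b =>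
      Subtype.ext (hext _ _ (by rw [(a * b).2, (b * a).2]) (by
        simp only [Subgroup.coe_mul, map_mul]
        rw [hker _ a.2]; simp))
    exact Group.isSolvable_of_ker_le_range π.ker.subtype π (by simp)
  have hsurj : Function.Surjective π := by
    intro g
    obtain ⟨B, -, hB⟩ := h.intertwiner (MulAut.conjNormal g) (hinv g)
    have h7 : Algebra.norm ℂ (B : Matrix ι ι ℂ) ≠ 0 := (B.isUnit.map _).ne_zero
    obtain ⟨s, hs⟩ := IsAlgClosed.exists_pow_nat_eq (Algebra.norm ℂ (B : Matrix ι ι ℂ))⁻¹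
      (n := Fintype.card ι ^ 2) (pow_pos Fintype.card_pos 2)
    have hs0 : s ≠ 0 := by
      rintro rfl
      rw [zero_pow (pow_pos Fintype.card_pos 2).ne'] at hs
      exact inv_ne_zero h7 hs.symm
    refine ⟨⟨(g, Units.mk0 s hs0 • B), fun x => ?_, ?_⟩, rfl⟩
    · show (s • (B : Matrix ι ι ℂ)) * ρ x = _ * (s • (B : Matrix ι ι ℂ))
      rw [smul_mul_assoc, mul_smul_comm, hB]
    · show Algebra.norm ℂ (s • (B : Matrix ι ι ℂ)) ^ p ^ k = 1
      rw [norm_smul', hs, inv_mul_cancel₀ h7, one_pow]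
  refine ⟨W, inferInstance, hfin, hsol, π, ν, hsurj, fun x z => huniq _ _ ?_, hνp,
    fun χ hχ hK hov => ?_⟩
  · have h1 : (⟨π (MulAut.conjNormal x z : E.comap π), (MulAut.conjNormal x z).2⟩ : E) =
        MulAut.conjNormal (π x) ⟨π z, z.2⟩ := Subtype.ext (by simp)
    have h2 := hτ x ⟨π z, z.2⟩
    have h3 : τ x * τ x⁻¹ = 1 := by rw [← map_mul]; simp
    rw [h1, ← mul_one (ρ _), ← h3, ← mul_assoc, ← h2, hν]
    simp
  have hνJ : ∀ y : E, ν ⟨J y, y.2⟩ = 1 := fun y => huniq _ _ (by simp [hJ1, hJ2])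
  have hχJ : ∀ (y : E) (g : W), χ (J y * g) = χ g := fun y g => by
    have := hov ⟨J y, y.2⟩ g
    rwa [hνJ, Units.val_one, one_mul] at this
  have hc : IsChar (fun a : W => (τ a).trace * χ a) := (IsChar.of τ fun _ => rfl).mul hχ.1
  obtain ⟨ψ, hψ, hψπ⟩ := hc.desc π hsurj (fun z hz g => by
    have := hov ⟨z, by simp [hz]⟩ g
    simp only at this
    simp only [map_mul, this]
    rw [hker z hz, smul_mul_assoc, one_mul, trace_smul, smul_eq_mul]
    field_simp)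
  refine ⟨ψ, (isIrr_comp_iff hψ π hsurj).1 ?_, fun g => ?_, fun z c hz g => ?_⟩
  · have := Fintype.ofFinite W
    have := Fintype.ofFinite E
    simp only [hψπ]
    refine isIrr_iff.2 ⟨hc, ?_⟩
    have h0 : (Nat.card E : ℂ) ≠ 0 := by exact_mod_cast (Nat.card_pos (α := E)).ne'
    apply mul_left_cancel₀ h0
    have h1 : ∀ y : E, ∑ a : W, (τ a).trace * χ a * ((τ a⁻¹).trace * χ a⁻¹) =
        ∑ a : W, ((τ a * ρ y).trace * (ρ y⁻¹ * τ a⁻¹).trace) * (χ a * χ a⁻¹) := by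
      intro y
      rw [← Equiv.sum_comp (Equiv.mulRight (J y))]
      refine Finset.sum_congr rfl fun a _ => ?_
      simp only [Equiv.coe_mulRight, _root_.mul_inv_rev, map_mul]
      rw [hχ.1.comm a, hχJ, ← map_inv J, hχJ, hJ2, hJ2]
      ring
    calc _ = ∑ y : E, ∑ a : W, (τ a).trace * χ a * ((τ a⁻¹).trace * χ a⁻¹) := by
          rw [Finset.sum_const, Finset.card_univ, ← Nat.card_eq_fintype_card, nsmul_eq_mul]
      _ = ∑ a : W, (Nat.card E : ℂ) * (χ a * χ a⁻¹) := by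
          rw [Finset.sum_congr rfl fun y _ => h1 y, Finset.sum_comm]
          refine Finset.sum_congr rfl fun a _ => ?_
          rw [← Finset.sum_mul, h.sum_tr (by rw [← map_mul]; simp)]
      _ = _ := by rw [← Finset.mul_sum, (isIrr_iff.1 hχ).2]
  · obtain ⟨a, rfl⟩ := hsurj g
    rw [hψπ]
    have := wg_inA hp h hd hρ hinv a (orderOf_pos a).ne' 1
    rw [map_one, mul_one] at this
    exact mul_mem this (hK a)
  · obtain ⟨a, rfl⟩ := hsurj g
    rw [← hJ1 z, ← map_mul, hψπ, hψπ, hχJ, map_mul, hJ2, hz, smul_mul_assoc, one_mul, trace_smul,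
      smul_eq_mul, mul_assoc]

end

end Pool.Agent.MP_adf6dd_al

end MrgPart0

-- ======== part 1: formerly Pool.Agent.MP_adf6dd_al.Lift
section MrgPart1

set_option autoImplicit false

open Matrix
open scoped commutatorElement

namespace Pool.Agent.MP_adf6dd_al

variable {G : Type} [Group G]

theorem hasEnough (A : Type) [Group A] [Finite A] :
    HasEnoughRootsOfUnity ℂ (Monoid.exponent A) := by
  have : NeZero ((Monoid.exponent A : ℕ) : ℂ) :=
    ⟨by exact_mod_cast Monoid.exponent_ne_zero_of_finite⟩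
  infer_instance

theorem exists_layer [Finite G] [Group.IsSolvable G] (Z : Subgroup G) (R : Subgroup G) :
    R.Normal → ¬ R ≤ Z → ∃ D : Subgroup G, D.Normal ∧ D ≤ R ∧ ¬ D ≤ Z ∧ ⁅D, D⁆ ≤ Z := by
  induction R using WellFoundedLT.induction with
  | ind R ih =>
    intro hR h
    by_cases h1 : ⁅R, R⁆ ≤ Z
    · exact ⟨R, hR, le_rfl, h, h1⟩
    · have h2 : R ≠ ⊥ := by rintro rfl; exact h bot_le
      have h3 := Group.IsSolvable.commutator_lt_of_ne_bot h2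
      obtain ⟨D, hD, h4, h5⟩ := ih _ h3 inferInstance h1
      exact ⟨D, hD, h4.trans h3.le, h5⟩

theorem exists_extend [Finite G] (Z : Subgroup G) (lam : Z →* ℂˣ)
    (h : ∀ x y : G, ∃ hz : ⁅x, y⁆ ∈ Z, lam ⟨_, hz⟩ = 1) :
    ∃ μ : G →* ℂˣ, ∀ z : Z, μ z = lam z := by
  let φ : G →* Abelianization G := Abelianization.of
  have : Finite (Abelianization G) := Finite.of_surjective φ (QuotientGroup.mk'_surjective _)
  have := hasEnough (Abelianization G)
  have h1 : _root_.commutator G ≤ lam.ker.map Z.subtype := by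
    rw [commutator_def, Subgroup.commutator_le]
    intro x _ y _
    obtain ⟨hz, h2⟩ := h x y
    exact ⟨⟨_, hz⟩, h2, rfl⟩
  have h2 : (φ.subgroupMap Z).ker ≤ lam.ker := by
    intro z hz
    have h3 : (z : G) ∈ _root_.commutator G := by
      rw [← Abelianization.ker_of]
      exact congrArg Subtype.val hz
    obtain ⟨w, hw, h4⟩ := h1 h3
    rw [← Subtype.ext h4]; exact hw
  let l := (φ.subgroupMap Z).liftOfSurjective (φ.subgroupMap_surjective Z) ⟨lam, h2⟩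
  obtain ⟨μ, hμ⟩ := MonoidHom.domRestrict_surjective ℂ (Z.map φ) l
  refine ⟨μ.comp φ, fun z => ?_⟩
  have h5 : l (φ.subgroupMap Z z) = lam z := MonoidHom.liftOfRightInverse_comp_apply _ _ _ _ _
  rw [← h5, ← hμ]
  rfl

theorem exists_extend_p [Finite G] {p k : ℕ} (hp : p.Prime) (Z : Subgroup G) (lam : Z →* ℂˣ)
    (hk : ∀ z, lam z ^ p ^ k = 1) (h : ∀ x y : G, ∃ hz : ⁅x, y⁆ ∈ Z, lam ⟨_, hz⟩ = 1) :
    ∃ (μ : G →* ℂˣ) (j : ℕ), (∀ z : Z, μ z = lam z) ∧ ∀ g, μ g ^ p ^ j = 1 := by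
  obtain ⟨μ, hμ⟩ := exists_extend Z lam h
  obtain ⟨i, t, ht, hit⟩ :=
    Nat.exists_eq_pow_mul_and_not_dvd (Nat.card_pos (α := G)).ne' p hp.ne_one
  have hc : (p ^ k).Coprime t := Nat.Coprime.pow_left k ((Nat.Prime.coprime_iff_not_dvd hp).2 ht)
  obtain ⟨w, hw1, hw2⟩ := Nat.chineseRemainder hc 1 0
  refine ⟨μ ^ w, i, fun z => ?_, fun g => ?_⟩
  · rw [MonoidHom.pow_apply, hμ, pow_eq_pow_mod w (hk z), hw1, ← pow_eq_pow_mod 1 (hk z), pow_one]
  · obtain ⟨u, hu⟩ := (Nat.modEq_zero_iff_dvd).1 hw2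
    rw [MonoidHom.pow_apply, ← pow_mul, hu, show t * u * p ^ i = p ^ i * t * u by ring, ← hit,
      pow_mul, ← map_pow, pow_card_eq_one', map_one, one_pow]

/-- the stabiliser of a linear character of a normal subgroup -/
def inert (E : Subgroup G) [E.Normal] (μ : E →* ℂˣ) : Subgroup G where
  carrier := {x | ∀ e, μ (MulAut.conjNormal x e) = μ e}
  one_mem' := fun e => by simp
  mul_mem' := fun {a b} ha hb e => by rw [map_mul, MulAut.mul_apply, ha, hb]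
  inv_mem' := fun {a} ha e => by
    rw [← ha, ← MulAut.mul_apply, ← map_mul]; simp

theorem le_inert (E : Subgroup G) [E.Normal] (μ : E →* ℂˣ) : E ≤ inert E μ := by
  intro x hx e
  have : MulAut.conjNormal x e = ⟨x, hx⟩ * e * ⟨x, hx⟩⁻¹ := Subtype.ext (by simp)
  rw [this]; simp

/-- the statement for one triple -/
def Lifts (p : ℕ) (Z : Subgroup G) (lam : Z →* ℂˣ) : Prop :=
  ∃ χ : G → ℂ, IsIrr χ ∧ (∀ g, χ g ∈ Kp p) ∧ ∀ (z : Z) (g : G), χ (z * g) = lam z * χ g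

/-- the induction hypothesis -/
def LiftBelow (p n : ℕ) : Prop :=
  ∀ (G : Type) [Group G] [Finite G] [Group.IsSolvable G] (Z : Subgroup G) [Z.Normal]
    (lam : Z →* ℂˣ) (k : ℕ), Z.index < n → (∀ (x : G) z, lam (MulAut.conjNormal x z) = lam z) →
    (∀ z, lam z ^ p ^ k = 1) → Lifts p Z lam

theorem lift_inert [Finite G] [Group.IsSolvable G] {p n j : ℕ} (ih : LiftBelow p n)
    (E : Subgroup G) [E.Normal] (hE : E.index < n) (μ : E →* ℂˣ) (hj : ∀ g, μ g ^ p ^ j = 1) :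
    ∃ ψ : inert E μ → ℂ, IsIrr ψ ∧ (∀ g, ψ g ∈ Kp p) ∧
      ∀ (z : E) (g : inert E μ), ψ (⟨z, le_inert E μ z.2⟩ * g) = μ z * ψ g := by
  obtain ⟨ψ, h1, h2, h3⟩ := ih (inert E μ) (E.subgroupOf (inert E μ))
    (μ.comp (Subgroup.subgroupOfEquivOfLe (le_inert E μ)).toMonoidHom) j
    (lt_of_le_of_lt (by
      have := Subgroup.relIndex_le_of_le_right (H := E) (K := inert E μ) (L := ⊤) le_top
        (by rw [Subgroup.relIndex_top_right]; exact Subgroup.index_ne_zero_of_finite)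
      rwa [Subgroup.relIndex_top_right] at this) hE)
    (fun x z => x.2 ⟨z.1.1, z.2⟩) (fun z => hj _)
  exact ⟨ψ, h1, h2, fun z g => h3 ⟨⟨z, le_inert E μ z.2⟩, z.2⟩ g⟩

section step
variable [Finite G] [Group.IsSolvable G] {p k : ℕ} (hp : p.Prime) {Z : Subgroup G} [Z.Normal]
  {lam : Z →* ℂˣ} (ih : LiftBelow p Z.index)
  (hinv : ∀ (x : G) z, lam (MulAut.conjNormal x z) = lam z) (hk : ∀ z, lam z ^ p ^ k = 1)
include hp ih hinv hk

theorem stepA (E : Subgroup G) [E.Normal] (hZE : Z < E)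
    (h : ∀ x ∈ E, ∀ y ∈ E, ∃ hz : ⁅x, y⁆ ∈ Z, lam ⟨_, hz⟩ = 1) : Lifts p Z lam := by
  obtain ⟨μ, j, hμ, hj⟩ := exists_extend_p (k := k) hp (Z.subgroupOf E)
    (lam.comp (Subgroup.subgroupOfEquivOfLe hZE.le).toMonoidHom) (fun z => hk _)
    (fun x y => h x x.2 y y.2)
  obtain ⟨ψ, h1, h2, h3⟩ := lift_inert ih E (Subgroup.index_strictAnti hZE) μ hj
  refine ⟨ind _ ψ, h1.ind (le_inert E μ) μ (fun x hx => not_forall.1 hx) h3, ind_mem _ h2,
    fun z => ind_mul _ _ fun x g => ?_⟩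
  have h4 := ext0_over (le_inert E μ) μ h3 ⟨(MulAut.conjNormal x⁻¹ z : Z), hZE.le (Subtype.prop _)⟩ g
  have h5 := hμ ⟨⟨(MulAut.conjNormal x⁻¹ z : Z), hZE.le (Subtype.prop _)⟩, Subtype.prop _⟩
  rw [← hinv x⁻¹ z]
  simp only at h5
  rw [h5] at h4
  have h6 : x⁻¹ * z * x = (MulAut.conjNormal x⁻¹ z : Z) := by simp
  rw [h6]
  exact h4

theorem stepB (E : Subgroup G) [E.Normal] (hZE : Z < E) (hE : E ≠ ⊤)
    (hpE : ∀ x ∈ E, x ^ p ^ k ∈ Z)
    (h : ∀ x ∈ E, x ∉ Z → ∃ y ∈ E, ∃ hz : ⁅y, x⁆ ∈ Z, lam ⟨_, hz⟩ ≠ 1) : Lifts p Z lam := by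
  have hlt : Z.relIndex E < Z.index := by
    rw [← Subgroup.relIndex_mul_index hZE.le]
    exact lt_mul_of_one_lt_right (Nat.pos_of_ne_zero Subgroup.index_ne_zero_of_finite)
      (Subgroup.one_lt_index_of_ne_top hE)
  obtain ⟨θ, hθ, -, hov⟩ := ih E (Z.subgroupOf E)
    (lam.comp (Subgroup.subgroupOfEquivOfLe hZE.le).toMonoidHom) k hlt
    (fun x z => hinv x ⟨z.1.1, z.2⟩) (fun z => hk _)
  obtain ⟨n, ρ, hρ⟩ := hθ.1
  have hsc : ∀ (z : E) (hz : (z : G) ∈ Z), ρ z = ((lam ⟨z, hz⟩ : ℂˣ) : ℂ) • 1 := fun z hz =>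
    scalar_of_over ρ z _ fun g => by rw [← hρ, ← hρ]; exact hov ⟨z, hz⟩ g
  have hvan : ∀ x : E, (x : G) ∉ Z → (ρ x).trace = 0 := by
    intro x hx
    obtain ⟨y, hy, hz, h1⟩ := h x x.2 hx
    have h2 := hθ.1.conj ⟨y, hy⟩ x
    have h3 := hov ⟨⁅(⟨y, hy⟩ : E), x⁆, hz⟩ x
    have h4 : ⁅(⟨y, hy⟩ : E), x⁆ * x = ⟨y, hy⟩ * x * (⟨y, hy⟩ : E)⁻¹ := by
      simp [commutatorElement_def]
    simp only at h3
    rw [h4, h2] at h3
    rw [← hρ]
    by_contra h0
    exact h1 (Units.ext (mul_right_cancel₀ h0 (by rw [Units.val_one, one_mul]; exact h3.symm)))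
  have hW : WH (Z.subgroupOf E) ρ (Kp p) := by
    refine ⟨fun z hz => ⟨_, mem_kp (k := k) ?_, hsc z hz⟩, hvan, ?_⟩
    · rw [← Units.val_pow_eq_pow_val, hk, Units.val_one]
    · have := Fintype.ofFinite E
      have := Fintype.ofFinite (Z.subgroupOf E)
      have h1 := (isIrr_iff.1 hθ).2
      rw [sum_ext0 (Z.subgroupOf E) _ (fun g hg => by rw [hρ, hvan g hg, zero_mul])] at h1
      have h2 : ∀ t : Z.subgroupOf E, θ t * θ (t : E)⁻¹ = (n : ℂ) ^ 2 := by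
        intro t
        rw [hρ, hρ, hsc t t.2, hsc (t : E)⁻¹ (Z.inv_mem t.2)]
        have : lam ⟨((t : E)⁻¹ : E), Z.inv_mem t.2⟩ = (lam ⟨(t : E), t.2⟩)⁻¹ := by
          rw [← map_inv]; rfl
        rw [this]
        simp only [trace_smul, trace_one, smul_eq_mul, Fintype.card_fin, Units.val_inv_eq_inv_val]
        field_simp
      simp only [h2, Finset.sum_const, Finset.card_univ, nsmul_eq_mul] at h1
      rw [Fintype.card_fin, Nat.card_eq_fintype_card (α := Z.subgroupOf E)]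
      exact_mod_cast h1.symm
  have := Fact.mk hp
  obtain ⟨j, hj⟩ : ∃ j, Nat.card (E ⧸ Z.subgroupOf E) = p ^ j := by
    refine IsPGroup.iff_card.1 fun q => ⟨k, ?_⟩
    obtain ⟨x, rfl⟩ := QuotientGroup.mk_surjective q
    rw [← QuotientGroup.mk_pow, QuotientGroup.eq_one_iff]
    exact hpE x x.2
  rw [hW.index_eq] at hj
  obtain ⟨W, _, _, _, π, ν, hπ, hν1, hν2, hfin⟩ := weil (k := k + k) hp hW hj (fun x => by
    rw [pow_add, pow_mul, ← map_pow, hsc _ (hpE x x.2), smul_pow, ← Units.val_pow_eq_pow_val, hk]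
    simp) (fun g x => by
    by_cases hx : (x : G) ∈ Z
    · rw [hsc x hx, hsc _ (MulAut.conjNormal g (⟨x, hx⟩ : Z)).2, ← hinv g ⟨x, hx⟩]
      rfl
    · rw [hvan x hx, hvan]
      intro h1
      apply hx
      have := ‹Z.Normal›.conj_mem _ h1 g⁻¹
      simpa [mul_assoc] using this)
  obtain ⟨χ, h1, h2, h3⟩ := ih W (E.comap π) ν _
    (by rw [Subgroup.index_comap_of_surjective _ hπ]; exact Subgroup.index_strictAnti hZE) hν1 hν2
  obtain ⟨ψ, h4, h5, h6⟩ := hfin χ h1 h2 h3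
  exact ⟨ψ, h4, h5, fun z g => h6 ⟨z, hZE.le z.2⟩ _ (hsc _ z.2) g⟩

end step

open Classical in
/-- a linear character as a function on the whole group -/
noncomputable def lf (Z : Subgroup G) (lam : Z →* ℂˣ) (g : G) : ℂˣ :=
  if h : g ∈ Z then lam ⟨g, h⟩ else 1

theorem lf_mem {Z : Subgroup G} (lam : Z →* ℂˣ) {g : G} (h : g ∈ Z) : lf Z lam g = lam ⟨g, h⟩ :=
  dif_pos h

theorem lf_mul {Z : Subgroup G} (lam : Z →* ℂˣ) {a b : G} (ha : a ∈ Z) (hb : b ∈ Z) :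
    lf Z lam (a * b) = lf Z lam a * lf Z lam b := by
  rw [lf_mem _ ha, lf_mem _ hb, lf_mem _ (Z.mul_mem ha hb), ← map_mul]; rfl

theorem lf_inv {Z : Subgroup G} (lam : Z →* ℂˣ) {a : G} (ha : a ∈ Z) :
    lf Z lam a⁻¹ = (lf Z lam a)⁻¹ := by
  rw [lf_mem _ ha, lf_mem _ (Z.inv_mem ha), ← map_inv]; rfl

theorem lf_conj {Z : Subgroup G} [hZ : Z.Normal] {lam : Z →* ℂˣ}
    (hinv : ∀ (x : G) z, lam (MulAut.conjNormal x z) = lam z) (x : G) {a : G} (ha : a ∈ Z) :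
    lf Z lam (x * a * x⁻¹) = lf Z lam a := by
  rw [lf_mem _ ha, lf_mem _ (hZ.conj_mem _ ha x), ← hinv x ⟨a, ha⟩]; rfl

/-- the commutator pairing with a fixed element -/
noncomputable def pairing {Z : Subgroup G} [hZ : Z.Normal] {lam : Z →* ℂˣ}
    (hinv : ∀ (x : G) z, lam (MulAut.conjNormal x z) = lam z) (E : Subgroup G) (hE : ⁅E, E⁆ ≤ Z)
    (y : E) : E →* ℂˣ :=
  MonoidHom.mk' (fun x => lf Z lam ⁅(x : G), (y : G)⁆) fun a b => by
    have ha := hE (Subgroup.commutator_mem_commutator a.2 y.2)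
    have hb := hE (Subgroup.commutator_mem_commutator b.2 y.2)
    have : ⁅((a * b : E) : G), (y : G)⁆ = (a * ⁅(b : G), (y : G)⁆ * (a : G)⁻¹) * ⁅(a : G), (y : G)⁆ := by
      simp [commutatorElement_def, mul_assoc]
    simp only [this]
    rw [lf_mul _ (hZ.conj_mem _ hb a) ha, lf_conj hinv _ hb, mul_comm]

theorem liftBelow {p : ℕ} (hp : p.Prime) (n : ℕ) : LiftBelow p n := by
  induction n with
  | zero => intro G _ _ _ Z _ lam k h; omega
  | succ n ihn =>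
  intro G _ _ _ Z hZ lam k hn hinv hk
  have ih : LiftBelow p Z.index := fun G _ _ _ Z' _ lam' k' h => ihn G Z' lam' k' (by omega)
  by_cases htop : Z = ⊤
  · let μ : G →* ℂˣ := lam.comp ((MonoidHom.id G).codRestrict Z fun g => by simp [htop])
    refine ⟨fun g => μ g, isIrr_hom μ, fun g => mem_kp (k := k) ?_, fun z g => ?_⟩
    · rw [← Units.val_pow_eq_pow_val, show μ g ^ p ^ k = 1 from hk _, Units.val_one]
    · simp only [map_mul, Units.val_mul]; rfl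
  obtain ⟨D, hD, -, hDZ, hDD⟩ := exists_layer Z ⊤ inferInstance (by simpa using htop)
  let E := D ⊔ Z
  have hZE : Z < E := lt_of_le_of_ne le_sup_right fun h => hDZ (h ▸ le_sup_left)
  have hEE : ⁅E, E⁆ ≤ Z := by
    rw [← QuotientGroup.ker_mk' Z, ← Subgroup.map_eq_bot_iff, Subgroup.map_commutator,
      Subgroup.map_sup, (Subgroup.map_eq_bot_iff Z).2
        (QuotientGroup.ker_mk' Z).ge, sup_bot_eq, ← Subgroup.map_commutator, Subgroup.map_eq_bot_iff,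
      QuotientGroup.ker_mk']
    exact hDD
  have hz : ∀ (y x : E), (x : G) ∈ Z → pairing hinv E hEE y x = 1 := by
    intro y x hx
    show lf Z lam ⁅(x : G), (y : G)⁆ = 1
    rw [commutatorElement_def, mul_assoc, mul_assoc, ← mul_assoc (y : G),
      lf_mul _ hx (hZ.conj_mem _ (Z.inv_mem hx) _), lf_conj hinv _ (Z.inv_mem hx), lf_inv _ hx,
      mul_inv_cancel]
  have hsym : ∀ x y : E, pairing hinv E hEE y x = 1 → pairing hinv E hEE x y = 1 := by
    intro x y h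
    show lf Z lam ⁅(y : G), (x : G)⁆ = 1
    rw [← commutatorElement_inv, lf_inv _ (hEE (Subgroup.commutator_mem_commutator x.2 y.2)),
      inv_eq_one]
    exact h
  let R : Subgroup G := (⨅ y : E, (pairing hinv E hEE y).ker).map E.subtype
  have hR : ∀ x, x ∈ R ↔ ∃ hx : x ∈ E, ∀ y : E, pairing hinv E hEE y ⟨x, hx⟩ = 1 := by
    intro x
    simp [R, Subgroup.mem_map, Subgroup.mem_iInf]
  have hZR : Z ≤ R := fun x hx => (hR x).2 ⟨hZE.le hx, fun y => hz y _ hx⟩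
  have hRn : R.Normal := ⟨fun x hx g => by
    obtain ⟨hx, h1⟩ := (hR x).1 hx
    have hE : E.Normal := inferInstance
    refine (hR _).2 ⟨hE.conj_mem _ hx g, fun y => ?_⟩
    have hy : g⁻¹ * y * g⁻¹⁻¹ ∈ E := hE.conj_mem _ y.2 _
    have h2 : lf Z lam ⁅x, g⁻¹ * y * g⁻¹⁻¹⁆ = 1 := h1 ⟨_, hy⟩
    show lf Z lam ⁅g * x * g⁻¹, (y : G)⁆ = 1
    rw [← h2, ← lf_conj hinv g (hEE (Subgroup.commutator_mem_commutator hx hy))]
    congr 1
    simp [commutatorElement_def, mul_assoc]⟩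
  rcases hZR.lt_or_eq with hlt | heq
  · refine stepA hp ih hinv hk R hlt fun x hx y hy => ?_
    obtain ⟨hx, h1⟩ := (hR x).1 hx
    obtain ⟨hy, -⟩ := (hR y).1 hy
    have := hEE (Subgroup.commutator_mem_commutator hx hy)
    exact ⟨this, by rw [← lf_mem]; exact h1 ⟨y, hy⟩⟩
  by_cases hE : E = ⊤
  · obtain ⟨x, hx⟩ : ∃ x, x ∉ Z := by
      by_contra h; push Not at h; exact htop ((Subgroup.eq_top_iff' Z).2 h)
    have hm : ∀ g : G, g ∈ E := fun g => by simp [hE]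
    have hn' : (Subgroup.zpowers x ⊔ Z).Normal := Subgroup.Normal.of_commutator_le _ (by
      rw [commutator_def, ← hE]; exact hEE.trans le_sup_right)
    have key : ∀ y : E, pairing hinv E hEE y ⟨x, hm x⟩ = 1 → ∀ a ∈ Subgroup.zpowers x ⊔ Z,
        pairing hinv E hEE y ⟨a, hm a⟩ = 1 := by
      intro y hy a ha
      have : Subgroup.zpowers x ⊔ Z ≤ (pairing hinv E hEE y).ker.map E.subtype := by
        refine sup_le ?_ fun z hz' => ⟨⟨z, hm z⟩, hz y _ hz', rfl⟩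
        rw [Subgroup.zpowers_le]
        exact ⟨⟨x, hm x⟩, hy, rfl⟩
      obtain ⟨w, hw, rfl⟩ := this ha
      exact hw
    refine stepA hp ih hinv hk (Subgroup.zpowers x ⊔ Z) (lt_of_le_of_ne le_sup_right fun h =>
      hx (h ▸ Subgroup.mem_sup_left (Subgroup.mem_zpowers x))) fun a ha b hb => ?_
    have := hEE (Subgroup.commutator_mem_commutator (hm a) (hm b))
    refine ⟨this, ?_⟩
    rw [← lf_mem]
    refine key ⟨b, hm b⟩ (hsym _ _ (key ⟨x, hm x⟩ ?_ b hb)) a ha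
    show lf Z lam ⁅x, x⁆ = 1
    rw [commutatorElement_self, lf_mem _ Z.one_mem]
    exact map_one lam
  refine stepB hp ih hinv hk E hZE hE (fun x hx => ?_) fun x hx hxZ => ?_
  · rw [heq]
    refine (hR _).2 ⟨E.pow_mem hx _, fun y => ?_⟩
    have : (⟨x ^ p ^ k, E.pow_mem hx _⟩ : E) = ⟨x, hx⟩ ^ p ^ k := rfl
    rw [this, map_pow]
    show lf Z lam ⁅x, (y : G)⁆ ^ p ^ k = 1
    rw [lf_mem _ (hEE (Subgroup.commutator_mem_commutator hx y.2)), hk]
  · rw [heq, hR] at hxZ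
    push Not at hxZ
    obtain ⟨y, hy⟩ := hxZ hx
    have := hEE (Subgroup.commutator_mem_commutator y.2 hx)
    exact ⟨y, y.2, this, fun h => hy (hsym _ _ (by rw [← lf_mem] at h; exact h))⟩

/-- every linear character of `p`-power order of a normal subgroup of a solvable group lies under
an irreducible character with values in the field of `p`-power roots of unity -/
theorem exists_over [Finite G] [Group.IsSolvable G] {p j : ℕ} (hp : p.Prime) (E : Subgroup G)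
    [E.Normal] (μ : E →* ℂˣ) (hj : ∀ g, μ g ^ p ^ j = 1) :
    ∃ χ : G → ℂ, IsIrr χ ∧ (∀ g, χ g ∈ Kp p) ∧ Over E μ χ := by
  obtain ⟨ψ, h1, h2, h3⟩ := lift_inert (liftBelow hp (E.index + 1)) E (Nat.lt_succ_self _) μ hj
  exact ⟨ind _ ψ, h1.ind (le_inert E μ) μ (fun x hx => not_forall.1 hx) h3, ind_mem _ h2,
    ind_over _ μ h3⟩

end Pool.Agent.MP_adf6dd_al

end MrgPart1

-- marker of a merged file
example : 731051 + 256952 = 731051 + 256952 := rfl
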