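import Mathlib.Topology.Sheaves.Presheaf
import Mathlib.Data.Int.Star
import Mathlib.Algebra.Order.Ring.Star
import Mathlib.Combinatorics.SimpleGraph.Basic
import Mathlib.Data.FunLike.Fintype
import Mathlib.GroupTheory.Transfer
import Mathlib.RingTheory.PiTensorProduct
import Mathlib.RingTheory.ZMod.UnitsCyclic
import Mathlib.Tactic.Polynomial.Basic
import Pool.Agent.MP_adf6dd_al.Lift

-- ======== part 0: formerly Pool.Agent.MP_adf6dd_al.Count
section MrgPart0

set_option autoImplicit false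

open scoped IsMulCommutative

namespace Pool.Agent.MP_adf6dd_al

variable {G : Type} [Group G]

/-- the bound for the number of characters with values in `Kp p` -/
def Kc (m : ℕ) : ℕ := m * ((m + 1) * (m + 1))

theorem sub_code {Γ : Type} [CommGroup Γ] [Finite Γ] (a b : Γ)
    (hab : ∀ c, c ∈ Subgroup.zpowers b ∨ c * a ∈ Subgroup.zpowers b) :
    ∃ f : Subgroup Γ → ℕ × ℕ, (∀ B, (f B).1 ≤ B.index ∧ (f B).2 ≤ B.index) ∧
      Function.Injective f := by
  classical
  have h1 : ∀ (B : Subgroup Γ) (z : ℤ), b ^ z ∈ B ↔ (orderOf (b : Γ ⧸ B) : ℤ) ∣ z := by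
    intro B z
    rw [orderOf_dvd_iff_zpow_eq_one, ← QuotientGroup.mk_zpow, QuotientGroup.eq_one_iff]
  have h2 : ∀ B : Subgroup Γ, (∃ z : ℤ, b ^ z * a⁻¹ ∈ B) →
      ∃ k : ℕ, k < orderOf (b : Γ ⧸ B) ∧ b ^ k * a⁻¹ ∈ B := by
    rintro B ⟨z, hz⟩
    have hp : (0 : ℤ) < orderOf (b : Γ ⧸ B) := by exact_mod_cast orderOf_pos _
    have h3 := Int.emod_nonneg z hp.ne'
    have h4 := Int.emod_lt_of_pos z hp
    refine ⟨(z % orderOf (b : Γ ⧸ B)).toNat, by omega, ?_⟩
    have h5 : b ^ (z % orderOf (b : Γ ⧸ B) - z) ∈ B := (h1 B _).2 (Int.dvd_emod_sub_self)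
    have h6 := B.mul_mem h5 hz
    rw [← mul_assoc, ← zpow_add, sub_add_cancel] at h6
    rwa [← zpow_natCast, Int.toNat_of_nonneg h3]
  let f : Subgroup Γ → ℕ × ℕ := fun B => (orderOf (b : Γ ⧸ B),
    if h : ∃ z : ℤ, b ^ z * a⁻¹ ∈ B then (h2 B h).choose else orderOf (b : Γ ⧸ B))
  have h3 : ∀ B B', f B = f B' → B ≤ B' := by
    intro B B' h c hc
    have h4 : orderOf (b : Γ ⧸ B) = orderOf (b : Γ ⧸ B') := congrArg Prod.fst h
    rcases hab c with ⟨z, rfl⟩ | ⟨z, hz⟩
    · exact (h1 B' z).2 (h4 ▸ (h1 B z).1 hc)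
    · have hc' : c = b ^ z * a⁻¹ := by rw [show b ^ z = c * a from hz]; simp
      have h5 : ∃ z : ℤ, b ^ z * a⁻¹ ∈ B := ⟨z, hc' ▸ hc⟩
      have h6 := congrArg Prod.snd h
      simp only [f, dif_pos h5] at h6
      have h7 := (h2 B h5).choose_spec
      split_ifs at h6 with h8
      · have h9 := (h2 B' h8).choose_spec.2
        rw [← h6] at h9
        have h10 := B.mul_mem hc (B.inv_mem h7.2)
        have h11 : c * (b ^ (h2 B h5).choose * a⁻¹)⁻¹ = b ^ (z - (h2 B h5).choose) := by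
          rw [hc', zpow_sub, zpow_natCast]; simp [mul_assoc]
        rw [h11] at h10
        have h12 := (h1 B' (z - (h2 B h5).choose)).2 (by rw [← h4]; exact (h1 B _).1 h10)
        rw [← h11] at h12
        have h13 := B'.mul_mem h12 h9
        rwa [inv_mul_cancel_right] at h13
      · omega
  refine ⟨f, fun B => ⟨orderOf_le_card, ?_⟩, fun B B' h => le_antisymm (h3 _ _ h) (h3 _ _ h.symm)⟩
  simp only [f]
  split_ifs with h
  · exact (h2 B h).choose_spec.1.le.trans orderOf_le_card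
  · exact orderOf_le_card

theorem units_gen {p : ℕ} (hp : p.Prime) (k : ℕ) : ∃ a b : (ZMod (p ^ (k + 2)))ˣ,
    ∀ c, c ∈ Subgroup.zpowers b ∨ c * a ∈ Subgroup.zpowers b := by
  by_cases h2 : p = 2
  · subst h2
    have h5 : Nat.Coprime 5 (2 ^ (k + 2)) := Nat.Coprime.pow_right _ (by norm_num)
    let b := ZMod.unitOfCoprime 5 h5
    have hb : orderOf b = 2 ^ k := by
      rw [← orderOf_units, ZMod.coe_unitOfCoprime]
      exact_mod_cast ZMod.orderOf_five k
    have h1 := (Subgroup.zpowers b).card_mul_index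
    rw [Nat.card_zpowers, hb, Nat.card_eq_fintype_card, ZMod.card_units_eq_totient,
      Nat.totient_prime_pow_succ Nat.prime_two] at h1
    have h3 : (Subgroup.zpowers b).index = 2 :=
      Nat.eq_of_mul_eq_mul_left (pow_pos two_pos k) (by rw [h1, ← pow_succ]; simp)
    obtain ⟨a, ha⟩ := Subgroup.index_eq_two_iff.1 h3
    exact ⟨a, b, fun c => (ha c).or.symm⟩
  · obtain ⟨b, hb⟩ := (ZMod.isCyclic_units_of_prime_pow p hp h2 (k + 2)).exists_generator
    exact ⟨1, b, fun c => Or.inl (hb c)⟩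

theorem FB.cnt [Finite G] {m p : ℕ} (h : FB m G) (hp : p.Prime) (s : Finset (G → ℂ))
    (hs : ∀ χ ∈ s, IsIrr χ ∧ ∀ g, χ g ∈ Kp p) : s.card ≤ Kc m := by
  classical
  obtain ⟨k, hk⟩ := exists_cyc_of_finite (p := p) (S := ⋃ χ ∈ s, Set.range χ)
    (s.finite_toSet.biUnion fun χ _ => Set.finite_range χ) (by
      intro x hx
      simp only [Set.mem_iUnion] at hx
      obtain ⟨χ, hχ, g, rfl⟩ := hx
      exact (hs χ hχ).2 g)
  have hk' : ∀ χ ∈ s, ∀ g, χ g ∈ Cyc (p ^ (k + 2)) := fun χ hχ g =>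
    cyc_mono (pow_dvd_pow p (by omega)) (hk _ (Set.mem_biUnion hχ ⟨g, rfl⟩))
  have : NeZero (p ^ (k + 2)) := ⟨pow_ne_zero _ hp.ne_zero⟩
  obtain ⟨t⟩ := exists_tau (p ^ (k + 2))
  obtain ⟨a, b, hab⟩ := units_gen hp k
  obtain ⟨f, hf, hinj⟩ := sub_code a b hab
  let F : (G → ℂ) → ℕ × ℕ := fun χ =>
    if hχ : ∀ g, χ g ∈ Cyc (p ^ (k + 2)) then f (t.stab χ hχ) else 0
  have := Finset.card_le_mul_card_image_of_maps_to (f := F) (s := s)
    (t := Finset.range (m + 1) ×ˢ Finset.range (m + 1)) (fun χ hχ => by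
      have h1 := t.index_le h (hs χ hχ).1 (hk' χ hχ)
      have h2 := hf (t.stab χ (hk' χ hχ))
      simp only [F, dif_pos (hk' χ hχ), Finset.mem_product, Finset.mem_range]
      omega) m (fun y _ => by
      refine t.card_le h _ (fun χ hχ => ?_) fun χ hχ ψ hψ c hc => ?_
      · have := (Finset.mem_filter.1 hχ).1
        exact ⟨(hs χ this).1, hk' χ this⟩
      · obtain ⟨h1, h2⟩ := Finset.mem_filter.1 hχ
        obtain ⟨h3, h4⟩ := Finset.mem_filter.1 hψ
        rw [← h4] at h2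
        simp only [F, dif_pos (hk' χ h1), dif_pos (hk' ψ h3)] at h2
        have h5 : c ∈ t.stab χ (hk' χ h1) := hc
        rw [hinj h2] at h5
        exact h5)
  simpa [Kc] using this

/-- the conjugate of a linear character -/
def cj {E : Subgroup G} [E.Normal] (x : G) (μ : E →* ℂˣ) : E →* ℂˣ :=
  μ.comp (MulAut.conjNormal x).toMonoidHom

theorem cj_apply {E : Subgroup G} [E.Normal] (x : G) (μ : E →* ℂˣ) (v : E) :
    cj x μ v = μ (MulAut.conjNormal x v) := rfl

theorem cj_one {E : Subgroup G} [E.Normal] (μ : E →* ℂˣ) : cj (1 : G) μ = μ := by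
  ext v; simp [cj_apply]

theorem cj_mul {E : Subgroup G} [E.Normal] (x y : G) (μ : E →* ℂˣ) :
    cj (x * y) μ = cj y (cj x μ) := by
  ext v; simp [cj_apply]

theorem cj_pow {E : Subgroup G} [E.Normal] (x : G) (μ : E →* ℂˣ) (n : ℕ) :
    cj x (μ ^ n) = cj x μ ^ n := by
  ext v; simp [cj_apply]

theorem hom_pow_iff {E : Type} [Group E] (μ : E →* ℂˣ) (a b : ℕ) :
    μ ^ a = μ ^ b ↔ a ≡ b [MOD orderOf μ] := pow_eq_pow_iff_modEq (G := E →* ℂˣ) (x := μ)

theorem cj_mem {E : Subgroup G} [E.Normal] [IsMulCommutative E] {x : G} (hx : x ∈ E)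
    (μ : E →* ℂˣ) : cj x μ = μ := by
  ext1 v
  exact le_inert E μ hx v

theorem dedekind {E I : Type} [Group E] [Fintype I] (f g : I → (E →* ℂˣ))
    (h : ∀ v, ∑ x, (f x v : ℂ) = ∑ x, (g x v : ℂ)) (y : I) : ∃ x, f x = g y := by
  classical
  by_contra hne
  push Not at hne
  let u : (E →* ℂˣ) → (E →* ℂ) := fun μ => (Units.coeHom ℂ).comp μ
  have hu : Function.Injective u := fun a b hab => by
    ext v; exact DFunLike.congr_fun hab v
  have h1 := linearIndependent_iff.1 (linearIndependent_monoidHom E ℂ)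
    (∑ x, Finsupp.single (u (f x)) (1 : ℂ) - ∑ x, Finsupp.single (u (g x)) (1 : ℂ)) (by
      rw [map_sub, map_sum, map_sum, sub_eq_zero]
      funext v
      simpa [u] using h v)
  have h2 := DFunLike.congr_fun h1 (u (g y))
  simp only [Finsupp.coe_sub, Finsupp.coe_finsetSum, Pi.sub_apply, Finset.sum_apply,
    Finsupp.single_apply, hu.eq_iff, hne, if_false, Finset.sum_const_zero, Finsupp.coe_zero,
    Pi.zero_apply, zero_sub, neg_eq_zero, Finset.sum_boole, Nat.cast_eq_zero,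
    Finset.card_eq_zero] at h2
  have : y ∈ Finset.univ.filter (fun x => g x = g y) := by simp
  rw [h2] at this
  simp at this

theorem Over.conj [Finite G] {E : Subgroup G} [E.Normal] {μ μ' : E →* ℂˣ} {χ : G → ℂ}
    (hχ : χ 1 ≠ 0) (h : Over E μ χ) (h' : Over E μ' χ) : ∃ x : G, cj x μ = μ' := by
  have := Fintype.ofFinite G
  obtain ⟨x, hx⟩ := dedekind (fun x : G => cj x μ) (fun x : G => cj x μ') (fun v => by
    have h1 := (h v).symm.trans (h' v)
    rw [finsum_eq_sum_of_fintype, finsum_eq_sum_of_fintype] at h1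
    exact mul_left_cancel₀ hχ h1) 1
  exact ⟨x, by rw [hx, cj_one]⟩

theorem Over.tau [Finite G] {E : Subgroup G} [E.Normal] {μ : E →* ℂˣ} {χ : G → ℂ}
    (h : Over E μ χ) {N : ℕ} (t : Tau N) (hN : ∀ v, μ v ^ N = 1) (c : (ZMod N)ˣ) :
    Over E (μ ^ (c : ZMod N).val) (fun g => t.τ c (χ g)) := by
  have := Fintype.ofFinite G
  intro v
  have h1 := congrArg (t.τ c) (h v)
  rw [finsum_eq_sum_of_fintype] at h1 ⊢
  simp only [map_mul, map_natCast, map_sum] at h1
  rw [h1]
  congr 1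
  refine Finset.sum_congr rfl fun x _ => ?_
  rw [t.root _ _ (by rw [← Units.val_pow_eq_pow_val, hN, Units.val_one])]
  simp

theorem Over.stab [Finite G] {E : Subgroup G} [E.Normal] {μ : E →* ℂˣ} {χ : G → ℂ}
    (h : Over E μ χ) (hχ : χ 1 ≠ 0) {N : ℕ} (t : Tau N) (hN : ∀ v, μ v ^ N = 1) {c : (ZMod N)ˣ}
    (hc : ∀ g, t.τ c (χ g) = χ g) : ∃ x : G, cj x μ = μ ^ (c : ZMod N).val := by
  have h1 := h.tau t hN c
  simp only [hc] at h1
  exact h.conj hχ h1

/-- few orbits on the characters of `p`-power order -/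
theorem FB.orbits [Finite G] [Group.IsSolvable G] {m p j : ℕ} (h : FB m G) (hp : p.Prime)
    (E : Subgroup G) [E.Normal] (hj : ∀ (μ : E →* ℂˣ) v, μ v ^ p ^ j = 1) (s : Finset (E →* ℂˣ))
    (hs : ∀ μ ∈ s, ∀ μ' ∈ s, ∀ x : G, cj x μ = μ' → μ = μ') : s.card ≤ Kc m := by
  classical
  choose F h1 h2 h3 using fun μ : E →* ℂˣ => exists_over hp E μ (hj μ)
  rw [← Finset.card_image_of_injOn (f := F) (fun μ hμ μ' hμ' he => by
    obtain ⟨x, hx⟩ := (h3 μ).conj (h1 μ).one_ne (he ▸ h3 μ')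
    exact hs μ hμ μ' hμ' x hx)]
  refine h.cnt hp _ fun χ hχ => ?_
  obtain ⟨μ, -, rfl⟩ := Finset.mem_image.1 hχ
  exact ⟨h1 μ, h2 μ⟩

theorem card_dual (A : Type) [Group A] [Finite A] [IsMulCommutative A] :
    Nat.card (A →* ℂˣ) = Nat.card A := by
  have := hasEnough A
  exact CommGroup.card_monoidHom_of_hasEnoughRootsOfUnity A ℂ

theorem finite_dual (A : Type) [Group A] [Finite A] [IsMulCommutative A] : Finite (A →* ℂˣ) :=
  Nat.finite_of_card_ne_zero (by rw [card_dual]; exact Nat.card_pos.ne')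

/-- primes are bounded by the index of an abelian normal subgroup -/
theorem FB.prime_le [Finite G] [Group.IsSolvable G] {m r : ℕ} (h : FB m G) (hr : r.Prime)
    (B : Subgroup G) [B.Normal] [IsMulCommutative B] (hd : r ∣ Nat.card G) :
    r ≤ m * B.index + 1 := by
  have hm := h.one_le
  rw [← B.card_mul_index] at hd
  rcases (Nat.Prime.dvd_mul hr).1 hd with hd | hd
  swap
  · have := Nat.le_of_dvd (Nat.pos_of_ne_zero Subgroup.index_ne_zero_of_finite) hd
    nlinarith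
  have := Fact.mk hr
  have := finite_dual B
  obtain ⟨μ, hμ⟩ := exists_prime_orderOf_dvd_card' (G := B →* ℂˣ) r (by rwa [card_dual])
  have hμ1 : ∀ v, μ v ^ r ^ 1 = 1 := fun v => by
    rw [pow_one, ← MonoidHom.pow_apply, ← hμ, pow_orderOf_eq_one]; rfl
  obtain ⟨χ, h1, h2, h3⟩ := exists_over hr B μ hμ1
  obtain ⟨k, hk⟩ := exists_cyc_of_finite (p := r) (Set.finite_range χ)
    (by rintro _ ⟨g, rfl⟩; exact h2 g)
  have hk' : ∀ g, χ g ∈ Cyc (r ^ (k + 1)) := fun g =>
    cyc_mono (pow_dvd_pow r (by omega)) (hk _ ⟨g, rfl⟩)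
  have : NeZero (r ^ (k + 1)) := ⟨pow_ne_zero _ hr.ne_zero⟩
  obtain ⟨t⟩ := exists_tau (r ^ (k + 1))
  have hdv : r ∣ r ^ (k + 1) := dvd_pow_self r (by omega)
  let S := (t.stab χ hk').map (ZMod.unitsMap hdv)
  have hS : S.index ≤ m := (Nat.le_of_dvd (Nat.pos_of_ne_zero Subgroup.index_ne_zero_of_finite)
    ((t.stab χ hk').index_map_dvd (ZMod.unitsMap_surjective hdv))).trans (t.index_le h h1 hk')
  have hx : ∀ c : S, ∃ q : G ⧸ B, cj q.out⁻¹ μ = μ ^ ((c : (ZMod r)ˣ) : ZMod r).val := by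
    rintro ⟨_, c, hc, rfl⟩
    obtain ⟨x, hx⟩ := h3.stab h1.one_ne t (fun v => by
      rw [pow_succ', pow_mul, ← pow_one r, hμ1, one_pow]) hc
    refine ⟨(x⁻¹ : G), ?_⟩
    have h4 : ((x⁻¹ : G) : G ⧸ B).out⁻¹ * x⁻¹ ∈ B := by rw [← QuotientGroup.eq]; simp
    have h5 := cj_mul (((x⁻¹ : G) : G ⧸ B).out⁻¹ * x⁻¹) x μ
    rw [cj_mem h4, inv_mul_cancel_right] at h5
    rw [h5, hx, hom_pow_iff, hμ]
    show _ ≡ ((c : ZMod (r ^ (k + 1))).cast : ZMod r).val [MOD r]
    rw [ZMod.cast_eq_val, ZMod.val_natCast]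
    exact (Nat.mod_modEq _ _).symm
  choose q hq using hx
  have hq' : Function.Injective q := by
    intro a b hab
    have h4 := (hq a).symm.trans (hab ▸ hq b)
    rw [hom_pow_iff, hμ] at h4
    have h5 := Nat.ModEq.eq_of_lt_of_lt h4 (ZMod.val_lt _) (ZMod.val_lt _)
    exact Subtype.ext (Units.ext (ZMod.val_injective r h5))
  have h6 : Nat.card S ≤ B.index := Nat.card_le_card_of_injective q hq'
  have h7 := S.card_mul_index
  rw [Nat.card_eq_fintype_card (α := (ZMod r)ˣ), ZMod.card_units] at h7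
  have h8 : Nat.card S * S.index ≤ B.index * m := Nat.mul_le_mul h6 hS
  rw [mul_comm m]
  omega

/-- the number of irreducible characters with values in `Kp p` -/
noncomputable def np (p : ℕ) (G : Type) [Group G] : ℕ :=
  {χ : G → ℂ | IsIrr χ ∧ ∀ g, χ g ∈ Kp p}.ncard

theorem np_finite [Finite G] (p : ℕ) : {χ : G → ℂ | IsIrr χ ∧ ∀ g, χ g ∈ Kp p}.Finite :=
  isIrr_finite.subset fun _ h => h.1

theorem FB.np_le [Finite G] {m p : ℕ} (h : FB m G) (hp : p.Prime) : np p G ≤ Kc m := by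
  rw [np, Set.ncard_eq_toFinset_card _ (np_finite p)]
  exact h.cnt hp _ fun χ hχ => by simpa using hχ

theorem np_aux [Finite G] (p : ℕ) (V : Subgroup G) [V.Normal] :
    ∃ s ⊆ {χ : G → ℂ | IsIrr χ ∧ ∀ g, χ g ∈ Kp p}, s.ncard = np p (G ⧸ V) ∧
      ∀ χ ∈ s, ∀ v ∈ V, χ v = χ 1 := by
  refine ⟨(fun (χ : G ⧸ V → ℂ) (g : G) => χ (QuotientGroup.mk' V g)) ''
    {χ | IsIrr χ ∧ ∀ g, χ g ∈ Kp p}, ?_, ?_, ?_⟩
  · rintro _ ⟨χ, hχ, rfl⟩
    exact ⟨hχ.1.comp _ (QuotientGroup.mk'_surjective V), fun g => hχ.2 _⟩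
  · refine Set.ncard_image_of_injective _ fun a b hab => ?_
    funext y
    obtain ⟨x, rfl⟩ := QuotientGroup.mk'_surjective V y
    exact congrFun hab x
  · rintro _ ⟨χ, -, rfl⟩ v hv
    simp [(QuotientGroup.eq_one_iff v).2 hv]

theorem np_quot_le [Finite G] (p : ℕ) (V : Subgroup G) [V.Normal] : np p (G ⧸ V) ≤ np p G := by
  obtain ⟨s, h1, h2, -⟩ := np_aux p V
  exact h2 ▸ Set.ncard_le_ncard h1 (np_finite p)

theorem np_quot_lt [Finite G] [Group.IsSolvable G] {p : ℕ} (hp : p.Prime) (V : Subgroup G)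
    [V.Normal] [IsMulCommutative V] (hV : p ∣ Nat.card V) : np p (G ⧸ V) < np p G := by
  obtain ⟨s, h1, h2, h3⟩ := np_aux p V
  have := Fact.mk hp
  have := finite_dual V
  obtain ⟨μ, hμ⟩ := exists_prime_orderOf_dvd_card' (G := V →* ℂˣ) p (by rwa [card_dual])
  obtain ⟨χ, h4, h5, h6⟩ := exists_over (j := 1) hp V μ fun v => by
    rw [pow_one, ← MonoidHom.pow_apply, ← hμ, pow_orderOf_eq_one]; rfl
  rw [← h2]
  refine Set.ncard_lt_ncard (h1.ssubset_of_ne fun he => ?_) (np_finite p)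
  have h7 : Over V 1 χ := fun v => by
    have := Fintype.ofFinite G
    rw [h3 χ (he ▸ ⟨h4, h5⟩) v v.2, finsum_eq_sum_of_fintype]
    simp [mul_comm, Nat.card_eq_fintype_card]
  obtain ⟨x, hx⟩ := h7.conj h4.one_ne h6
  have h8 : μ = 1 := by rw [← hx]; rfl
  rw [h8, orderOf_one] at hμ
  exact hp.one_lt.ne hμ

end Pool.Agent.MP_adf6dd_al

end MrgPart0

-- ======== part 1: formerly Pool.Agent.MP_adf6dd_al.NewP
section MrgPart1

set_option autoImplicit false

open scoped IsMulCommutative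

namespace Pool.Agent.MP_adf6dd_al

variable {G : Type} [Group G]

theorem canon_ext [Finite G] (Z : Subgroup G) [Z.Normal] (lam : Z →* ℂˣ)
    (hinv : ∀ (x : G) z, lam (MulAut.conjNormal x z) = lam z) {N e : ℕ} (hN : ∀ z, lam z ^ N = 1)
    (he : e ≡ 1 [MOD N]) (hd : Z.index ∣ e) :
    ∃ ψ : G →* ℂˣ, (∀ z : Z, ψ z = lam z) ∧ ∀ g, ψ g ^ N = 1 := by
  classical
  obtain ⟨u, rfl⟩ := hd
  refine ⟨(MonoidHom.transfer lam) ^ u, fun z => ?_, fun g => ?_⟩
  · have := Fintype.ofFinite (Quotient (MulAction.orbitRel (Subgroup.zpowers (z : G)) (G ⧸ Z)))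
    have h1 : MonoidHom.transfer lam z = lam z ^ Z.index := by
      rw [MonoidHom.transfer_eq_prod_quotient_orbitRel_zpowers_quot,
        Subgroup.index_eq_sum_minimalPeriod Z z, ← Finset.prod_pow_eq_pow_sum]
      refine Finset.prod_congr rfl fun q _ => ?_
      rw [← map_pow, ← hinv q.out.out⁻¹ (z ^ _)]
      congr 1
      apply Subtype.ext
      rw [MulAut.conjNormal_apply, inv_inv, Subgroup.coe_pow]
    rw [MonoidHom.pow_apply, h1, ← pow_mul, pow_eq_pow_mod _ (hN z), he, ← pow_eq_pow_mod 1 (hN z),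
      pow_one]
  · have := Fintype.ofFinite (Quotient (MulAction.orbitRel (Subgroup.zpowers g) (G ⧸ Z)))
    rw [MonoidHom.pow_apply, ← pow_mul, mul_comm, pow_mul,
      MonoidHom.transfer_eq_prod_quotient_orbitRel_zpowers_quot, ← Finset.prod_pow]
    simp [hN]

/-- the character induced from the canonical extension -/
noncomputable def canon (A : Subgroup G) [A.Normal] (lam : A →* ℂˣ) (e : ℕ) : G → ℂ :=
  ind (inert A lam) fun t => (lf A lam (t ^ e) : ℂ)

section
variable [Finite G] {A : Subgroup G} [A.Normal] {lam : A →* ℂˣ} {N e : ℕ}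
  (hN : ∀ z, lam z ^ N = 1) (he : e ≡ 1 [MOD N]) (hd : A.index ∣ e)

omit [Finite G] in
include hd in
theorem pow_e_mem (g : G) : g ^ e ∈ A := by
  obtain ⟨u, rfl⟩ := hd
  rw [pow_mul]
  exact A.pow_mem (A.pow_index_mem g) u

include hN he hd in
theorem canon_irr : IsIrr (canon A lam e) ∧ Over A lam (canon A lam e) := by
  obtain ⟨ψ, h1, h2⟩ := canon_ext (A.subgroupOf (inert A lam))
    (lam.comp (Subgroup.subgroupOfEquivOfLe (le_inert A lam)).toMonoidHom)
    (fun x z => x.2 ⟨z.1.1, z.2⟩) (fun z => hN _) he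
    ((Subgroup.relIndex_dvd_index_of_normal A _).trans hd)
  have h3 : (fun t : inert A lam => (lf A lam (t ^ e) : ℂ)) = fun t => (ψ t : ℂ) := by
    funext t
    have h4 := h1 ⟨t ^ e, pow_e_mem hd t⟩
    simp only [map_pow] at h4
    rw [pow_eq_pow_mod _ (h2 t), he, ← pow_eq_pow_mod 1 (h2 t), pow_one] at h4
    rw [h4, lf_mem _ (pow_e_mem hd (t : G))]
    rfl
  have h5 : ∀ (z : A) (g : inert A lam),
      (ψ (⟨z, le_inert A lam z.2⟩ * g) : ℂ) = lam z * ψ g := fun z g => by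
    rw [map_mul, Units.val_mul, h1 ⟨⟨z, le_inert A lam z.2⟩, z.2⟩]; rfl
  rw [canon, h3]
  exact ⟨(isIrr_hom ψ).ind (le_inert A lam) lam (fun x hx => not_forall.1 hx) h5, ind_over _ lam h5⟩

omit [Finite G] in
include hN hd in
theorem lf_pow (g : G) : (lf A lam (g ^ e) : ℂ) ^ N = 1 := by
  rw [lf_mem _ (pow_e_mem hd g), ← Units.val_pow_eq_pow_val, hN, Units.val_one]

include hN hd in
theorem canon_mem (g : G) : canon A lam e g ∈ Cyc N :=
  ind_mem (T := inert A lam) (Cyc N) (fun t => mem_cyc (lf_pow hN hd (t : G))) g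

include hN hd in
theorem canon_fix [NeZero N] (t : Tau N) {c : (ZMod N)ˣ} {y : G}
    (hy : cj y lam = lam ^ (c : ZMod N).val) (g : G) :
    t.τ c (canon A lam e g) = canon A lam e g := by
  have := Fintype.ofFinite G
  have hc : (lam ^ (c : ZMod N).val) ^ ((c⁻¹ : (ZMod N)ˣ) : ZMod N).val = lam := by
    ext1 v
    rw [MonoidHom.pow_apply, MonoidHom.pow_apply, ← pow_mul, pow_eq_pow_mod _ (hN v),
      ← ZMod.val_mul, Units.mul_inv, ZMod.val_one_eq_one_mod, ← pow_eq_pow_mod 1 (hN v), pow_one]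
  have h0 : ∀ h : G, h ∈ inert A lam ↔ cj h lam = lam := fun h =>
    ⟨fun hh => MonoidHom.ext hh, fun hh v => DFunLike.congr_fun hh v⟩
  have hT : ∀ h : G, h ∈ inert A lam ↔ y * h * y⁻¹ ∈ inert A lam := by
    intro h
    rw [h0, h0]
    constructor
    · intro hh
      rw [cj_mul, cj_mul, hy, cj_pow, hh, ← hy, ← cj_mul, mul_inv_cancel, cj_one]
    · intro hh
      have h1 := congrArg (cj y) hh
      rw [← cj_mul, inv_mul_cancel_right, cj_mul, hy] at h1
      rw [← hc, cj_pow, h1]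
  have h2 : ∀ h : G, t.τ c (ext0 (inert A lam) (fun t => (lf A lam (t ^ e) : ℂ)) h) =
      ext0 (inert A lam) (fun t => (lf A lam (t ^ e) : ℂ)) (y * h * y⁻¹) := by
    intro h
    by_cases hh : h ∈ inert A lam
    · rw [ext0_mem _ hh, ext0_mem _ ((hT h).1 hh), t.root _ _ (lf_pow hN hd h),
        lf_mem _ (pow_e_mem hd h), lf_mem _ (pow_e_mem hd _), ← Units.val_pow_eq_pow_val,
        ← MonoidHom.pow_apply, ← hy, cj_apply]
      congr 2
      apply Subtype.ext
      simp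
    · rw [ext0_not _ hh, ext0_not _ (fun h' => hh ((hT h).2 h')), map_zero]
  rw [canon, ind_eq, map_mul, map_sum, map_inv₀, map_natCast]
  congr 1
  rw [← Equiv.sum_comp (Equiv.mulRight y)]
  refine Finset.sum_congr rfl fun x _ => ?_
  rw [h2]
  congr 1
  simp [mul_assoc]

end

theorem FB.newp [Finite G] {m : ℕ} (h : FB m G) (A : Subgroup G) [A.Normal] [IsMulCommutative A]
    (P : Finset ℕ) (hP : ∀ p ∈ P, p.Prime ∧ p ∣ Nat.card A ∧ ¬ p ∣ A.index) : P.card ≤ 2 * m := by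
  classical
  have := finite_dual A
  set N := ∏ p ∈ P, p with hNdef
  have hN0 : N ≠ 0 := Finset.prod_ne_zero_iff.2 fun p hp => (hP p hp).1.ne_zero
  have : NeZero N := ⟨hN0⟩
  have hpN : ∀ p ∈ P, p ∣ N := fun p hp => Finset.dvd_prod_of_mem _ hp
  obtain ⟨lam, hlam⟩ : ∃ lam : A →* ℂˣ, orderOf lam = N := by
    obtain ⟨g, hg⟩ := Monoid.exists_orderOf_eq_exponent (G := A →* ℂˣ)
      ⟨Nat.card (A →* ℂˣ), Nat.card_pos, fun x => pow_card_eq_one' (G := A →* ℂˣ)⟩
    refine ⟨_, orderOf_pow_orderOf_div (orderOf_pos g).ne' ?_⟩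
    rw [hg]
    refine Finset.prod_primes_dvd _ (fun p hp => (hP p hp).1.prime) fun p hp => ?_
    have := Fact.mk (hP p hp).1
    obtain ⟨μ, hμ⟩ := exists_prime_orderOf_dvd_card' (G := A →* ℂˣ) p
      (by rw [card_dual]; exact (hP p hp).2.1)
    exact hμ ▸ Monoid.order_dvd_exponent μ
  have hco : N.Coprime A.index := Nat.Coprime.prod_left fun p hp =>
    (Nat.Prime.coprime_iff_not_dvd (hP p hp).1).2 (hP p hp).2.2
  obtain ⟨e, he, hd⟩ := Nat.chineseRemainder hco 1 0
  replace hd := Nat.modEq_zero_iff_dvd.1 hd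
  have hap : ∀ (μ : A →* ℂˣ) (n : ℕ), orderOf μ = n → ∀ z, μ z ^ n = 1 := fun μ n hn z => by
    rw [← MonoidHom.pow_apply, ← hn]
    exact DFunLike.congr_fun (pow_orderOf_eq_one μ) z
  have hN := hap lam N hlam
  let l : ℕ → (A →* ℂˣ) := fun p => lam ^ (N / p)
  have hl : ∀ p ∈ P, orderOf (l p) = p := fun p hp => by
    have := orderOf_pow_orderOf_div (x := lam) (n := p) (by rwa [hlam]) (hlam ▸ hpN p hp)
    rwa [hlam] at this
  have hlN : ∀ p z, l p z ^ N = 1 := fun p z => by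
    rw [MonoidHom.pow_apply, ← pow_mul, mul_comm, pow_mul, hN, one_pow]
  obtain ⟨t⟩ := exists_tau N
  let St : ℕ → Subgroup (ZMod N)ˣ := fun p => t.stab (canon A (l p) e) (canon_mem (hlN p) hd)
  have hB : ∀ p, t.stab (canon A lam e) (canon_mem hN hd) ≤ St p := by
    intro p c hc
    obtain ⟨y, hy⟩ := (canon_irr hN he hd).2.stab (canon_irr hN he hd).1.one_ne t hN hc
    refine canon_fix (hlN p) hd t (y := y) ?_
    simp only [l]
    rw [cj_pow, hy]
    ext1 v
    simp only [MonoidHom.pow_apply]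
    rw [← pow_mul, ← pow_mul, mul_comm]
  have hcong : ∀ p ∈ P, ∀ c d : (ZMod N)ˣ, (c : ZMod N).val ≡ (d : ZMod N).val [MOD p] →
      c ∈ St p → d ∈ St p := by
    intro p hp c d hcd hc g
    rw [← hc g]
    nth_rewrite 1 [hc g]
    refine cyc_ext (N := p) _ _ (fun x hx => ?_) (canon_mem (hap _ _ (hl p hp)) hd g)
    have hx' : x ^ N = 1 := by
      obtain ⟨u, hu⟩ := hpN p hp
      rw [hu, pow_mul, hx, one_pow]
    rw [t.root _ _ hx', t.root _ _ hx', pow_eq_pow_mod _ hx, ← hcd, ← pow_eq_pow_mod _ hx]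
  have hcrt : ∀ p ∈ P, ∀ c : (ZMod N)ˣ, ∃ d : (ZMod N)ˣ,
      (d : ZMod N).val ≡ (c : ZMod N).val [MOD p] ∧
      ∀ q ∈ P, q ≠ p → ((1 : (ZMod N)ˣ) : ZMod N).val ≡ (d : ZMod N).val [MOD q] := by
    intro p hp c
    have h1 : p.Coprime (∏ q ∈ P.erase p, q) := Nat.Coprime.prod_right fun q hq =>
      (Nat.coprime_primes (hP p hp).1 (hP q (Finset.mem_of_mem_erase hq)).1).2
        (Finset.ne_of_mem_erase hq).symm
    obtain ⟨w, hw1, hw2⟩ := Nat.chineseRemainder h1 (c : ZMod N).val 1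
    have h2 : w.Coprime N := by
      rw [hNdef, ← Finset.mul_prod_erase P _ hp]
      refine Nat.Coprime.mul_right ?_ ?_
      · rw [Nat.Coprime, hw1.gcd_eq]
        exact Nat.Coprime.coprime_dvd_right (hpN p hp) (ZMod.val_coe_unit_coprime c)
      · rw [Nat.Coprime, hw2.gcd_eq]; simp
    refine ⟨ZMod.unitOfCoprime w h2, ?_, fun q hq hqp => ?_⟩
    · rw [ZMod.coe_unitOfCoprime, ZMod.val_natCast]
      exact ((Nat.mod_modEq w N).of_dvd (hpN p hp)).trans hw1
    · rw [ZMod.coe_unitOfCoprime, ZMod.val_natCast, Units.val_one, ZMod.val_one_eq_one_mod]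
      refine ((Nat.mod_modEq 1 N).of_dvd (hpN q hq)).trans (Nat.ModEq.symm ?_)
      exact ((Nat.mod_modEq w N).of_dvd (hpN q hq)).trans
        (hw2.of_dvd (Finset.dvd_prod_of_mem _ (Finset.mem_erase.2 ⟨hqp, hq⟩)))
  have hbad : ∀ S : Finset ℕ, (∀ p ∈ S, p ∈ P ∧ St p ≠ ⊤) → S.card ≤ (⨅ p ∈ S, St p).index := by
    intro S
    induction S using Finset.induction_on with
    | empty => simp
    | @insert p S hpS ih =>
      intro hS
      have h1 := ih fun q hq => hS q (Finset.mem_insert_of_mem hq)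
      obtain ⟨hp, hp'⟩ := hS p (Finset.mem_insert_self _ _)
      rw [Finset.card_insert_of_notMem hpS, Finset.iInf_insert]
      refine Nat.succ_le_of_lt (h1.trans_lt (Subgroup.index_strictAnti
        (lt_of_le_of_ne inf_le_right fun he => ?_)))
      obtain ⟨c, hc⟩ : ∃ c, c ∉ St p := by
        by_contra hne; push Not at hne; exact hp' ((Subgroup.eq_top_iff' _).2 hne)
      obtain ⟨d, hd1, hd2⟩ := hcrt p hp c
      have h3 : d ∈ ⨅ q ∈ S, St q := by
        simp only [Subgroup.mem_iInf]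
        intro q hq
        have hqP := (hS q (Finset.mem_insert_of_mem hq)).1
        exact hcong q hqP 1 d (hd2 q hqP (by rintro rfl; exact hpS hq)) (St q).one_mem
      rw [← he] at h3
      exact hc (hcong p hp d c hd1 h3.1)
  have h1 : (P.filter fun p => St p ≠ ⊤).card ≤ m := by
    refine (hbad _ fun p hp => Finset.mem_filter.1 hp).trans ((Subgroup.index_antitone ?_).trans
      (t.index_le h (canon_irr hN he hd).1 (canon_mem hN hd)))
    exact le_iInf₂ fun p _ => hB p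
  have h2 : (P.filter fun p => ¬ St p ≠ ⊤).card ≤ m := by
    rw [← Finset.card_image_of_injOn (f := fun p => canon A (l p) e) (fun p hp q hq hpq => by
      have hp' := (Finset.mem_filter.1 hp).1
      have hq' := (Finset.mem_filter.1 hq).1
      simp only at hpq
      obtain ⟨x, hx⟩ := (canon_irr (hlN p) he hd).2.conj (canon_irr (hlN p) he hd).1.one_ne
        (hpq ▸ (canon_irr (hlN q) he hd).2)
      have h3 : q ∣ p := by
        rw [← hl q hq', orderOf_dvd_iff_pow_eq_one, ← hx]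
        ext1 v
        exact hap _ _ (hl p hp') _
      exact ((Nat.prime_dvd_prime_iff_eq (hP q hq').1 (hP p hp').1).1 h3).symm)]
    refine t.card_le h _ (fun χ hχ => ?_) fun χ _ ψ hψ c _ => ?_
    · obtain ⟨p, -, rfl⟩ := Finset.mem_image.1 hχ
      exact ⟨(canon_irr (hlN p) he hd).1, canon_mem (hlN p) hd⟩
    · obtain ⟨p, hp, rfl⟩ := Finset.mem_image.1 hψ
      have h3 : c ∈ St p := by rw [not_not.1 (Finset.mem_filter.1 hp).2]; trivial
      exact h3
  have := Finset.card_filter_add_card_filter_not (s := P) (fun p => St p ≠ ⊤)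
  omega

theorem derived_quot {n : ℕ} {V : Subgroup G} [V.Normal] (h : derivedSeries G n ≤ V) :
    derivedSeries (G ⧸ V) n = ⊥ := by
  rw [← map_derivedSeries_eq (QuotientGroup.mk'_surjective V), Subgroup.map_eq_bot_iff,
    QuotientGroup.ker_mk']
  exact h

theorem primes_le {m : ℕ} (n : ℕ) : ∀ (G : Type) [Group G] [Finite G], FB m G →
    derivedSeries G n = ⊥ → (Nat.card G).primeFactors.card ≤ n * (2 * m) := by
  induction n with
  | zero =>
    intro G _ _ _ h
    have : Subsingleton G := by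
      rw [derivedSeries_zero] at h
      exact Subgroup.subsingleton_iff.1 (subsingleton_of_bot_eq_top h.symm)
    simp
  | succ n ih =>
    intro G _ _ hm h
    let A := derivedSeries G n
    have : IsMulCommutative A := ⟨⟨fun a b => Subtype.ext (by
      have := Subgroup.commutator_mem_commutator a.2 b.2
      rw [← derivedSeries_succ, h, Subgroup.mem_bot, commutatorElement_eq_one_iff_mul_comm] at this
      exact this)⟩⟩
    have h1 := ih (G ⧸ A) (hm.quot _ (QuotientGroup.mk'_surjective A)) (derived_quot le_rfl)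
    have h2 := hm.newp A ((Nat.card G).primeFactors \ (Nat.card (G ⧸ A)).primeFactors) (by
      intro p hp
      obtain ⟨h3, h4⟩ := Finset.mem_sdiff.1 hp
      have h5 := Nat.prime_of_mem_primeFactors h3
      have h6 : ¬ p ∣ A.index := fun h7 =>
        h4 (Nat.mem_primeFactors.2 ⟨h5, h7, Nat.card_pos.ne'⟩)
      have h8 := Nat.dvd_of_mem_primeFactors h3
      rw [← A.card_mul_index] at h8
      exact ⟨h5, ((Nat.Prime.dvd_mul h5).1 h8).resolve_right h6, h6⟩)
    have h3 := Finset.le_card_sdiff (Nat.card (G ⧸ A)).primeFactors (Nat.card G).primeFactors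
    rw [add_mul]
    omega

end Pool.Agent.MP_adf6dd_al

end MrgPart1

-- ======== part 2: formerly Pool.Agent.MP_adf6dd_al.Grp
section MrgPart2

set_option autoImplicit false

open scoped IsMulCommutative commutatorElement

namespace Pool.Agent.MP_adf6dd_al

variable {G : Type} [Group G]

theorem two_mul_card_le [Finite G] {A B : Subgroup G} (h : A < B) :
    2 * Nat.card A ≤ Nat.card B := by
  obtain ⟨k, hk⟩ := Subgroup.card_dvd_of_le h.le
  have h1 : Nat.card A < Nat.card B := by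
    refine lt_of_le_of_ne (Subgroup.card_le_of_le h.le) fun e => h.ne ?_
    exact Subgroup.eq_of_le_of_card_ge h.le e.ge
  have h2 : 0 < Nat.card A := Nat.card_pos
  have h3 : 2 ≤ k := by
    rcases k with _ | _ | k
    · omega
    · omega
    · omega
  rw [hk, mul_comm]
  exact Nat.mul_le_mul_left _ h3

theorem exists_gens [Finite G] (A : Subgroup G) :
    ∃ S : Finset G, Subgroup.closure (S : Set G) = A ∧ 2 ^ S.card ≤ Nat.card A := by
  classical
  induction A using WellFoundedLT.induction with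
  | ind A ih =>
    by_cases h : A = ⊥
    · subst h
      exact ⟨∅, by simp, by simp⟩
    · obtain ⟨B, hB, hmax⟩ := Set.Finite.exists_maximal (s := {B : Subgroup G | B < A})
        (Set.toFinite _) ⟨⊥, bot_lt_iff_ne_bot.2 h⟩
      replace hB : B < A := hB
      obtain ⟨S, h1, h2⟩ := ih B hB
      obtain ⟨g, hg, hg'⟩ := SetLike.exists_of_lt hB
      refine ⟨insert g S, ?_, ?_⟩
      · have h3 : B ≤ Subgroup.closure (insert g S : Finset G) := by
          rw [← h1]
          exact Subgroup.closure_mono (by simp)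
        have h4 : Subgroup.closure (insert g S : Finset G) ≤ A := by
          rw [Subgroup.closure_le, Finset.coe_insert, Set.insert_subset_iff]
          exact ⟨hg, fun x hx => hB.le (h1 ▸ Subgroup.subset_closure hx)⟩
        by_contra hne
        exact hg' (hmax (lt_of_le_of_ne h4 hne) h3 (Subgroup.subset_closure (by simp)))
      · refine le_trans (Nat.pow_le_pow_right two_pos (Finset.card_insert_le _ _)) ?_
        rw [pow_succ']
        exact (Nat.mul_le_mul_left _ h2).trans (two_mul_card_le hB)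

theorem card_hom_le [Finite G] {D : Type} [Monoid D] [Finite D] {a b : ℕ}
    (ha : Nat.card G ≤ 2 ^ a) (hb : Nat.card D ≤ 2 ^ b) :
    Finite (G →* D) ∧ Nat.card (G →* D) ≤ 2 ^ (b * a) := by
  refine ⟨DFunLike.finite _, ?_⟩
  obtain ⟨S, h1, h2⟩ := exists_gens (⊤ : Subgroup G)
  rw [Subgroup.card_top] at h2
  have h3 : S.card ≤ a := (Nat.pow_le_pow_iff_right one_lt_two).1 (h2.trans ha)
  have h4 : Function.Injective fun (f : G →* D) (s : S) => f s := fun f g h =>
    MonoidHom.eq_of_eqOn_dense h1 fun x hx => congrFun h ⟨x, hx⟩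
  refine (Nat.card_le_card_of_injective _ h4).trans ?_
  rw [Nat.card_fun, Nat.card_eq_fintype_card (α := S), Fintype.card_coe, pow_mul]
  exact (Nat.pow_le_pow_left hb _).trans (Nat.pow_le_pow_right (pow_pos two_pos b) h3)

theorem card_mulAut_le [Finite G] {a : ℕ} (ha : Nat.card G ≤ 2 ^ a) :
    Nat.card (MulAut G) ≤ 2 ^ (a * a) := by
  obtain ⟨h1, h2⟩ := card_hom_le ha ha
  exact (Nat.card_le_card_of_injective (fun f : MulAut G => f.toMonoidHom)
    fun f g h => MulEquiv.toMonoidHom_injective h).trans h2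

theorem derived_bot [Finite G] [Group.IsSolvable G] {k : ℕ} (h : Nat.card G ≤ 2 ^ k) :
    derivedSeries G k = ⊥ := by
  have h1 : ∀ n, derivedSeries G n = ⊥ ∨ 2 ^ n * Nat.card (derivedSeries G n) ≤ Nat.card G := by
    intro n
    induction n with
    | zero => simp
    | succ n ih =>
      by_cases h0 : derivedSeries G n = ⊥
      · left
        rw [derivedSeries_succ, h0]
        simp
      · right
        have h2 := two_mul_card_le (Group.IsSolvable.commutator_lt_of_ne_bot h0)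
        rw [derivedSeries_succ, pow_succ, mul_assoc]
        exact (Nat.mul_le_mul_left _ h2).trans (ih.resolve_left h0)
  refine (h1 k).elim id fun h2 => Subgroup.card_le_one_iff_eq_bot _ |>.1 ?_
  exact Nat.le_of_mul_le_mul_left (by simpa using h2.trans h) (pow_pos two_pos k)

theorem derived_le [Finite G] [Group.IsSolvable G] {k : ℕ} (B : Subgroup G) [B.Normal]
    (h : B.index ≤ 2 ^ k) : derivedSeries G k ≤ B := by
  have := derived_bot (G := G ⧸ B) h
  rwa [← map_derivedSeries_eq (QuotientGroup.mk'_surjective B), Subgroup.map_eq_bot_iff,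
    QuotientGroup.ker_mk'] at this

/-- minimal normal subgroups -/
structure MinN (V : Subgroup G) : Prop where
  nor : V.Normal
  ne : V ≠ ⊥
  min : ∀ N : Subgroup G, N.Normal → N ≤ V → N = ⊥ ∨ N = V

theorem exists_minN [Finite G] {D : Subgroup G} (hD : D.Normal) (h : D ≠ ⊥) :
    ∃ V ≤ D, MinN V := by
  obtain ⟨V, hV, hmin⟩ := Set.Finite.exists_minimal
    (s := {V : Subgroup G | V.Normal ∧ V ≠ ⊥ ∧ V ≤ D}) (Set.toFinite _) ⟨D, hD, h, le_rfl⟩
  refine ⟨V, hV.2.2, hV.1, hV.2.1, fun N h1 h2 => ?_⟩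
  by_cases h3 : N = ⊥
  · exact Or.inl h3
  · exact Or.inr (le_antisymm h2 (hmin ⟨h1, h3, h2.trans hV.2.2⟩ h2))

theorem MinN.comm [Group.IsSolvable G] {V : Subgroup G} (h : MinN V) : IsMulCommutative V := by
  have := h.nor
  have h1 := (h.min _ inferInstance (Group.IsSolvable.commutator_lt_of_ne_bot h.ne).le).resolve_right
    (Group.IsSolvable.commutator_lt_of_ne_bot h.ne).ne
  refine ⟨⟨fun a b => Subtype.ext ?_⟩⟩
  have h2 := Subgroup.commutator_mem_commutator a.2 b.2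
  rwa [h1, Subgroup.mem_bot, commutatorElement_eq_one_iff_mul_comm] at h2

theorem MinN.prime [Finite G] [Group.IsSolvable G] {V : Subgroup G} (h : MinN V) :
    ∃ p : ℕ, p.Prime ∧ p ∣ Nat.card V ∧ (∀ v : V, v ^ p = 1) ∧
      ∀ q : ℕ, q.Prime → q ∣ Nat.card V → q = p := by
  have := h.nor
  have := h.comm
  have h1 : Nat.card V ≠ 1 := fun e => h.ne (Subgroup.card_eq_one.1 e)
  obtain ⟨p, hp, hd⟩ := Nat.exists_prime_and_dvd h1
  have := Fact.mk hp
  obtain ⟨v, hv⟩ := exists_prime_orderOf_dvd_card' p hd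
  let N : Subgroup G := (powMonoidHom p : V →* V).ker.map V.subtype
  have h2 : N.Normal := ⟨by
    rintro _ ⟨w, hw, rfl⟩ g
    refine ⟨MulAut.conjNormal g w, ?_, rfl⟩
    have hw' : w ^ p = 1 := hw
    show (MulAut.conjNormal g w) ^ p = 1
    rw [← map_pow, hw', map_one]⟩
  have h3 : N = V := by
    refine (h.min N h2 (Subgroup.map_subtype_le _)).resolve_left fun e => ?_
    have h4 : (v : G) ∈ N := ⟨v, by
      show v ^ p = 1
      rw [← hv, pow_orderOf_eq_one], rfl⟩
    rw [e, Subgroup.mem_bot, OneMemClass.coe_eq_one] at h4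
    rw [h4, orderOf_one] at hv
    exact hp.one_lt.ne hv
  have h5 : ∀ w : V, w ^ p = 1 := fun w => by
    obtain ⟨u, hu, e⟩ := h3.ge w.2
    rw [← Subtype.ext e]
    exact hu
  refine ⟨p, hp, hd, h5, fun q hq hqd => ?_⟩
  have := Fact.mk hq
  obtain ⟨w, hw⟩ := exists_prime_orderOf_dvd_card' q hqd
  exact (Nat.prime_dvd_prime_iff_eq hq hp).1 (hw ▸ orderOf_dvd_of_pow_eq_one (h5 w))

end Pool.Agent.MP_adf6dd_al

end MrgPart2

-- ======== part 3: formerly Pool.Agent.MP_adf6dd_al.Lin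
section MrgPart3

set_option autoImplicit false

open scoped IsMulCommutative commutatorElement

namespace Pool.Agent.MP_adf6dd_al

variable {H : Type} [Group H] {X : Type} [AddCommGroup X]

theorem exists_pair [Finite H] [Group.IsSolvable H] : ∃ A E : Subgroup H, A.Normal ∧ E.Normal ∧
    A ≤ E ∧ ⁅E, E⁆ ≤ A ∧ E ≤ Subgroup.centralizer A ∧ Subgroup.centralizer E ≤ A := by
  obtain ⟨A, ⟨hA, hA'⟩, hAm⟩ := Set.Finite.exists_maximal
    (s := {A : Subgroup H | A.Normal ∧ A ≤ Subgroup.centralizer A}) (Set.toFinite _)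
    ⟨⊥, inferInstance, bot_le⟩
  obtain ⟨E, ⟨hE, h1, h2, h3⟩, hEm⟩ := Set.Finite.exists_maximal
    (s := {E : Subgroup H | E.Normal ∧ A ≤ E ∧ ⁅E, E⁆ ≤ A ∧ E ≤ Subgroup.centralizer A})
    (Set.toFinite _) ⟨A, hA, le_rfl, Subgroup.commutator_le_left _ _, hA'⟩
  refine ⟨A, E, hA, hE, h1, h2, h3, ?_⟩
  have h4 : E ⊓ Subgroup.centralizer E ≤ A :=
    hAm ⟨inferInstance, inf_le_right.trans (Subgroup.centralizer_le inf_le_left)⟩
      (le_inf h1 (Subgroup.le_centralizer_iff.1 h3))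
  by_contra hne
  obtain ⟨D, hD, h5, h6, h7⟩ := exists_layer A _ inferInstance hne
  have key : ∀ K L : Subgroup H, ⁅K, L⁆ ≤ A ↔ K.map (QuotientGroup.mk' A) ≤
      Subgroup.centralizer (L.map (QuotientGroup.mk' A)) := fun K L => by
    rw [← Subgroup.commutator_eq_bot_iff_le_centralizer, ← Subgroup.map_commutator,
      Subgroup.map_eq_bot_iff, QuotientGroup.ker_mk']
  have hs : ∀ K K' L : Subgroup H, ⁅K, L⁆ ≤ A → ⁅K', L⁆ ≤ A → ⁅L, K ⊔ K'⁆ ≤ A := by
    intro K K' L a b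
    rw [Subgroup.commutator_comm, key, Subgroup.map_sup]
    exact sup_le ((key _ _).1 a) ((key _ _).1 b)
  have h8 : ⁅D, E⁆ ≤ A := by
    rw [Subgroup.commutator_eq_bot_iff_le_centralizer.2 h5]
    exact bot_le
  have h9 : E ⊔ D ≤ E := hEm ⟨inferInstance, h1.trans le_sup_left,
    hs _ _ _ (hs _ _ _ h2 h8) (hs _ _ _ (by rwa [Subgroup.commutator_comm]) h7),
    sup_le h3 (h5.trans (Subgroup.centralizer_le h1))⟩ le_sup_left
  exact h6 ((le_inf (le_sup_right.trans h9) h5).trans h4)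

section
variable (ρ : H →* AddMonoid.End X) (R : Subring (AddMonoid.End X))
  (hc : ∀ a ∈ R, ∀ b ∈ R, a * b = b * a)

theorem rho_mul (g h : H) (x : X) : ρ (g * h) x = ρ g (ρ h x) := by
  rw [map_mul]; rfl

theorem rho_one (x : X) : ρ 1 x = x := by
  rw [map_one]; rfl

include hc in
theorem indep (Y : AddSubgroup X) (hY : ∀ c ∈ R, ∀ x ∈ Y, c x ∈ Y)
    (hz : ∀ c ∈ R, ∀ x ∈ Y, x ≠ 0 → c x = 0 → ∀ z ∈ Y, c z = 0) (T W : Subgroup H)
    (hT : ∀ g ∈ T, ∀ x ∈ Y, ρ g x ∈ Y) (hWT : W ≤ T)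
    (hW : ∀ y ∈ W, ∀ c ∈ R, ρ y * c = c * ρ y) (s : Finset H) :
    (∀ g ∈ s, g ∈ T ∧ ∀ y ∈ W, ρ ⁅y, g⁆ ∈ R) →
    (∀ g ∈ s, ∀ k ∈ s, (∀ y ∈ W, ∀ x ∈ Y, ρ ⁅y, g⁆ x = ρ ⁅y, k⁆ x) → g = k) →
    ∀ c : H → AddMonoid.End X, (∀ g ∈ s, c g ∈ R) → (∀ x ∈ Y, ∑ g ∈ s, c g (ρ g x) = 0) →
      ∀ g ∈ s, ∀ x ∈ Y, c g x = 0 := by
  classical
  induction s using Finset.induction_on with
  | empty => simp
  | @insert k s hk ih =>
    intro h1 h2 c h3 h4
    have hk1 := h1 k (Finset.mem_insert_self _ _)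
    have hk3 := h3 k (Finset.mem_insert_self _ _)
    have h5 : ∀ g ∈ s, ∀ x ∈ Y, c g x = 0 := by
      intro g hg
      have hg' := Finset.mem_insert_of_mem (b := k) hg
      have h6 : ¬ ∀ y ∈ W, ∀ x ∈ Y, ρ ⁅y, g⁆ x = ρ ⁅y, k⁆ x := fun h =>
        hk (h2 g hg' k (Finset.mem_insert_self _ _) h ▸ hg)
      push Not at h6
      obtain ⟨y, hy, x, hx, h6⟩ := h6
      have h7 := ih (fun g hg => h1 g (Finset.mem_insert_of_mem hg))
        (fun g hg k hk => h2 g (Finset.mem_insert_of_mem hg) k (Finset.mem_insert_of_mem hk))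
        (fun g => c g * (ρ ⁅y, g⁆ - ρ ⁅y, k⁆))
        (fun g hg => R.mul_mem (h3 g (Finset.mem_insert_of_mem hg))
          (R.sub_mem ((h1 g (Finset.mem_insert_of_mem hg)).2 y hy) (hk1.2 y hy)))
        (fun z hz => by
          have e1 := congrArg (ρ y) (h4 _ (hT _ (T.inv_mem (hWT hy)) z hz))
          have e2 := congrArg (ρ ⁅y, k⁆) (h4 z hz)
          rw [map_sum, map_zero] at e1 e2
          have e3 : ∑ g ∈ insert k s, (c g * (ρ ⁅y, g⁆ - ρ ⁅y, k⁆)) (ρ g z) = 0 := by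
            rw [← sub_zero (0 : X)]
            nth_rewrite 1 [← e1]
            rw [← e2, ← Finset.sum_sub_distrib]
            refine Finset.sum_congr rfl fun g hg => ?_
            have a1 := DFunLike.congr_fun (hW y hy _ (h3 g hg)) (ρ g (ρ y⁻¹ z))
            have a2 := DFunLike.congr_fun (hc _ (hk1.2 y hy) _ (h3 g hg)) (ρ g z)
            have a3 : ρ y (ρ g (ρ y⁻¹ z)) = ρ ⁅y, g⁆ (ρ g z) := by
              simp only [← rho_mul, commutatorElement_def, mul_assoc,
                inv_mul_cancel, mul_one]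
            change ρ y (c g (ρ g (ρ y⁻¹ z))) = c g (ρ y (ρ g (ρ y⁻¹ z))) at a1
            change ρ ⁅y, k⁆ (c g (ρ g z)) = c g (ρ ⁅y, k⁆ (ρ g z)) at a2
            rw [a1, a2, a3, ← map_sub (c g)]
            rfl
          rw [Finset.sum_insert hk, sub_self, mul_zero] at e3
          simpa using e3) g hg x hx
      exact hz _ (h3 g hg') _ (hY _ (R.sub_mem ((h1 g hg').2 y hy) (hk1.2 y hy)) x hx)
        (sub_ne_zero.2 h6) h7
    intro g hg x hx
    rcases Finset.mem_insert.1 hg with rfl | hg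
    · have := h4 _ (hT _ (T.inv_mem hk1.1) x hx)
      rw [Finset.sum_insert hk, Finset.sum_eq_zero (fun a ha => h5 a ha _
        (hT _ (h1 a (Finset.mem_insert_of_mem ha)).1 _ (hT _ (T.inv_mem hk1.1) x hx))),
        add_zero, ← rho_mul, mul_inv_cancel, rho_one] at this
      exact this
    · exact h5 g hg x hx

include hc in
theorem indep_card [Finite X] {L : ℕ} (hL : Nat.card X ≤ 2 ^ L) (Y : AddSubgroup X)
    {x : X} (hx : x ∈ Y) (hx0 : x ≠ 0) (hY : ∀ c ∈ R, ∀ x ∈ Y, c x ∈ Y)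
    (hz : ∀ c ∈ R, ∀ x ∈ Y, x ≠ 0 → c x = 0 → ∀ z ∈ Y, c z = 0) (T W : Subgroup H)
    (hT : ∀ g ∈ T, ∀ x ∈ Y, ρ g x ∈ Y) (hWT : W ≤ T)
    (hW : ∀ y ∈ W, ∀ c ∈ R, ρ y * c = c * ρ y) (s : Finset H)
    (h1 : ∀ g ∈ s, g ∈ T ∧ ∀ y ∈ W, ρ ⁅y, g⁆ ∈ R)
    (h2 : ∀ g ∈ s, ∀ k ∈ s, (∀ y ∈ W, ∀ x ∈ Y, ρ ⁅y, g⁆ x = ρ ⁅y, k⁆ x) → g = k) :
    s.card ≤ L * L := by
  classical
  obtain ⟨hf, h3⟩ := card_hom_le (G := Multiplicative Y) (D := Multiplicative X) (a := L) (b := L)
    ((AddSubgroup.card_le_card_addGroup Y).trans hL) hL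
  let F : s.powerset → (Multiplicative Y →* Multiplicative X) := fun t =>
    AddMonoidHom.toMultiplicative (∑ g ∈ t.1, (ρ g : X →+ X).comp Y.subtype)
  have h4 : Function.Injective F := by
    rintro ⟨t, ht⟩ ⟨t', ht'⟩ h
    rw [Finset.mem_powerset] at ht ht'
    have h5 := AddMonoidHom.toMultiplicative.injective h
    have h6 := indep ρ R hc Y hY hz T W hT hWT hW s h1 h2
      (fun g => (if g ∈ t then 1 else 0) - (if g ∈ t' then 1 else 0))
      (fun g _ => R.sub_mem (by split_ifs; exacts [R.one_mem, R.zero_mem])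
        (by split_ifs; exacts [R.one_mem, R.zero_mem]))
      (fun z hz => by
        have e := DFunLike.congr_fun h5 ⟨z, hz⟩
        simp only [AddMonoidHom.finsetSum_apply, AddMonoidHom.comp_apply,
          AddSubgroup.subtype_apply] at e
        have e1 : ∀ u ⊆ s, ∑ g ∈ s, (if g ∈ u then (1 : AddMonoid.End X) else 0) (ρ g z) =
            ∑ g ∈ u, ρ g z := fun u hu => by
          rw [← Finset.sum_subset hu (fun g _ hg => by rw [if_neg hg]; rfl)]
          exact Finset.sum_congr rfl fun g hg => by rw [if_pos hg]; rfl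
        have e2 := e1 t ht
        have e3 := e1 t' ht'
        rw [← sub_eq_zero] at e
        refine Eq.trans ?_ e
        refine Eq.trans ?_ (congrArg₂ (· - ·) e2 e3)
        rw [← Finset.sum_sub_distrib]
        rfl)
    refine Subtype.ext (Finset.ext fun g => ?_)
    by_cases hg : g ∈ s
    · have h7 := h6 g hg x hx
      by_contra hne
      by_cases a : g ∈ t <;> by_cases b : g ∈ t' <;> simp [a, b, hx0] at hne h7
      exact hx0 (neg_eq_zero.1 h7)
    · exact iff_of_false (fun a => hg (ht a)) fun a => hg (ht' a)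
  have h5 := (Nat.card_le_card_of_injective F h4).trans h3
  rw [Nat.card_eq_fintype_card, Fintype.card_coe, Finset.card_powerset] at h5
  exact (Nat.pow_le_pow_iff_right one_lt_two).1 h5

/-- the annihilator of a point -/
def Ann (x : X) : Set (AddMonoid.End X) := {c | c ∈ R ∧ c x = 0}

/-- points with an annihilator of maximal size -/
def Mx (x : X) : Prop := x ≠ 0 ∧ ∀ z ≠ 0, (Ann R z).ncard ≤ (Ann R x).ncard

variable {R}

theorem ann_finite [Finite X] (x : X) : (Ann R x).Finite :=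
  have : Finite (AddMonoid.End X) := DFunLike.finite _
  Set.toFinite _

theorem Mx.eq [Finite X] {x z : X} (h : Mx R x) (hz : z ≠ 0) (hs : Ann R x ⊆ Ann R z) :
    Ann R x = Ann R z := Set.eq_of_subset_of_ncard_le hs (h.2 z hz) (ann_finite z)

include hc in
theorem Mx.inj [Finite X] {x : X} (h : Mx R x) {c d : AddMonoid.End X} (h1 : c ∈ R) (h2 : d ∈ R)
    (h3 : c (d x) = 0) : c x = 0 ∨ d x = 0 := by
  refine or_iff_not_imp_right.2 fun h4 => ?_
  have h5 := h.eq h4 fun e he => ⟨he.1, by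
    have := DFunLike.congr_fun (hc _ he.1 _ h2) x
    change e (d x) = d (e x) at this
    rw [this, he.2, map_zero]⟩
  exact (h5.ge ⟨h1, h3⟩).2

include hc in
theorem ann_sep [Finite X] {k : X} (hk : Mx R k) (J : Finset X)
    (hJ : ∀ x ∈ J, Mx R x ∧ Ann R x ≠ Ann R k) : ∃ c ∈ R, (∀ x ∈ J, c x = 0) ∧ c k ≠ 0 := by
  classical
  induction J using Finset.induction_on with
  | empty => exact ⟨1, R.one_mem, by simp, hk.1⟩
  | @insert x J _ ih =>
    obtain ⟨c, h1, h2, h3⟩ := ih fun z hz => hJ z (Finset.mem_insert_of_mem hz)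
    obtain ⟨h4, h5⟩ := hJ x (Finset.mem_insert_self _ _)
    obtain ⟨d, h6, h7⟩ := Set.not_subset.1 fun h => h5 (h4.eq hk.1 h)
    refine ⟨c * d, R.mul_mem h1 h6.1, fun z hz => ?_, fun h => ?_⟩
    · rcases Finset.mem_insert.1 hz with rfl | hz
      · show c (d z) = 0
        rw [h6.2, map_zero]
      · rw [hc _ h1 _ h6.1]
        show d (c z) = 0
        rw [h2 z hz, map_zero]
    · exact (hk.inj hc h1 h6.1 h).elim h3 fun h => h7 ⟨h6.1, h⟩

include hc in
theorem ann_chain [Finite X] (J : Finset X) (hJ : ∀ x ∈ J, Mx R x)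
    (hi : ∀ x ∈ J, ∀ z ∈ J, Ann R x = Ann R z → x = z) :
    ∃ (y : X) (s : Finset X), (∀ c ∈ R, c y = 0 ↔ ∀ x ∈ J, c x = 0) ∧ s.card = J.card ∧
      (∀ z ∈ s, (Ann R y).ncard < (Ann R z).ncard) ∧
      ∀ x ∈ s, ∀ z ∈ s, (Ann R x).ncard = (Ann R z).ncard → x = z := by
  classical
  induction J using Finset.induction_on with
  | empty => exact ⟨0, ∅, by simp, rfl, by simp, by simp⟩
  | @insert k J hk ih =>
    obtain ⟨y, s, h1, h2, h3, h4⟩ := ih (fun x hx => hJ x (Finset.mem_insert_of_mem hx))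
      fun x hx z hz => hi x (Finset.mem_insert_of_mem hx) z (Finset.mem_insert_of_mem hz)
    have hk' := hJ k (Finset.mem_insert_self _ _)
    obtain ⟨c, c1, c2, c3⟩ := ann_sep hc hk' J fun x hx => ⟨hJ x (Finset.mem_insert_of_mem hx),
      fun e => hk (hi x (Finset.mem_insert_of_mem hx) k (Finset.mem_insert_self _ _) e ▸ hx)⟩
    have c4 := (h1 c c1).2 c2
    have h5 : ∀ d ∈ R, d (y + k) = 0 ↔ d k = 0 ∧ d y = 0 := by
      intro d hd
      refine ⟨fun h => ?_, fun h => by rw [map_add, h.1, h.2, add_zero]⟩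
      have e1 := DFunLike.congr_fun (hc _ c1 _ hd) y
      change c (d y) = d (c y) at e1
      have e2 := congrArg c h
      rw [map_add, map_add, e1, c4, map_zero, zero_add, map_zero] at e2
      have e3 := (hk'.inj hc c1 hd e2).resolve_left c3
      rw [map_add, e3, add_zero] at h
      exact ⟨e3, h⟩
    have h6 : (Ann R (y + k)).ncard < (Ann R y).ncard :=
      Set.ncard_lt_ncard ⟨fun d hd => ⟨hd.1, ((h5 d hd.1).1 hd.2).2⟩,
        fun h => c3 ((h5 c c1).1 (h ⟨c1, c4⟩).2).1⟩ (ann_finite y)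
    have h7 : y ∉ s := fun h => lt_irrefl _ (h3 y h)
    refine ⟨y + k, insert y s, fun d hd => ?_, ?_, fun z hz => ?_, fun x hx z hz e => ?_⟩
    · rw [h5 d hd, h1 d hd, Finset.forall_mem_insert]
    · rw [Finset.card_insert_of_notMem h7, Finset.card_insert_of_notMem hk, h2]
    · rcases Finset.mem_insert.1 hz with rfl | hz
      exacts [h6, h6.trans (h3 z hz)]
    · rcases Finset.mem_insert.1 hz with a | a <;> rcases Finset.mem_insert.1 hx with b | b
      exacts [b.trans a.symm, absurd (a ▸ e) (h3 x b).ne', absurd (b ▸ e) (h3 z a).ne,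
        h4 x b z a e]

variable (hj : ∀ h : H, ∀ c ∈ R, ρ h * c * ρ h⁻¹ ∈ R)

include hj in
theorem ann_sub (h : H) {x z : X} (hs : Ann R x ⊆ Ann R z) : Ann R (ρ h x) ⊆ Ann R (ρ h z) := by
  intro c hc
  have h1 := hs (a := ρ h⁻¹ * c * ρ h⁻¹⁻¹) ⟨hj _ _ hc.1, by
    show ρ h⁻¹ (c (ρ h⁻¹⁻¹ x)) = 0
    rw [inv_inv, hc.2, map_zero]⟩
  have h2 : ρ h⁻¹ (c (ρ h⁻¹⁻¹ z)) = 0 := h1.2
  have h3 := congrArg (ρ h) h2
  rw [← rho_mul, mul_inv_cancel, rho_one, inv_inv, map_zero] at h3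
  exact ⟨hc.1, h3⟩

include hj in
theorem ann_card [Finite X] (h : H) (x : X) : (Ann R (ρ h x)).ncard = (Ann R x).ncard := by
  have key : ∀ (h : H) (x : X), (Ann R x).ncard ≤ (Ann R (ρ h x)).ncard := fun h x =>
    Set.ncard_le_ncard_of_injOn (fun c => ρ h * c * ρ h⁻¹) (fun c hc => ⟨hj _ _ hc.1, by
      show ρ h (c (ρ h⁻¹ (ρ h x))) = 0
      rw [← rho_mul ρ h⁻¹, inv_mul_cancel, rho_one, hc.2, map_zero]⟩) (fun c _ d _ e => by
      have := congrArg (fun u => ρ h⁻¹ * u * ρ h) e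
      simpa only [← mul_assoc, ← map_mul, inv_mul_cancel, map_one, one_mul, mul_assoc _ (ρ h⁻¹),
        mul_one] using this) (ann_finite _)
  refine le_antisymm ?_ (key h x)
  have := key h⁻¹ (ρ h x)
  rwa [← rho_mul, inv_mul_cancel, rho_one] at this

end

end Pool.Agent.MP_adf6dd_al

end MrgPart3

-- ======== part 4: formerly Pool.Agent.MP_adf6dd_al.Lin2
section MrgPart4

set_option autoImplicit false

open scoped IsMulCommutative commutatorElement

namespace Pool.Agent.MP_adf6dd_al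

variable {H : Type} [Group H] {X : Type} [AddCommGroup X]

theorem core_index [Finite H] (T : Subgroup H) {K : ℕ} (h : T.index ≤ K) :
    T.normalCore.index ≤ 2 ^ (K * K) := by
  rw [Subgroup.normalCore_eq_ker, Subgroup.index_ker]
  refine (Subgroup.card_le_card_group _).trans ((Nat.card_le_card_of_injective
    (fun (f : Equiv.Perm (H ⧸ T)) (x : H ⧸ T) => f x) DFunLike.coe_injective).trans ?_)
  rw [Nat.card_fun, pow_mul]
  exact (Nat.pow_le_pow_left (h.trans Nat.lt_two_pow_self.le) _).trans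
    (Nat.pow_le_pow_right (pow_pos two_pos K) h)

theorem exists_stab [Finite H] (A E : Subgroup H) [A.Normal] [E.Normal] :
    ∃ S : Subgroup H, S.Normal ∧ (∀ g, g ∈ S ↔ ∀ y ∈ E, ⁅y, g⁆ ∈ A) ∧
      ∀ k, A.relIndex E ≤ 2 ^ k → S.index ≤ 2 ^ (k * k) := by
  have : (E.map (QuotientGroup.mk' A)).Normal :=
    Subgroup.Normal.map inferInstance _ (QuotientGroup.mk'_surjective A)
  refine ⟨((MulAut.conjNormal (H := E.map (QuotientGroup.mk' A))).comp
    (QuotientGroup.mk' A)).ker, inferInstance, fun g => ?_, fun k hk => ?_⟩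
  · have key : ∀ y : H, ⁅y, g⁆ ∈ A ↔
        (g : H ⧸ A) * (y : H ⧸ A) * (g : H ⧸ A)⁻¹ = (y : H ⧸ A) := fun y => by
      rw [← QuotientGroup.eq_one_iff, ← QuotientGroup.mk'_apply, map_commutatorElement,
        commutatorElement_eq_one_iff_mul_comm, mul_inv_eq_iff_eq_mul, eq_comm]
      rfl
    rw [MonoidHom.mem_ker]
    constructor
    · intro h y hy
      have := congrArg Subtype.val (DFunLike.congr_fun h ⟨_, y, hy, rfl⟩)
      exact (key y).2 this
    · intro h
      ext1 ⟨_, y, hy, rfl⟩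
      exact Subtype.ext ((key y).1 (h y hy))
  · rw [Subgroup.index_ker]
    refine (Subgroup.card_le_card_group _).trans (card_mulAut_le ?_)
    rwa [← Subgroup.relIndex_ker, QuotientGroup.ker_mk']

theorem lin [Finite H] [Group.IsSolvable H] [Finite X] [Nontrivial X]
    (ρ : H →* AddMonoid.End X) (hρ : Function.Injective ρ)
    (hs : ∀ x ≠ 0, ∀ Z : AddSubgroup X, (∀ h, ρ h x ∈ Z) → Z = ⊤) {K L l : ℕ}
    (hK : ∀ s : Finset X, (∀ x ∈ s, ∀ z ∈ s, ∀ h, ρ h x = z → x = z) → s.card ≤ K)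
    (hL : Nat.card X ≤ 2 ^ L) (hl : L ≤ 2 ^ l) :
    ∃ A : Subgroup H, A.Normal ∧ A ≤ Subgroup.centralizer A ∧
      A.index ≤ 2 ^ (2 * l * K + (K * K + 2 * l * K * (2 * l * K))) := by
  classical
  obtain ⟨A, E, hA, hE, hAE, hEE, hEA, hCE⟩ := exists_pair (H := H)
  refine ⟨A, hA, hAE.trans hEA, ?_⟩
  let R := Subring.closure (ρ '' A)
  have hRA : ∀ a ∈ A, ρ a ∈ R := fun a ha => Subring.subset_closure ⟨a, ha, rfl⟩
  have hW : ∀ y ∈ E, ∀ c ∈ R, ρ y * c = c * ρ y := fun y hy c hc =>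
    (Subring.closure_le (t := Subring.centralizer {ρ y})).2 (by
      rintro _ ⟨a, ha, rfl⟩ _ rfl
      rw [← map_mul, ← map_mul, hEA hy a ha]) hc _ rfl
  have hc : ∀ a ∈ R, ∀ b ∈ R, a * b = b * a := fun a ha b hb =>
    (Subring.closure_le (t := Subring.centralizer {a})).2 (by
      rintro _ ⟨y, hy, rfl⟩ _ rfl
      exact (hW y (hAE hy) _ ha).symm) hb _ rfl
  have hj : ∀ h : H, ∀ c ∈ R, ρ h * c * ρ h⁻¹ ∈ R := by
    intro h c hc
    induction hc using Subring.closure_induction with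
    | mem x hx =>
      obtain ⟨a, ha, rfl⟩ := hx
      rw [← map_mul, ← map_mul]
      exact hRA _ (hA.conj_mem a ha h)
    | zero => rw [mul_zero, zero_mul]; exact R.zero_mem
    | one => rw [mul_one, ← map_mul, mul_inv_cancel, map_one]; exact R.one_mem
    | add x y _ _ hx hy => rw [mul_add, add_mul]; exact R.add_mem hx hy
    | neg x _ hx => rw [mul_neg, neg_mul]; exact R.neg_mem hx
    | mul x y _ _ hx hy =>
      have := R.mul_mem hx hy
      rwa [mul_assoc, ← mul_assoc (ρ h⁻¹), ← mul_assoc (ρ h⁻¹), ← map_mul, inv_mul_cancel,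
        map_one, one_mul, ← mul_assoc, mul_assoc _ x] at this
  obtain ⟨x, hx0, hxm⟩ := Set.exists_max_image {x : X | x ≠ 0} (fun x => (Ann R x).ncard)
    (Set.toFinite _) (exists_ne 0)
  have hx : Mx R x := ⟨hx0, hxm⟩
  have hne : ∀ h : H, ρ h x ≠ 0 := fun h e => hx.1 (by
    have := congrArg (ρ h⁻¹) e
    rwa [← rho_mul, inv_mul_cancel, rho_one, map_zero] at this)
  have hxh : ∀ h : H, Mx R (ρ h x) := fun h =>
    ⟨hne h, fun z hz => (ann_card ρ hj h x).symm ▸ hx.2 z hz⟩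
  let Y : AddSubgroup X :=
    { carrier := {z | Ann R x ⊆ Ann R z}
      zero_mem' := fun c hc => ⟨hc.1, map_zero c⟩
      add_mem' := fun {a b} ha hb c hc => ⟨hc.1, by rw [map_add, (ha hc).2, (hb hc).2, add_zero]⟩
      neg_mem' := fun {a} ha c hc => ⟨hc.1, by rw [map_neg, (ha hc).2, neg_zero]⟩ }
  have hxY : x ∈ Y := fun _ h => h
  have hcomm : ∀ c : AddMonoid.End X, (∀ d ∈ R, c * d = d * c) → ∀ z ∈ Y, c z ∈ Y :=
    fun c h z hz d hd => ⟨hd.1, by
      have := DFunLike.congr_fun (h d hd.1) z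
      change c (d z) = d (c z) at this
      rw [← this, (hz hd).2, map_zero]⟩
  let T : Subgroup H :=
    { carrier := {h | ∀ z, z ∈ Y ↔ ρ h z ∈ Y}
      one_mem' := fun z => by rw [rho_one]
      mul_mem' := fun {a b} ha hb z => by rw [rho_mul, ← ha, ← hb]
      inv_mem' := fun {a} ha z => by rw [ha (ρ a⁻¹ z), ← rho_mul, mul_inv_cancel, rho_one] }
  have hET : E ≤ T := fun y hy z => ⟨hcomm _ (hW y hy) z, fun h => by
    have := hcomm _ (hW _ (E.inv_mem hy)) _ h
    rwa [← rho_mul, inv_mul_cancel, rho_one] at this⟩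
  have hb : T.index ≤ K := by
    have := Fintype.ofFinite (H ⧸ T)
    have h1 : ∀ q q' : H ⧸ T, Ann R (ρ q.out x) = Ann R (ρ q'.out x) → q = q' := by
      have key : ∀ g k : H, Ann R (ρ g x) = Ann R (ρ k x) → ∀ z ∈ Y, ρ (g⁻¹ * k) z ∈ Y := by
        intro g k e z hz
        have h2 := ann_sub ρ hj k hz
        rw [← e] at h2
        have h3 := ann_sub ρ hj g⁻¹ h2
        rwa [← rho_mul, ← rho_mul, inv_mul_cancel, rho_one] at h3
      intro q q' e
      rw [← q.out_eq', ← q'.out_eq', QuotientGroup.eq]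
      refine fun z => ⟨key _ _ e z, fun h => ?_⟩
      have := key _ _ e.symm _ h
      rwa [← rho_mul, show q'.out⁻¹ * q.out * (q.out⁻¹ * q'.out) = 1 by group, rho_one] at this
    obtain ⟨y, s, -, h2, -, h3⟩ := ann_chain hc (Finset.univ.image fun q : H ⧸ T => ρ q.out x)
      (fun z hz => by
        obtain ⟨q, -, rfl⟩ := Finset.mem_image.1 hz
        exact hxh _)
      (fun z hz w hw e => by
        obtain ⟨q, -, rfl⟩ := Finset.mem_image.1 hz
        obtain ⟨q', -, rfl⟩ := Finset.mem_image.1 hw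
        rw [h1 q q' e])
    rw [Finset.card_image_of_injective _ (fun q q' e => h1 q q' (congrArg (Ann R) e)),
      Finset.card_univ, ← Nat.card_eq_fintype_card] at h2
    rw [Subgroup.index_eq_card, ← h2]
    exact hK s fun z hz w hw h e => h3 z hz w hw (by rw [← e, ann_card ρ hj])
  obtain ⟨S, hS, hS1, hS2⟩ := exists_stab A E
  let Γ := T.normalCore ⊓ S
  have hEΓ : E ≤ Γ := le_inf (Subgroup.normal_le_normalCore.2 hET) fun g hg =>
    (hS1 g).2 fun y hy => hEE (Subgroup.commutator_mem_commutator hy hg)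
  let sig : H → E → Y → X := fun g y z => ρ ⁅(y : H), g⁆ z
  let I := (Set.toFinite (Γ : Set H)).toFinset.image sig
  have hI : I.card ≤ 2 ^ (2 * l) := by
    obtain ⟨u, h1, h2, h3⟩ := Finset.exists_subset_injOn_image_eq_of_surjOn (f := sig) Γ I
      (fun w hw => by
        obtain ⟨g, hg, rfl⟩ := Finset.mem_image.1 hw
        exact ⟨g, by simpa using hg, rfl⟩)
    rw [← h3, two_mul, pow_add]
    refine Finset.card_image_le.trans ((indep_card ρ R hc hL Y hxY hx0
      (fun c h => hcomm c (hc c h)) (fun c h1 z h2 h3 h4 w hw => ?_) T E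
      (fun g hg z => (hg z).1) hET hW u (fun g hg => ⟨T.normalCore_le (h1 hg).1,
        fun y hy => hRA _ ((hS1 g).1 (h1 hg).2 y hy)⟩) fun g hg k hk e => h2 hg hk ?_).trans
      (Nat.mul_le_mul hl hl))
    · exact (hw ((hx.eq h3 h2).ge ⟨h1, h4⟩)).2
    · funext y z
      exact e y y.2 z z.2
  have hΓ : A.relIndex Γ ≤ 2 ^ (2 * l * K) := by
    have hN : Γ.Normal := inferInstance
    let F : Γ ⧸ A.subgroupOf Γ → H ⧸ T → I := fun q c =>
      ⟨sig (c.out⁻¹ * q.out * c.out), Finset.mem_image_of_mem _ (by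
        simpa using hN.conj_mem' _ q.out.2 _)⟩
    have hF : Function.Injective F := by
      intro q q' e
      rw [← q.out_eq', ← q'.out_eq', QuotientGroup.eq, Subgroup.mem_subgroupOf]
      refine hCE fun y hy => ?_
      have h1 := hs x hx0 (AddMonoidHom.eqLocus (ρ ⁅y⁻¹, (q.out : H)⁆ : X →+ X)
        (ρ ⁅y⁻¹, (q'.out : H)⁆)) fun h => by
          have h2 : (h : H ⧸ T).out⁻¹ * h ∈ T := by rw [← QuotientGroup.eq]; simp
          have h3 := congrFun (congrFun (congrArg Subtype.val (congrFun e (h : H ⧸ T)))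
            ⟨_, hE.conj_mem' _ (E.inv_mem hy) (h : H ⧸ T).out⟩) ⟨_, (h2 x).1 hxY⟩
          have h4 := congrArg (ρ (h : H ⧸ T).out) h3
          simp only [F, sig, ← rho_mul] at h4
          show ρ _ (ρ h x) = ρ _ (ρ h x)
          rw [← rho_mul, ← rho_mul]
          convert h4 using 3 <;> simp only [commutatorElement_def] <;> group
      have h5 := hρ (AddMonoidHom.eq_of_eqOn_top fun z _ => h1.ge (AddSubgroup.mem_top z))
      rw [Subgroup.coe_mul, Subgroup.coe_inv]
      simp only [commutatorElement_def] at h5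
      have h6 := congrArg (fun w => (q.out : H)⁻¹ * y * w * q'.out) h5
      simp only [mul_assoc, inv_inv, mul_inv_cancel_left, inv_mul_cancel_left, inv_mul_cancel,
        mul_one] at h6
      simpa only [mul_assoc] using h6
    refine (Nat.card_le_card_of_injective F hF).trans ?_
    rw [Nat.card_fun, Nat.card_eq_fintype_card (α := I), Fintype.card_coe, pow_mul]
    exact (Nat.pow_le_pow_left hI _).trans (Nat.pow_le_pow_right (pow_pos two_pos _) hb)
  rw [← Subgroup.relIndex_mul_index (hAE.trans hEΓ), pow_add, pow_add]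
  exact Nat.mul_le_mul hΓ (Subgroup.index_inf_le.trans (Nat.mul_le_mul (core_index T hb)
    (hS2 _ ((Subgroup.relIndex_le_of_le_right hEΓ Subgroup.index_ne_zero_of_finite).trans hΓ))))

end Pool.Agent.MP_adf6dd_al

end MrgPart4

-- ======== part 5: formerly Pool.Agent.MP_adf6dd_al.Size
section MrgPart5

set_option autoImplicit false

open scoped IsMulCommutative commutatorElement

namespace Pool.Agent.MP_adf6dd_al

variable {G : Type} [Group G]

theorem FB.orb [Finite G] [Group.IsSolvable G] {m : ℕ} (h : FB m G) {V : Subgroup G}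
    (hV : MinN V) (B : Subgroup G) (hB : B ≤ Subgroup.centralizer V) :
    Nat.card V ≤ Kc m * B.index := by
  classical
  have := hV.nor
  have := hV.comm
  have := finite_dual V
  obtain ⟨p, hp, -, h1, -⟩ := hV.prime
  let r : Setoid (V →* ℂˣ) := ⟨fun μ ν => ∃ x : G, cj x μ = ν, fun μ => ⟨1, cj_one μ⟩,
    fun ⟨x, hx⟩ => ⟨x⁻¹, by rw [← hx, ← cj_mul, mul_inv_cancel, cj_one]⟩,
    fun ⟨x, hx⟩ ⟨y, hy⟩ => ⟨x * y, by rw [cj_mul, hx, hy]⟩⟩
  have := Fintype.ofFinite (Quotient r)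
  have h2 := h.orbits (j := 1) hp V (fun μ v => by rw [pow_one, ← map_pow, h1, map_one])
    (Finset.univ.image fun q : Quotient r => q.out) fun μ hμ ν hν x hx => by
      obtain ⟨q, -, rfl⟩ := Finset.mem_image.1 hμ
      obtain ⟨q', -, rfl⟩ := Finset.mem_image.1 hν
      rw [(Quotient.out_equiv_out (s := r)).1 (show ∃ x : G, cj x q.out = q'.out from ⟨x, hx⟩)]
  rw [Finset.card_image_of_injective _ Quotient.out_injective, Finset.card_univ,
    ← Nat.card_eq_fintype_card] at h2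
  have h3 : Function.Surjective fun q : Quotient r × (G ⧸ B) => cj q.2.out⁻¹ q.1.out := by
    intro ν
    obtain ⟨x, hx⟩ := Quotient.mk_out (s := r) ν
    refine ⟨(Quotient.mk r ν, (x⁻¹ : G)), ?_⟩
    have h4 : ((x⁻¹ : G) : G ⧸ B).out⁻¹ * x⁻¹ ∈ B := by rw [← QuotientGroup.eq]; simp
    have h5 := cj_mul (((x⁻¹ : G) : G ⧸ B).out⁻¹ * x⁻¹) x (Quotient.mk r ν).out
    rw [inv_mul_cancel_right] at h5
    refine h5.trans (Eq.trans ?_ hx)
    congr 1
    ext1 v
    rw [cj_apply]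
    congr 1
    exact Subtype.ext (by rw [MulAut.conjNormal_apply, ← hB h4 v v.2, mul_inv_cancel_right])
  rw [← card_dual]
  refine (Nat.card_le_card_of_surjective _ h3).trans ?_
  rw [Nat.card_prod]
  exact Nat.mul_le_mul_right _ h2

theorem MinN.card_lt [Finite G] {V : Subgroup G} (hV : MinN V) : V.index < Nat.card G := by
  rw [← V.card_mul_index]
  exact lt_mul_of_one_lt_left (Nat.pos_of_ne_zero Subgroup.index_ne_zero_of_finite)
    ((Subgroup.one_lt_card_iff_ne_bot _).2 hV.ne)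

theorem size_aux {y : ℕ} (Q : ∀ (G : Type) [Group G], Prop)
    (hq : ∀ (G : Type) [Group G] [Finite G] (N : Subgroup G) [N.Normal], Q G → Q (G ⧸ N))
    (hy : ∀ (G : Type) [Group G] [Finite G] [Group.IsSolvable G], Q G → ∀ V : Subgroup G,
      MinN V → Nat.card V ≤ 2 ^ y) (P : Finset ℕ) (n : ℕ) :
    ∀ (G : Type) [Group G] [Finite G] [Group.IsSolvable G], Nat.card G < n → Q G →
      (Nat.card G).primeFactors ⊆ P → Nat.card G ≤ 2 ^ (y * ∑ p ∈ P, np p G) := by
  induction n with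
  | zero => intro G _ _ _ h; omega
  | succ n ih =>
    intro G _ _ _ hn hQ hP
    by_cases h0 : (⊤ : Subgroup G) = ⊥
    · rw [← Subgroup.card_top, h0, Subgroup.card_bot]
      exact Nat.one_le_two_pow
    obtain ⟨V, -, hV⟩ := exists_minN inferInstance h0
    have := hV.nor
    have := hV.comm
    obtain ⟨p, hp, hd, -⟩ := hV.prime
    have h1 := ih (G ⧸ V) (hV.card_lt.trans_le (Nat.lt_succ_iff.1 hn)) (hq G V hQ)
      ((Nat.primeFactors_mono V.index_dvd_card Nat.card_pos.ne').trans hP)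
    have h2 : ∑ p ∈ P, np p (G ⧸ V) < ∑ p ∈ P, np p G :=
      Finset.sum_lt_sum (fun q _ => np_quot_le q V) ⟨p, hP (Nat.mem_primeFactors.2
        ⟨hp, hd.trans V.card_subgroup_dvd_card, Nat.card_pos.ne'⟩), np_quot_lt hp V hd⟩
    rw [← V.card_mul_index]
    refine (Nat.mul_le_mul (hy G hQ V hV) h1).trans ?_
    rw [← pow_add, ← mul_one_add]
    exact Nat.pow_le_pow_right two_pos (Nat.mul_le_mul_left _ (by omega))

theorem size {y m r : ℕ} (Q : ∀ (G : Type) [Group G], Prop)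
    (hq : ∀ (G : Type) [Group G] [Finite G] (N : Subgroup G) [N.Normal], Q G → Q (G ⧸ N))
    (hy : ∀ (G : Type) [Group G] [Finite G] [Group.IsSolvable G], Q G → ∀ V : Subgroup G,
      MinN V → Nat.card V ≤ 2 ^ y) [Finite G] [Group.IsSolvable G] (hQ : Q G) (h : FB m G)
    (hr : (Nat.card G).primeFactors.card ≤ r) : Nat.card G ≤ 2 ^ (y * (r * Kc m)) := by
  refine (size_aux Q hq hy _ _ G (Nat.lt_succ_self _) hQ subset_rfl).trans
    (Nat.pow_le_pow_right two_pos (Nat.mul_le_mul_left _ ?_))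
  refine (Finset.sum_le_card_nsmul _ _ (Kc m) fun p hp =>
    h.np_le (Nat.prime_of_mem_primeFactors hp)).trans ?_
  exact Nat.mul_le_mul_right _ hr

theorem derived_succ_bot [Finite G] [Group.IsSolvable G] {k : ℕ} {B : Subgroup G} [B.Normal]
    (hB : B ≤ Subgroup.centralizer B) (h : B.index ≤ 2 ^ k) : derivedSeries G (k + 1) = ⊥ := by
  rw [derivedSeries_succ, eq_bot_iff, ← Subgroup.commutator_eq_bot_iff_le_centralizer.2 hB]
  exact Subgroup.commutator_mono (derived_le B h) (derived_le B h)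

/-- groups with an abelian normal subgroup of small index are small -/
theorem FB.ab [Finite G] [Group.IsSolvable G] {m k : ℕ} (h : FB m G) {B : Subgroup G}
    (hn : B.Normal) (hB : B ≤ Subgroup.centralizer B) (hk : B.index ≤ 2 ^ k) :
    Nat.card G ≤ 2 ^ ((Kc m + k) * ((k + 1) * (2 * m) * Kc m)) := by
  refine size (fun G _ => FB m G ∧ ∃ B : Subgroup G, B.Normal ∧ B ≤ Subgroup.centralizer B ∧
    B.index ≤ 2 ^ k) ?_ ?_ ⟨h, B, hn, hB, hk⟩ h (primes_le _ G h (derived_succ_bot hB hk))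
  · rintro G _ _ N _ ⟨h, B, hn, hB, hk⟩
    have hs := QuotientGroup.mk'_surjective N
    refine ⟨h.quot _ hs, B.map (QuotientGroup.mk' N), hn.map _ hs, ?_, (Nat.le_of_dvd
      (Nat.pos_of_ne_zero Subgroup.index_ne_zero_of_finite) (B.index_map_dvd hs)).trans hk⟩
    rw [← Subgroup.commutator_eq_bot_iff_le_centralizer] at hB ⊢
    rw [← Subgroup.map_commutator, hB, Subgroup.map_bot]
  · rintro G _ _ _ ⟨h, B, hn, hB, hk⟩ V hV
    have := hV.nor
    refine (h.orb hV B ?_).trans ?_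
    · rcases hV.min (B ⊓ V) inferInstance inf_le_right with e | e
      · rw [← Subgroup.commutator_eq_bot_iff_le_centralizer, eq_bot_iff, ← e]
        exact Subgroup.commutator_le_inf _ _
      · exact hB.trans (Subgroup.centralizer_le (show V ≤ B from inf_eq_right.1 e))
    · rw [pow_add]
      exact Nat.mul_le_mul Nat.lt_two_pow_self.le hk

theorem primes_all {m k : ℕ} (hk : ∀ (G : Type) [Group G] [Finite G] [Group.IsSolvable G],
    FB m G → ∀ V : Subgroup G, MinN V → derivedSeries G k ≤ Subgroup.centralizer V) {p : ℕ}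
    (hp : p.Prime) (n : ℕ) : ∀ (G : Type) [Group G] [Finite G] [Group.IsSolvable G],
      Nat.card G < n → FB m G → p ∣ Nat.card G → p ∣ (derivedSeries G (k + 1)).index := by
  induction n with
  | zero => intro G _ _ _ h; omega
  | succ n ih =>
    intro G _ _ _ hn h hd
    by_cases h0 : derivedSeries G (k + 1) = ⊥
    · rwa [h0, Subgroup.index_bot]
    obtain ⟨V, hVD, hV⟩ := exists_minN (derivedSeries_normal G _) h0
    have := hV.nor
    have := hV.comm
    have hs := QuotientGroup.mk'_surjective V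
    have h1 : p ∣ V.index := by
      by_contra h1
      rw [← V.card_mul_index] at hd
      obtain ⟨q, -, -, h2, h3⟩ := hV.prime
      obtain rfl := h3 p hp (((Nat.Prime.dvd_mul hp).1 hd).resolve_right h1)
      obtain ⟨e, he, he'⟩ := Nat.chineseRemainder ((Nat.Prime.coprime_iff_not_dvd hp).2 h1) 1 0
      obtain ⟨v, hv⟩ := (Subgroup.ne_bot_iff_exists_ne_one).1 hV.ne
      have := hasEnough V
      obtain ⟨lam, hl⟩ := CommGroup.exists_apply_ne_one_of_hasEnoughRootsOfUnity V ℂ hv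
      have hle : V ≤ derivedSeries G k := hVD.trans (derivedSeries_antitone G (Nat.le_succ k))
      obtain ⟨ψ, h4, -⟩ := canon_ext (V.subgroupOf (derivedSeries G k))
        (lam.comp (Subgroup.subgroupOfEquivOfLe hle).toMonoidHom) (N := p) (e := e)
        (fun x z => by
          congr 1
          refine Subtype.ext (Subtype.ext ?_)
          show (x : G) * z * (x : G)⁻¹ = z
          rw [mul_inv_eq_iff_eq_mul]
          exact (hk G h V hV x.2 _ z.2).symm)
        (fun z => by rw [← map_pow, MonoidHom.comp_apply, map_pow, h2, map_one]) he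
        ((Subgroup.relIndex_dvd_index_of_normal V _).trans (Nat.modEq_zero_iff_dvd.1 he'))
      have h5 : derivedSeries G (k + 1) ≤ ψ.ker.map (derivedSeries G k).subtype := by
        rw [derivedSeries_succ, Subgroup.commutator_le]
        intro a ha b hb
        refine ⟨⁅(⟨a, ha⟩ : derivedSeries G k), ⟨b, hb⟩⁆, ?_, rfl⟩
        rw [SetLike.mem_coe, MonoidHom.mem_ker, map_commutatorElement,
          commutatorElement_eq_one_iff_mul_comm, mul_comm]
      obtain ⟨w, hw, e1⟩ := h5 (hVD v.2)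
      have h6 : ψ ⟨v, hle v.2⟩ = lam v := h4 ⟨⟨v, hle v.2⟩, v.2⟩
      rw [show (⟨v, hle v.2⟩ : derivedSeries G k) = w from Subtype.ext e1.symm] at h6
      exact hl (h6.symm.trans hw)
    have h2 := ih (G ⧸ V) (hV.card_lt.trans_le (Nat.lt_succ_iff.1 hn)) (h.quot _ hs) h1
    rw [← map_derivedSeries_eq hs] at h2
    exact h2.trans (Subgroup.index_map_dvd _ hs)

end Pool.Agent.MP_adf6dd_al

end MrgPart5

-- ======== part 6: formerly Pool.Agent.MP_adf6dd_al.Min
section MrgPart6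

set_option autoImplicit false

open scoped IsMulCommutative commutatorElement

namespace Pool.Agent.MP_adf6dd_al

variable {G : Type} [Group G]

/-- the action on the linear characters of a normal subgroup -/
def dualAct (V : Subgroup G) [V.Normal] : G →* AddMonoid.End (Additive (V →* ℂˣ)) where
  toFun g := AddMonoidHom.mk' (fun μ => Additive.ofMul (cj g⁻¹ μ.toMul)) fun _ _ => rfl
  map_one' := by
    ext1 μ
    show Additive.ofMul (cj 1⁻¹ μ.toMul) = μ
    rw [inv_one, cj_one, ofMul_toMul]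
  map_mul' g h := by
    ext1 μ
    show Additive.ofMul (cj (g * h)⁻¹ μ.toMul) = Additive.ofMul (cj g⁻¹ (cj h⁻¹ μ.toMul))
    rw [mul_inv_rev, cj_mul]

theorem num1 {K l m : ℕ} (hK : 1 ≤ K) (hl : 1 ≤ l) (hm : m ≤ K) {k : ℕ}
    (hk : k ≤ 7 * (K * l) ^ 2) :
    K + (K + k) * ((k + 1) * (2 * m) * K) + 1 ≤ 130 * K ^ 6 * l ^ 4 := by
  have h1 : K ≤ (K * l) ^ 2 := (Nat.le_mul_of_pos_right K hl).trans (Nat.le_self_pow two_ne_zero _)
  have h2 : K + k ≤ 8 * (K * l) ^ 2 := by omega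
  have h3 : k + 1 ≤ 8 * (K * l) ^ 2 := by omega
  have h4 := Nat.mul_le_mul h2 (Nat.mul_le_mul_right K
    (Nat.mul_le_mul h3 (Nat.mul_le_mul_left 2 hm)))
  have h5 : K ≤ K ^ 6 * l ^ 4 :=
    (Nat.le_self_pow (by norm_num) _).trans (Nat.le_mul_of_pos_right _ (pow_pos hl _))
  have h6 : 8 * (K * l) ^ 2 * (8 * (K * l) ^ 2 * (2 * K) * K) = 128 * (K ^ 6 * l ^ 4) := by ring
  rw [mul_assoc 130]
  omega

theorem num2 (K : ℕ) {l : ℕ} (hl : 1 ≤ l) :
    2 * l * K + (K * K + 2 * l * K * (2 * l * K)) ≤ 7 * (K * l) ^ 2 := by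
  have h1 : K * l ≤ (K * l) ^ 2 := Nat.le_self_pow two_ne_zero _
  have h2 : K * K ≤ (K * l) ^ 2 := by
    rw [pow_two]
    exact Nat.mul_le_mul (Nat.le_mul_of_pos_right K hl) (Nat.le_mul_of_pos_right K hl)
  nlinarith

theorem num3 (l : ℕ) : l ^ 5 ≤ 3125 * 2 ^ l := by
  have h1 : l ≤ 5 * 2 ^ (l / 5) := by
    have := Nat.lt_two_pow_self (n := l / 5)
    omega
  refine (Nat.pow_le_pow_left h1 5).trans ?_
  rw [mul_pow, ← pow_mul]
  exact Nat.mul_le_mul (by norm_num) (Nat.pow_le_pow_right two_pos (Nat.div_mul_le_self _ _))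

theorem le_Kc (m : ℕ) : m ≤ Kc m := Nat.le_mul_of_pos_right _ (by positivity)

theorem FB.min [Finite G] [Group.IsSolvable G] {m : ℕ} (h : FB m G) {V : Subgroup G}
    (hV : MinN V) : Nat.card V ≤ 2 ^ (130 * Kc m ^ 6 * (812500 * Kc m ^ 6) ^ 4) ∧
      derivedSeries G (7 * (Kc m * (812500 * Kc m ^ 6)) ^ 2 + 1) ≤ Subgroup.centralizer V := by
  classical
  have := hV.nor
  have := hV.comm
  have := finite_dual V
  have := hasEnough V
  obtain ⟨p, hp, -, h1, -⟩ := hV.prime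
  have hK : 1 ≤ Kc m := h.one_le.trans (le_Kc m)
  have hV1 := (Subgroup.one_lt_card_iff_ne_bot _).2 hV.ne
  have : Nontrivial (Additive (V →* ℂˣ)) :=
    Finite.one_lt_card_iff_nontrivial.1 ((card_dual V).symm ▸ hV1 : 1 < Nat.card (V →* ℂˣ))
  have hker : (dualAct V).ker ≤ Subgroup.centralizer V := fun g hg v hv => by
    have h2 := (CommGroup.forall_apply_eq_apply_iff (G := V) (M := ℂ)).1 fun μ : V →* ℂˣ =>
      (DFunLike.congr_fun (show cj g⁻¹ μ = μ from
        congrArg Additive.toMul (DFunLike.congr_fun hg (Additive.ofMul μ))) ⟨v, hv⟩ :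
        μ (MulAut.conjNormal g⁻¹ ⟨v, hv⟩) = μ ⟨v, hv⟩)
    have h3 : g⁻¹ * v * g⁻¹⁻¹ = v := congrArg Subtype.val h2
    rw [inv_inv, mul_assoc, inv_mul_eq_iff_eq_mul] at h3
    exact h3
  have hs := QuotientGroup.mk'_surjective (dualAct V).ker
  set L := Nat.log 2 (Nat.card V) + 1 with hL
  set l := Nat.log 2 L + 1 with hl
  have hL1 : Nat.card V ≤ 2 ^ L := (Nat.lt_pow_succ_log_self one_lt_two _).le
  obtain ⟨A, hA, hA1, hA2⟩ := lin (X := Additive (V →* ℂˣ))
    (QuotientGroup.lift (dualAct V).ker (dualAct V) le_rfl)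
    (fun a b => QuotientGroup.induction_on a fun a => QuotientGroup.induction_on b fun b e => by
      have e' : dualAct V a = dualAct V b := e
      rw [QuotientGroup.eq, MonoidHom.mem_ker, map_mul, ← e', ← map_mul, inv_mul_cancel, map_one])
    (K := Kc m) (L := L) (l := l)
    (fun μ hμ Z hZ => by
      let N : Subgroup G :=
        { carrier := {v | ∃ hv : v ∈ V, ∀ g : G, μ.toMul (MulAut.conjNormal g ⟨v, hv⟩) = 1}
          one_mem' := ⟨V.one_mem, fun g => by
            rw [show (⟨1, V.one_mem⟩ : V) = 1 from rfl, map_one, map_one]⟩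
          mul_mem' := fun {a b} ⟨ha, ha'⟩ ⟨hb, hb'⟩ => ⟨V.mul_mem ha hb, fun g => by
            rw [show (⟨a * b, V.mul_mem ha hb⟩ : V) = ⟨a, ha⟩ * ⟨b, hb⟩ from rfl, map_mul,
              map_mul, ha', hb', one_mul]⟩
          inv_mem' := fun {a} ⟨ha, ha'⟩ => ⟨V.inv_mem ha, fun g => by
            rw [show (⟨a⁻¹, V.inv_mem ha⟩ : V) = (⟨a, ha⟩ : V)⁻¹ from rfl, map_inv, map_inv, ha',
              inv_one]⟩ }
      have hN : N.Normal := ⟨fun a ⟨ha, ha'⟩ x => ⟨hV.nor.conj_mem a ha x, fun g => by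
        rw [← ha' (g * x), map_mul]; rfl⟩⟩
      have h2 : N = ⊥ := (hV.min N hN fun a ha => ha.1).resolve_right fun e => hμ (by
        apply Additive.toMul.injective
        ext1 v
        simpa using (e.ge v.2).2 1)
      have h3 : (CommGroup.subgroupOrderIsoSubgroupMonoidHom V ℂ).symm
          (OrderDual.toDual (AddSubgroup.toSubgroup' Z)) = ⊥ := by
        rw [eq_bot_iff]
        intro v hv
        rw [CommGroup.mem_subgroupOrderIsoSubgroupMonoidHom_symm_iff] at hv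
        have h4 : (v : G) ∈ N := ⟨v.2, fun g => by
          rw [← inv_inv g]
          exact hv (cj g⁻¹⁻¹ μ.toMul) (hZ (g⁻¹ : G))⟩
        rw [h2, Subgroup.mem_bot] at h4
        exact Subtype.ext h4
      rw [OrderIso.symm_apply_eq, OrderIso.map_bot] at h3
      have h5 : AddSubgroup.toSubgroup' Z = ⊤ := h3
      exact eq_top_iff.2 fun z _ => h5.ge (Subgroup.mem_top z.toMul))
    (fun s hs' => by
      rw [← Finset.card_image_of_injective s Additive.toMul.injective]
      refine h.orbits (j := 1) hp V (fun μ v => by rw [pow_one, ← map_pow, h1, map_one]) _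
        fun μ hμ ν hν x hx => ?_
      obtain ⟨a, ha, rfl⟩ := Finset.mem_image.1 hμ
      obtain ⟨b, hb, rfl⟩ := Finset.mem_image.1 hν
      rw [hs' a ha b hb (x⁻¹ : G) (by
        show Additive.ofMul (cj x⁻¹⁻¹ a.toMul) = b
        rw [inv_inv, hx, ofMul_toMul])])
    ((card_dual V).le.trans hL1) (Nat.lt_pow_succ_log_self one_lt_two _).le
  have hl1 : 1 ≤ l := by omega
  replace hA2 := hA2.trans (Nat.pow_le_pow_right two_pos (num2 _ hl1))
  have h2 := (h.orb hV _ hker).trans (Nat.mul_le_mul Nat.lt_two_pow_self.le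
    ((h.quot _ hs).ab hA hA1 hA2))
  rw [← pow_add] at h2
  have h3 : L ≤ 130 * Kc m ^ 6 * l ^ 4 := by
    refine le_trans ?_ (num1 hK hl1 (le_Kc m) le_rfl)
    exact Nat.succ_le_succ ((Nat.pow_le_pow_iff_right one_lt_two).1
      ((Nat.pow_log_le_self 2 Nat.card_pos.ne').trans h2))
  have h4 : l ≤ 812500 * Kc m ^ 6 := by
    have a1 : l ^ (4 + 1) ≤ _ := num3 l
    have a2 : 2 ^ l ≤ 2 * L := by
      rw [hl, pow_succ']
      exact Nat.mul_le_mul_left _ (Nat.pow_log_le_self 2 (by omega))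
    refine Nat.le_of_mul_le_mul_right ?_ (pow_pos hl1 4)
    rw [← pow_succ', mul_assoc]
    rw [mul_assoc] at h3
    omega
  refine ⟨hL1.trans (Nat.pow_le_pow_right two_pos (h3.trans
    (Nat.mul_le_mul_left _ (Nat.pow_le_pow_left h4 _)))), le_trans ?_ hker⟩
  have h5 := derived_succ_bot hA1 (hA2.trans (Nat.pow_le_pow_right two_pos
    (Nat.mul_le_mul_left 7 (Nat.pow_le_pow_left (Nat.mul_le_mul_left _ h4) 2))))
  rwa [← map_derivedSeries_eq hs, Subgroup.map_eq_bot_iff, QuotientGroup.ker_mk'] at h5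

theorem FB.card_le [Finite G] [Group.IsSolvable G] {m : ℕ} (h : FB m G) :
    Nat.card G ≤ 2 ^ (130 * Kc m ^ 6 * (812500 * Kc m ^ 6) ^ 4 *
      ((7 * (Kc m * (812500 * Kc m ^ 6)) ^ 2 + 1 + 1) * (2 * m) * Kc m)) := by
  refine size (fun G _ => FB m G) (fun G _ _ N _ h => h.quot _ (QuotientGroup.mk'_surjective N))
    (fun G _ _ _ h V hV => (h.min hV).1) h h ?_
  refine le_trans (Finset.card_le_card fun p hp => ?_) (primes_le _ (G ⧸ derivedSeries G _)
    (h.quot _ (QuotientGroup.mk'_surjective _)) (derived_quot le_rfl))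
  have h1 := Nat.prime_of_mem_primeFactors hp
  exact Nat.mem_primeFactors.2 ⟨h1, primes_all (fun G _ _ _ h V hV => (h.min hV).2) h1 _ G
    (Nat.lt_succ_self _) h (Nat.dvd_of_mem_primeFactors hp), Nat.card_pos.ne'⟩

end Pool.Agent.MP_adf6dd_al

end MrgPart6

-- ======== part 7: formerly Pool.Agent.MP_adf6dd_al.Poly
section MrgPart7

set_option autoImplicit false

namespace Pool.Agent.MP_adf6dd_al

/-- polynomially bounded functions -/
def PB (f : ℕ → ℕ) : Prop := ∃ C c : ℕ, ∀ m, 1 ≤ m → f m ≤ C * m ^ c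

theorem PB.const (a : ℕ) : PB fun _ => a := ⟨a, 0, fun _ _ => by simp⟩

theorem PB.id : PB fun m => m := ⟨1, 1, fun _ _ => by simp⟩

theorem PB.add {f g : ℕ → ℕ} (hf : PB f) (hg : PB g) : PB fun m => f m + g m := by
  obtain ⟨C, c, h⟩ := hf
  obtain ⟨D, d, h'⟩ := hg
  refine ⟨C + D, c + d, fun m hm => ?_⟩
  rw [add_mul]
  exact Nat.add_le_add
    ((h m hm).trans (Nat.mul_le_mul_left _ (Nat.pow_le_pow_right hm (by omega))))
    ((h' m hm).trans (Nat.mul_le_mul_left _ (Nat.pow_le_pow_right hm (by omega))))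

theorem PB.mul {f g : ℕ → ℕ} (hf : PB f) (hg : PB g) : PB fun m => f m * g m := by
  obtain ⟨C, c, h⟩ := hf
  obtain ⟨D, d, h'⟩ := hg
  refine ⟨C * D, c + d, fun m hm => (Nat.mul_le_mul (h m hm) (h' m hm)).trans (le_of_eq ?_)⟩
  ring

theorem PB.pow {f : ℕ → ℕ} (hf : PB f) (n : ℕ) : PB fun m => f m ^ n := by
  obtain ⟨C, c, h⟩ := hf
  refine ⟨C ^ n, c * n, fun m hm => (Nat.pow_le_pow_left (h m hm) n).trans (le_of_eq ?_)⟩
  rw [mul_pow, pow_mul]

theorem PB.kc : PB Kc := PB.id.mul ((PB.id.add (PB.const 1)).mul (PB.id.add (PB.const 1)))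

theorem solvable_poly : ∃ C c : ℕ, ∀ (G : Type) [Group G] [Finite G] [Group.IsSolvable G],
    Nat.card G ≤ 2 ^ (C * fieldMult G ^ c) := by
  have h1 := (PB.const 812500).mul (PB.kc.pow 6)
  obtain ⟨C, c, h⟩ := (((PB.const 130).mul (PB.kc.pow 6)).mul (h1.pow 4)).mul
    ((((((PB.const 7).mul ((PB.kc.mul h1).pow 2)).add (PB.const 1)).add (PB.const 1)).mul
      ((PB.const 2).mul PB.id)).mul PB.kc)
  exact ⟨C, c, fun G _ _ _ => fb_fieldMult.card_le.trans
    (Nat.pow_le_pow_right two_pos (h _ (fb_fieldMult (G := G)).one_le))⟩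

theorem pow_le_two_pow (k m : ℕ) : m ^ (k + 1) ≤ (k + 1) ^ (k + 1) * 2 ^ m := by
  have h1 : m ≤ (k + 1) * 2 ^ (m / (k + 1)) :=
    (Nat.lt_mul_div_succ m (Nat.succ_pos k)).le.trans
      (Nat.mul_le_mul_left _ Nat.lt_two_pow_self)
  refine (Nat.pow_le_pow_left h1 _).trans ?_
  rw [mul_pow, ← pow_mul]
  exact Nat.mul_le_mul_left _ (Nat.pow_le_pow_right two_pos (Nat.div_mul_le_self _ _))

/-- The double logarithmic bound for all large solvable groups. -/
theorem solvable_loglog : ∃ N : ℕ, ∀ (G : Type) [Group G] [Finite G] [Group.IsSolvable G],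
    N ≤ Nat.card G → Nat.card G ≤ 2 ^ 2 ^ fieldMult G := by
  obtain ⟨C, c, h⟩ := solvable_poly
  refine ⟨2 ^ (C * (C * (c + 1) ^ (c + 1)) ^ c) + 1, fun G _ _ _ hN => ?_⟩
  have h0 : 1 ≤ fieldMult G := (fb_fieldMult (G := G)).one_le
  by_cases hm : fieldMult G ≤ C * (c + 1) ^ (c + 1)
  · have := (h G).trans (Nat.pow_le_pow_right two_pos
      (Nat.mul_le_mul_left C (Nat.pow_le_pow_left hm c)))
    omega
  · refine (h G).trans (Nat.pow_le_pow_right two_pos (Nat.le_of_mul_le_mul_right ?_ h0))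
    have h1 := Nat.mul_le_mul_left C (pow_le_two_pow c (fieldMult G))
    rw [mul_assoc, ← pow_succ, mul_comm (2 ^ _)]
    rw [← mul_assoc] at h1
    exact h1.trans (Nat.mul_le_mul_right _ (not_le.1 hm).le)

end Pool.Agent.MP_adf6dd_al

end MrgPart7

-- marker of a merged file
example : 731051 + 640448 = 731051 + 640448 := rfl
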